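import Mathlib
import Pool.Agent.Lib.MP_800721_co.Core

/-!
# MP_b69e89_co : weighted kernels on the orientable surface of genus `g`: definitions

* `CombMap`: a combinatorial map, i.e. a connected (multi)graph cellularly embedded in a closed
  oriented surface.  The darts are the elements of `D`, the vertices are the cycles of `σ`, the
  edges are the cycles (orbits) of the fixed point free involution `α`, and the faces are the
  cycles of `σ * α`.
* `CombMap.GenusLE g`: Euler's formula, the surface has genus at most `g`.
* `EmbedsOn g ends`: the multigraph with edges `E` and end points `ends e` embeds on the surface of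
  genus `g`: it is a sub-multigraph of the graph of a combinatorial map of genus at most `g`.
* `deg`, `cf`, `IsKernel`, `kernelCount`: degree, compensation factor, kernels, weighted number of
  kernels with vertex set `Fin n` and `m` edges. A multigraph with vertex set `V` and `m` edges is
  a multiset of `m` unordered pairs (possibly `s(v, v)`, a loop), i.e. an element of
  `Sym (Sym2 V) m`.
* `simpleCount`: the number of simple graphs with vertex set `Fin k` and `i` edges that embed.
* `P`, `τ`, `T`: the explicit coefficients of the transformation from simple graphs to kernels.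
* `closed`: the closed form `(2m)!/(2^m m!) [x^{2m}] (e^x - 1 - x - x^2/2)^n`.
-/

namespace KernelCount

open Equiv Equiv.Perm Empire

/-- A combinatorial map: a connected multigraph cellularly embedded in a closed oriented
surface. -/
structure CombMap where
  /-- the darts -/
  D : Type
  finite_D : Finite D
  nonempty_D : Nonempty D
  /-- next dart around the vertex -/
  σ : Perm D
  /-- reversal of darts -/
  α : Perm D
  α_ne : ∀ d, α d ≠ d
  α_α : ∀ d, α (α d) = d
  /-- connectivity: a set of darts closed under `σ` and `α` contains all darts or none -/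
  conn : ∀ S : D → Prop, (∀ d, S (σ d) ↔ S d) → (∀ d, S (α d) ↔ S d) → ∀ d e, S d → S e

/-- the vertices of a map are the cycles of `σ` -/
abbrev CombMap.Vertex (M : CombMap) : Type := Quotient (SameCycle.setoid M.σ)

/-- the vertex at which a dart starts -/
def CombMap.vert (M : CombMap) (d : M.D) : M.Vertex := Quotient.mk _ d

/-- Euler's formula: `2 - 2 g ≤ V - E + F`, the surface has genus at most `g`.
(`cyc p` is the number of cycles of the permutation `p`, fixed points included.) -/
def CombMap.GenusLE (M : CombMap) (g : ℕ) : Prop :=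
  (2 : ℤ) - 2 * g ≤ (cyc M.σ : ℤ) - cyc M.α + cyc (M.σ * M.α)

/-- The multigraph with vertex set `V`, edges `E` and end points `ends e` embeds on the closed
orientable surface of genus `g`: there is a combinatorial map of genus at most `g` and an
injection `ι` of the vertices and a choice `κ` of pairwise different edges of the map (`κ e` is one
of the two darts of the edge of the map), respecting the end points. -/
def EmbedsOn (g : ℕ) {V E : Type} (ends : E → Sym2 V) : Prop :=
  ∃ M : CombMap, M.GenusLE g ∧ ∃ (ι : V → M.Vertex) (κ : E → M.D),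
    Function.Injective ι ∧
    (∀ e e', κ e = κ e' → e = e') ∧ (∀ e e', κ e ≠ M.α (κ e')) ∧
    ∀ e, s(M.vert (κ e), M.vert (M.α (κ e))) = Sym2.map ι (ends e)

section

variable {V : Type} [DecidableEq V]

/-- the degree of the vertex `v` in the multigraph `M`; a loop counts twice -/
def deg {m : ℕ} (M : Sym (Sym2 V) m) (v : V) : ℕ :=
  2 * (M : Multiset (Sym2 V)).countP (fun p => p = s(v, v)) +
    (M : Multiset (Sym2 V)).countP (fun p => v ∈ p ∧ p ≠ s(v, v))

/-- The compensation factor `2^{-ℓ} ∏ (i!)^{-(e_i + ℓ_i)}`: every pair `p` (a loop position if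
`p = s(v, v)`) occurring `i` times contributes `1 / i!`, every loop contributes `1 / 2`. -/
noncomputable def cf [Fintype V] {m : ℕ} (M : Sym (Sym2 V) m) : ℚ :=
  (1 / 2) ^ ((M : Multiset (Sym2 V)).countP (fun p => p.IsDiag)) *
    ∏ p : Sym2 V, (1 / ((M : Multiset (Sym2 V)).count p).factorial : ℚ)

/-- the multigraph `M` is a kernel on `S_g` -/
def IsKernel (g : ℕ) {m : ℕ} (M : Sym (Sym2 V) m) : Prop :=
  (∀ v, 3 ≤ deg M v) ∧
    ∃ ends : Fin m → Sym2 V, Multiset.map ends Finset.univ.val = (M : Multiset (Sym2 V)) ∧
      EmbedsOn g ends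

end

open Classical in
/-- `|K_g(n, m)|`: the weighted number of kernels on `S_g` with vertex set `[n]` and `m` edges -/
noncomputable def kernelCount (g n m : ℕ) : ℚ :=
  ∑ M : Sym (Sym2 (Fin n)) m, if IsKernel g M then cf M else 0

/-- the number of simple graphs with vertex set `[k]` and `i` edges embeddable on `S_g` -/
noncomputable def simpleCount (g k i : ℕ) : ℕ :=
  Nat.card {G : SimpleGraph (Fin k) //
    Nat.card G.edgeSet = i ∧ EmbedsOn g (fun e : G.edgeSet => (e : Sym2 (Fin k)))}

section

open Finset

/-! ### the explicit coefficients -/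

/-- `P k i j = (1/j!) ∑_b (-1)^b C(i,b) (k/2 + i - b)^j`: the weighted number of multigraphs with
`j` edges whose underlying simple graph is a given graph with `k` vertices and `i` edges -/
noncomputable def P (k i j : ℕ) : ℚ :=
  (∑ b ∈ range (i + 1), (-1) ^ b * (i.choose b : ℚ) * ((k : ℚ) / 2 + ((i - b : ℕ) : ℚ)) ^ j) /
    j.factorial

/-- `τ k s j = ∑_{q + r = j, 2 q + r ≤ s} s! k^r / ((s - 2q - r)! q! r! 2^q)`: the number of ways
to attach `s` labelled vertices of degree at most one with `j` edges -/
noncomputable def τ (k s j : ℕ) : ℚ :=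
  ∑ x ∈ antidiagonal j, if 2 * x.1 + x.2 ≤ s then
    (s.factorial * (k : ℚ) ^ x.2) /
      ((s - 2 * x.1 - x.2).factorial * x.1.factorial * x.2.factorial * 2 ^ x.1) else 0

/-- The coefficients of the transformation:
`T n m k i = (-1)^(n-k) ∑_{a ≤ min (n-k) m} n!/(a! (n-k-a)! k!) ∏_{x<a} (m - x - 1/2)
  ∑_{j ≤ m-a} τ k (n-k-a) j * P k i (m-a-j)`. -/
noncomputable def T (n m k i : ℕ) : ℚ :=
  (-1) ^ (n - k) * ∑ a ∈ range (n - k + 1), if a ≤ m then
    (n.factorial / (a.factorial * (n - k - a).factorial * k.factorial) : ℚ) *
      (∏ x ∈ range a, ((m : ℚ) - x - 1 / 2)) *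
      ∑ j ∈ range (m - a + 1), τ k (n - k - a) j * P k i (m - a - j) else 0

/-- `e^x - 1 - x - x^2/2` -/
noncomputable def E3 : PowerSeries ℚ :=
  PowerSeries.mk fun d => if 3 ≤ d then 1 / (d.factorial : ℚ) else 0

/-- `(2m)!/(2^m m!) [x^{2m}] (e^x - 1 - x - x^2/2)^n`: the weighted number of all multigraphs with
`n` vertices, `m` edges and minimum degree at least three -/
noncomputable def closed (n m : ℕ) : ℚ :=
  (2 * m).factorial / (2 ^ m * m.factorial) * PowerSeries.coeff (2 * m) (E3 ^ n)

end

end KernelCount
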