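import Mathlib
import Pool.Agent.Lib.MP_800721_co.PermCyc
import Pool.Agent.Lib.MP_800721_co.Base
import Pool.Agent.Lib.MP_b69e89_co.Defs

/-!
# MP_b69e89_co : operations on combinatorial maps
-/

namespace KernelCount

open Equiv Equiv.Perm Empire

/-- the involution of `Bool` -/
abbrev bnot : Perm Bool := Equiv.boolNot

theorem cyc_bnot : cyc bnot = 1 := by
  have h : ∀ x y : Bool, (bnot).SameCycle x y := by
    intro x y
    by_cases hxy : x = y
    · subst hxy; exact SameCycle.refl _ _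
    · refine ⟨1, ?_⟩
      rw [zpow_one]
      cases x <;> cases y <;> simp_all [bnot]
  unfold cyc
  rw [Nat.card_eq_one_iff_unique]
  refine ⟨⟨fun a b => ?_⟩, ⟨Quotient.mk _ true⟩⟩
  induction a using Quotient.inductionOn with | _ a => ?_
  induction b using Quotient.inductionOn with | _ b => ?_
  exact Quotient.sound (h a b)

namespace CombMap

variable (M : CombMap)

instance : Finite M.D := M.finite_D
instance : Nonempty M.D := M.nonempty_D
noncomputable instance : DecidableEq M.D := Classical.decEq _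

theorem α_symm_apply (d : M.D) : M.α.symm d = M.α d := by
  rw [Equiv.symm_apply_eq, M.α_α]

theorem α_inv_eq : M.α⁻¹ = M.α := by
  ext d
  exact M.α_symm_apply d

theorem vert_eq_iff (d e : M.D) : M.vert d = M.vert e ↔ M.σ.SameCycle d e :=
  ⟨fun h => Quotient.exact h, fun h => Quotient.sound h⟩

theorem exists_vert (x : M.Vertex) : ∃ d, M.vert d = x :=
  Quotient.exists_rep x

/-- the sum of a map with two new darts, forming an edge not joined to the map -/
def σ0 : Perm (M.D ⊕ Bool) := Perm.sumCongr M.σ 1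
def α0 : Perm (M.D ⊕ Bool) := Perm.sumCongr M.α bnot

@[simp] theorem σ0_inl (d : M.D) : M.σ0 (Sum.inl d) = Sum.inl (M.σ d) := rfl
@[simp] theorem σ0_inr (b : Bool) : M.σ0 (Sum.inr b) = Sum.inr b := rfl
@[simp] theorem α0_inl (d : M.D) : M.α0 (Sum.inl d) = Sum.inl (M.α d) := rfl
@[simp] theorem α0_inr (b : Bool) : M.α0 (Sum.inr b) = Sum.inr (!b) := rfl

theorem α0_α0 (x : M.D ⊕ Bool) : M.α0 (M.α0 x) = x := by
  rcases x with x | x
  · simp [M.α_α]
  · simp

theorem α0_ne (x : M.D ⊕ Bool) : M.α0 x ≠ x := by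
  rcases x with x | x
  · simp [M.α_ne]
  · simp

theorem cyc_σ0 : cyc M.σ0 = cyc M.σ + 2 := by
  unfold σ0
  rw [cyc_sumCongr, Empire.cyc_one]
  simp

theorem cyc_α0 : cyc M.α0 = cyc M.α + 1 := by
  unfold α0
  rw [cyc_sumCongr, cyc_bnot]

theorem σ0_mul_α0 : M.σ0 * M.α0 = Perm.sumCongr (M.σ * M.α) bnot := by
  ext x
  rcases x with x | x <;> rfl

theorem cyc_σ0_mul_α0 : cyc (M.σ0 * M.α0) = cyc (M.σ * M.α) + 1 := by
  rw [σ0_mul_α0, cyc_sumCongr, cyc_bnot]

/-- splice the dart `inr false` after the dart `d` -/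
noncomputable def σ1 (d : M.D) : Perm (M.D ⊕ Bool) := M.σ0 * swap (Sum.inl d) (Sum.inr false)

theorem not_same0 (d : M.D) (b : Bool) : ¬ M.σ0.SameCycle (Sum.inl d) (Sum.inr b) :=
  not_sameCycle_sumCongr _ _ _ _

theorem cyc_σ1 (d : M.D) : cyc (M.σ1 d) = cyc M.σ + 1 := by
  have := cyc_mul_swap_of_not (M.not_same0 d false)
  have h0 := M.cyc_σ0
  unfold σ1
  omega

theorem swap_mul_α0 (x y : M.D ⊕ Bool) : swap x y * M.α0 = M.α0 * swap (M.α0 x) (M.α0 y) := by
  rw [Equiv.mul_swap_eq_swap_mul, α0_α0, α0_α0]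

theorem σ1_mul_α0 (d : M.D) :
    M.σ1 d * M.α0 = M.σ0 * M.α0 * swap (Sum.inl (M.α d)) (Sum.inr true) := by
  unfold σ1
  rw [mul_assoc, swap_mul_α0, ← mul_assoc]
  rfl

theorem not_same0' (d : M.D) (b : Bool) :
    ¬ (M.σ0 * M.α0).SameCycle (Sum.inl d) (Sum.inr b) := by
  rw [σ0_mul_α0]
  exact not_sameCycle_sumCongr _ _ _ _

theorem cyc_σ1_mul_α0 (d : M.D) : cyc (M.σ1 d * M.α0) = cyc (M.σ * M.α) := by
  rw [σ1_mul_α0]
  have := cyc_mul_swap_of_not (M.not_same0' (M.α d) true)
  have h0 := M.cyc_σ0_mul_α0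
  omega

theorem σ1_inl_of_ne {d x : M.D} (h : x ≠ d) : M.σ1 d (Sum.inl x) = Sum.inl (M.σ x) := by
  unfold σ1
  rw [mul_swap_apply_of_ne _ (by simpa using h) (by simp)]
  rfl

theorem σ1_inl_self (d : M.D) : M.σ1 d (Sum.inl d) = Sum.inr false := by
  unfold σ1
  rw [mul_swap_apply_left]
  rfl

theorem σ1_false (d : M.D) : M.σ1 d (Sum.inr false) = Sum.inl (M.σ d) := by
  unfold σ1
  rw [mul_swap_apply_right]
  rfl

theorem σ1_true (d : M.D) : M.σ1 d (Sum.inr true) = Sum.inr true := by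
  unfold σ1
  rw [mul_swap_apply_of_ne _ (by simp) (by simp)]
  rfl

theorem same_σ1_inl_inl (d x y : M.D) :
    (M.σ1 d).SameCycle (Sum.inl x) (Sum.inl y) ↔ M.σ.SameCycle x y := by
  unfold σ1
  rw [sameCycle_mul_swap_iff (M.not_same0 d false)]
  unfold σ0
  simp only [sameCycle_sumCongr_inl, not_sameCycle_sumCongr, or_false]
  constructor
  · rintro (h | ⟨h1, h2⟩)
    · exact h
    · exact h1.trans h2.symm
  · exact Or.inl

theorem same_σ1_false (d : M.D) : (M.σ1 d).SameCycle (Sum.inr false) (Sum.inl d) := by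
  unfold σ1
  exact (sameCycle_mul_swap_of_not (M.not_same0 d false)).symm

theorem not_same_σ1_true (d x : M.D) : ¬ (M.σ1 d).SameCycle (Sum.inl x) (Sum.inr true) := by
  refine not_sameCycle_of_fixed (M.σ1_true d) (by simp)

/-- add a new vertex of degree one, joined to the map in the corner after `d` -/
noncomputable def pendant (d : M.D) : CombMap where
  D := M.D ⊕ Bool
  finite_D := inferInstance
  nonempty_D := inferInstance
  σ := M.σ1 d
  α := M.α0
  α_ne := M.α0_ne
  α_α := M.α0_α0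
  conn := by
    intro S hσ hα
    have h1 : ∀ x y, S (Sum.inl x) → S (Sum.inl y) := by
      refine M.conn (fun x => S (Sum.inl x)) ?_ ?_
      · intro x
        by_cases hx : x = d
        · subst hx
          have h2 := hσ (Sum.inl x)
          rw [σ1_inl_self] at h2
          have h3 := hσ (Sum.inr false)
          rw [σ1_false] at h3
          exact h3.trans h2
        · have h2 := hσ (Sum.inl x)
          rw [σ1_inl_of_ne _ hx] at h2
          exact h2
      · intro x
        exact hα (Sum.inl x)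
    have h2 : S (Sum.inr false) ↔ S (Sum.inl d) := by
      have h2 := hσ (Sum.inl d)
      rwa [σ1_inl_self] at h2
    have h3 : S (Sum.inr true) ↔ S (Sum.inr false) := by
      have := hα (Sum.inr false)
      exact this
    have h4 : ∀ z, S z ↔ S (Sum.inl d) := by
      rintro (z | z)
      · exact ⟨h1 _ _, h1 _ _⟩
      · cases z
        · exact h2
        · exact h3.trans h2
    intro a b hab
    exact (h4 b).2 ((h4 a).1 hab)

theorem pendant_genusLE {g : ℕ} (h : M.GenusLE g) (d : M.D) : (M.pendant d).GenusLE g := by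
  have h1 := M.cyc_σ1 d
  have h2 := M.cyc_α0
  have h3 := M.cyc_σ1_mul_α0 d
  unfold GenusLE at h
  have h' : (2 : ℤ) - 2 * g ≤ (cyc (M.σ1 d) : ℤ) - cyc M.α0 + cyc (M.σ1 d * M.α0) := by
    rw [h1, h2, h3]
    push_cast
    linarith
  exact h'

/-- splice the dart `inr false` after the dart `d` and the dart `inr true` after `d'` -/
noncomputable def σ2 (d d' : M.D) : Perm (M.D ⊕ Bool) := M.σ1 d * swap (Sum.inl d') (Sum.inr true)

theorem cyc_σ2 (d d' : M.D) : cyc (M.σ2 d d') = cyc M.σ := by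
  have := cyc_mul_swap_of_not (M.not_same_σ1_true d d')
  have h0 := M.cyc_σ1 d
  unfold σ2
  omega

theorem σ2_mul_α0 (d d' : M.D) :
    M.σ2 d d' * M.α0 = M.σ1 d * M.α0 * swap (Sum.inl (M.α d')) (Sum.inr false) := by
  unfold σ2
  rw [mul_assoc, swap_mul_α0, ← mul_assoc]
  rfl

/-- after adding the pendant edge at `d`, the face of `α d` contains both new darts -/
theorem same_face_pendant {d d' : M.D} (h : (M.σ * M.α).SameCycle (M.α d) (M.α d')) :
    (M.σ1 d * M.α0).SameCycle (Sum.inl (M.α d')) (Sum.inr false) := by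
  rw [σ1_mul_α0]
  have hn := M.not_same0' (M.α d) true
  have h1 : (M.σ0 * M.α0).SameCycle (Sum.inl (M.α d')) (Sum.inl (M.α d)) := by
    rw [σ0_mul_α0, sameCycle_sumCongr_inl]
    exact h.symm
  have h2 : (M.σ0 * M.α0).SameCycle (Sum.inr true) (Sum.inr false) := by
    refine ⟨1, ?_⟩
    rw [zpow_one]
    rfl
  exact (sameCycle_mul_swap_of_sameCycle hn h1).trans
    ((sameCycle_mul_swap_of_not hn).trans (sameCycle_mul_swap_of_sameCycle hn h2))

theorem cyc_σ2_mul_α0 {d d' : M.D} (h : (M.σ * M.α).SameCycle (M.α d) (M.α d')) :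
    cyc (M.σ2 d d' * M.α0) = cyc (M.σ * M.α) + 1 := by
  rw [σ2_mul_α0, cyc_mul_swap_of (by simp) (M.same_face_pendant h), cyc_σ1_mul_α0]

theorem same_σ2_of_σ1 {d d' : M.D} {x y} (h : (M.σ1 d).SameCycle x y) :
    (M.σ2 d d').SameCycle x y :=
  sameCycle_mul_swap_of_sameCycle (M.not_same_σ1_true d d') h

theorem same_σ2_inl_inl (d d' x y : M.D) :
    (M.σ2 d d').SameCycle (Sum.inl x) (Sum.inl y) ↔ M.σ.SameCycle x y := by
  constructor
  · intro h
    unfold σ2 at h
    rw [sameCycle_mul_swap_iff (M.not_same_σ1_true d d')] at h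
    rcases h with h | ⟨h1 | h1, h2 | h2⟩
    · exact (M.same_σ1_inl_inl d x y).1 h
    · exact ((M.same_σ1_inl_inl _ _ _).1 h1).trans ((M.same_σ1_inl_inl _ _ _).1 h2).symm
    · exact absurd h2 (M.not_same_σ1_true _ _)
    · exact absurd h1 (M.not_same_σ1_true _ _)
    · exact absurd h1 (M.not_same_σ1_true _ _)
  · intro h
    exact M.same_σ2_of_σ1 ((M.same_σ1_inl_inl d x y).2 h)

theorem same_σ2_false (d d' : M.D) : (M.σ2 d d').SameCycle (Sum.inr false) (Sum.inl d) :=
  M.same_σ2_of_σ1 (M.same_σ1_false d)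

theorem same_σ2_true (d d' : M.D) : (M.σ2 d d').SameCycle (Sum.inr true) (Sum.inl d') :=
  (sameCycle_mul_swap_of_not (M.not_same_σ1_true d d')).symm

/-- add an edge inside a face, from the corner after `d` to the corner after `d'` -/
noncomputable def addEdge (d d' : M.D) : CombMap where
  D := M.D ⊕ Bool
  finite_D := inferInstance
  nonempty_D := inferInstance
  σ := M.σ2 d d'
  α := M.α0
  α_ne := M.α0_ne
  α_α := M.α0_α0
  conn := by
    intro S hσ hα
    refine (M.pendant d).conn S ?_ hα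
    intro x
    have hS : ∀ {x y}, (M.σ2 d d').SameCycle x y → (S x ↔ S y) := by
      intro x y hxy
      have := eq_of_sameCycle (f := S) (fun x => propext (hσ x)) hxy
      rw [this]
    exact (hS (M.same_σ2_of_σ1 (sameCycle_apply_right.2 (SameCycle.refl _ _)))).symm

theorem addEdge_genusLE {g : ℕ} (h : M.GenusLE g) {d d' : M.D}
    (hd : (M.σ * M.α).SameCycle (M.α d) (M.α d')) : (M.addEdge d d').GenusLE g := by
  have h1 := M.cyc_σ2 d d'
  have h2 := M.cyc_α0
  have h3 := M.cyc_σ2_mul_α0 hd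
  unfold GenusLE at h
  have h' : (2 : ℤ) - 2 * g ≤ (cyc (M.σ2 d d') : ℤ) - cyc M.α0 + cyc (M.σ2 d d' * M.α0) := by
    rw [h1, h2, h3]
    push_cast
    linarith
  exact h'

/-- contraction of the edge of `d` (the edge is kept as a loop) -/
noncomputable def contr (d : M.D) (hd : ¬ M.σ.SameCycle d (M.α d)) : CombMap where
  D := M.D
  finite_D := inferInstance
  nonempty_D := inferInstance
  σ := M.σ * swap d (M.σ.symm (M.α d))
  α := M.α
  α_ne := M.α_ne
  α_α := M.α_α
  conn := by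
    intro S hσ hα
    refine M.conn S ?_ hα
    have hn : ¬ M.σ.SameCycle d (M.σ.symm (M.α d)) := by
      intro h
      refine hd (h.trans ?_)
      refine ⟨1, ?_⟩
      rw [zpow_one, Equiv.apply_symm_apply]
    intro x
    have hS : ∀ {x y}, (M.σ * swap d (M.σ.symm (M.α d))).SameCycle x y → (S x ↔ S y) := by
      intro x y hxy
      have := eq_of_sameCycle (f := S) (fun x => propext (hσ x)) hxy
      rw [this]
    exact (hS (sameCycle_mul_swap_of_sameCycle hn
      (sameCycle_apply_right.2 (SameCycle.refl _ _)))).symm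

theorem not_same_symm {d : M.D} (hd : ¬ M.σ.SameCycle d (M.α d)) :
    ¬ M.σ.SameCycle d (M.σ.symm (M.α d)) := by
  intro h
  refine hd (h.trans ?_)
  refine ⟨1, ?_⟩
  rw [zpow_one, Equiv.apply_symm_apply]

theorem contr_genusLE {g : ℕ} (h : M.GenusLE g) {d : M.D} (hd : ¬ M.σ.SameCycle d (M.α d)) :
    (M.contr d hd).GenusLE g := by
  have h1 := cyc_mul_swap_of_not (M.not_same_symm hd)
  have h3 : cyc (M.σ * swap d (M.σ.symm (M.α d)) * M.α) = cyc (M.σ * M.α) + 1 := by
    have e : swap d (M.σ.symm (M.α d)) * M.α =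
        M.α * swap (M.α d) (M.α (M.σ.symm (M.α d))) := by
      rw [Equiv.mul_swap_eq_swap_mul, M.α_α, M.α_α]
    rw [mul_assoc, e, ← mul_assoc]
    refine cyc_mul_swap_of ?_ ?_
    · intro h'
      have := M.α.injective h'
      exact M.not_same_symm hd (this ▸ SameCycle.refl _ _)
    · refine SameCycle.symm ⟨1, ?_⟩
      rw [zpow_one, Perm.mul_apply, M.α_α, Equiv.apply_symm_apply]
  unfold GenusLE at h
  have h1' : (cyc (M.σ * swap d (M.σ.symm (M.α d))) : ℤ) + 1 = cyc M.σ := by exact_mod_cast h1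
  have h' : (2 : ℤ) - 2 * g ≤ (cyc (M.σ * swap d (M.σ.symm (M.α d))) : ℤ) - cyc M.α +
      cyc (M.σ * swap d (M.σ.symm (M.α d)) * M.α) := by
    rw [h3]
    push_cast
    linarith
  exact h'

theorem same_contr_iff {d : M.D} (hd : ¬ M.σ.SameCycle d (M.α d)) (x y : M.D) :
    (M.σ * swap d (M.σ.symm (M.α d))).SameCycle x y ↔ M.σ.SameCycle x y ∨
      ((M.σ.SameCycle x d ∨ M.σ.SameCycle x (M.α d)) ∧
        (M.σ.SameCycle y d ∨ M.σ.SameCycle y (M.α d))) := by
  rw [sameCycle_mul_swap_iff (M.not_same_symm hd)]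
  have h : ∀ z, M.σ.SameCycle z (M.σ.symm (M.α d)) ↔ M.σ.SameCycle z (M.α d) := by
    intro z
    have : M.σ.SameCycle (M.σ.symm (M.α d)) (M.α d) :=
      ⟨1, by rw [zpow_one, Equiv.apply_symm_apply]⟩
    exact ⟨fun h => h.trans this, fun h => h.trans this.symm⟩
  rw [h, h]

end CombMap

/-- the map with a single edge and two vertices on the sphere -/
def sphereMap : CombMap where
  D := Bool
  finite_D := inferInstance
  nonempty_D := inferInstance
  σ := 1
  α := bnot
  α_ne := by decide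
  α_α := by decide
  conn := by
    intro S _ hα d e h
    have h1 : S true ↔ S false := hα false
    cases d <;> cases e <;> tauto

theorem sphereMap_genusLE (g : ℕ) : sphereMap.GenusLE g := by
  have h' : (2 : ℤ) - 2 * g ≤ (cyc (1 : Perm Bool) : ℤ) - cyc bnot + cyc (1 * bnot) := by
    rw [one_mul, cyc_bnot, Empire.cyc_one]
    simp
  exact h'

end KernelCount
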