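import Mathlib
import Pool.Agent.Lib.MP_b69e89_co.Emb

/-!
# MP_b69e89_co : closure properties of the multigraphs embeddable on `S_g`
-/

namespace KernelCount

open Equiv Equiv.Perm Empire Function

/-- A multigraph given by its half-edges: `H` is the set of half-edges, `α` the involution pairing
the two halves of an edge, `f h` the vertex of the half-edge `h`. It embeds on `S_g`. -/
def EmbH (g : ℕ) {V H : Type} (α : Perm H) (f : H → V) : Prop :=
  ∃ M : CombMap, M.GenusLE g ∧ ∃ (ι : V → M.Vertex) (κ : H → M.D),
    Injective ι ∧ Injective κ ∧ (∀ h, κ (α h) = M.α (κ h)) ∧ ∀ h, M.vert (κ h) = ι (f h)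

variable {g : ℕ}

theorem EmbH.mono {V H V' H' : Type} {α : Perm H} {f : H → V} (h : EmbH g α f)
    {α' : Perm H'} {f' : H' → V'} (v : V' → V) (hv : Injective v) (j : H' → H) (hj : Injective j)
    (hα : ∀ h, j (α' h) = α (j h)) (hf : ∀ h, f (j h) = v (f' h)) : EmbH g α' f' := by
  obtain ⟨M, hM, ι, κ, hι, hκ, h1, h2⟩ := h
  refine ⟨M, hM, ι ∘ v, κ ∘ j, hι.comp hv, hκ.comp hj, ?_, ?_⟩
  · intro h
    simp only [comp_apply]
    rw [hα, h1]
  · intro h
    simp only [comp_apply]
    rw [h2, hf]

namespace CombMap

variable (M : CombMap)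

/-- old vertices in the map with a pendant edge -/
noncomputable def up1 (d : M.D) : M.Vertex → (M.pendant d).Vertex :=
  Quotient.lift (fun x => (M.pendant d).vert (Sum.inl x))
    (fun x y h => Quotient.sound ((M.same_σ1_inl_inl d x y).2 h))

theorem up1_vert (d x : M.D) : M.up1 d (M.vert x) = (M.pendant d).vert (Sum.inl x) := rfl

theorem up1_injective (d : M.D) : Injective (M.up1 d) := by
  intro x y h
  obtain ⟨x, rfl⟩ := M.exists_vert x
  obtain ⟨y, rfl⟩ := M.exists_vert y
  rw [up1_vert, up1_vert] at h
  exact (M.vert_eq_iff _ _).2 ((M.same_σ1_inl_inl d x y).1 (Quotient.exact h))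

theorem up1_ne (d : M.D) (x : M.Vertex) : M.up1 d x ≠ (M.pendant d).vert (Sum.inr true) := by
  obtain ⟨x, rfl⟩ := M.exists_vert x
  rw [up1_vert]
  intro h
  exact M.not_same_σ1_true d x (Quotient.exact h)

theorem vert_false1 (d : M.D) : (M.pendant d).vert (Sum.inr false) = M.up1 d (M.vert d) :=
  Quotient.sound (M.same_σ1_false d)

/-- old vertices in the map with a new edge -/
noncomputable def up2 (d d' : M.D) : M.Vertex → (M.addEdge d d').Vertex :=
  Quotient.lift (fun x => (M.addEdge d d').vert (Sum.inl x))
    (fun x y h => Quotient.sound ((M.same_σ2_inl_inl d d' x y).2 h))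

theorem up2_vert (d d' x : M.D) :
    M.up2 d d' (M.vert x) = (M.addEdge d d').vert (Sum.inl x) := rfl

theorem up2_injective (d d' : M.D) : Injective (M.up2 d d') := by
  intro x y h
  obtain ⟨x, rfl⟩ := M.exists_vert x
  obtain ⟨y, rfl⟩ := M.exists_vert y
  rw [up2_vert, up2_vert] at h
  exact (M.vert_eq_iff _ _).2 ((M.same_σ2_inl_inl d d' x y).1 (Quotient.exact h))

theorem vert_false2 (d d' : M.D) :
    (M.addEdge d d').vert (Sum.inr false) = M.up2 d d' (M.vert d) :=
  Quotient.sound (M.same_σ2_false d d')

theorem vert_true2 (d d' : M.D) :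
    (M.addEdge d d').vert (Sum.inr true) = M.up2 d d' (M.vert d') :=
  Quotient.sound (M.same_σ2_true d d')

theorem vert_symm (d : M.D) : M.vert (M.σ.symm d) = M.vert d := by
  refine (M.vert_eq_iff _ _).2 ⟨1, ?_⟩
  rw [zpow_one, Equiv.apply_symm_apply]

/-- the two corners at the two ends of an edge on the same side lie in the same face -/
theorem same_face_parallel (e : M.D) :
    (M.σ * M.α).SameCycle (M.α e) (M.α (M.σ.symm (M.α e))) := by
  refine SameCycle.symm ⟨1, ?_⟩
  rw [zpow_one, Perm.mul_apply, M.α_α, Equiv.apply_symm_apply]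

/-- old vertices in the contracted map -/
noncomputable def upC (d : M.D) (hd : ¬ M.σ.SameCycle d (M.α d)) :
    M.Vertex → (M.contr d hd).Vertex :=
  Quotient.lift (fun x => (M.contr d hd).vert x)
    (fun x y h => Quotient.sound ((M.same_contr_iff hd x y).2 (Or.inl h)))

theorem upC_vert (d : M.D) (hd : ¬ M.σ.SameCycle d (M.α d)) (x : M.D) :
    M.upC d hd (M.vert x) = (M.contr d hd).vert x := rfl

theorem upC_eq_iff (d : M.D) (hd : ¬ M.σ.SameCycle d (M.α d)) (x y : M.Vertex) :
    M.upC d hd x = M.upC d hd y ↔ x = y ∨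
      ((x = M.vert d ∨ x = M.vert (M.α d)) ∧ (y = M.vert d ∨ y = M.vert (M.α d))) := by
  obtain ⟨x, rfl⟩ := M.exists_vert x
  obtain ⟨y, rfl⟩ := M.exists_vert y
  rw [upC_vert, upC_vert]
  simp only [M.vert_eq_iff]
  refine Iff.trans ?_ (M.same_contr_iff hd x y)
  exact ⟨fun h => Quotient.exact h, fun h => Quotient.sound h⟩

end CombMap

/-- isolated vertex -/
theorem embH_some_iff {W H : Type} {α : Perm H} {f : H → W} :
    EmbH g α (fun h => some (f h)) ↔ EmbH g α f := by
  constructor
  · intro h
    exact h.mono some (Option.some_injective _) id injective_id (fun _ => rfl) (fun _ => rfl)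
  · rintro ⟨M, hM, ι, κ, hι, hκ, h1, h2⟩
    obtain ⟨d⟩ := M.nonempty_D
    refine ⟨M.pendant d, M.pendant_genusLE hM d,
      fun o => o.elim ((M.pendant d).vert (Sum.inr true)) (fun w => M.up1 d (ι w)),
      fun h => Sum.inl (κ h), ?_, ?_, ?_, ?_⟩
    · intro a b hab
      cases a <;> cases b
      · rfl
      · exact absurd hab.symm (M.up1_ne d _)
      · exact absurd hab (M.up1_ne d _)
      · exact congrArg some (hι (M.up1_injective d hab))
    · exact Sum.inl_injective.comp hκ
    · intro h
      show Sum.inl (κ (α h)) = M.α0 (Sum.inl (κ h))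
      rw [h1]
      rfl
    · intro h
      show (M.pendant d).vert (Sum.inl (κ h)) = M.up1 d (ι (f h))
      rw [← h2, CombMap.up1_vert]

/-- adding a pendant vertex -/
theorem embH_pendant {W H : Type} {α : Perm H} {f : H → W} (h : EmbH g α f) (u : W) :
    EmbH g (Perm.sumCongr α bnot)
      (Sum.elim (fun h => some (f h)) (fun b => if b then none else some u)) := by
  obtain ⟨M, hM, ι, κ, hι, hκ, h1, h2⟩ := h
  obtain ⟨d, hd⟩ := M.exists_vert (ι u)
  refine ⟨M.pendant d, M.pendant_genusLE hM d,
    fun o => o.elim ((M.pendant d).vert (Sum.inr true)) (fun w => M.up1 d (ι w)),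
    Sum.map κ id, ?_, ?_, ?_, ?_⟩
  · intro a b hab
    cases a <;> cases b
    · rfl
    · exact absurd hab.symm (M.up1_ne d _)
    · exact absurd hab (M.up1_ne d _)
    · exact congrArg some (hι (M.up1_injective d hab))
  · exact Sum.map_injective.2 ⟨hκ, injective_id⟩
  · rintro (h | b)
    · show Sum.inl (κ (α h)) = M.α0 (Sum.inl (κ h))
      rw [h1]
      rfl
    · rfl
  · rintro (h | b)
    · show (M.pendant d).vert (Sum.inl (κ h)) = M.up1 d (ι (f h))
      rw [← h2, CombMap.up1_vert]
    · cases b
      · show (M.pendant d).vert (Sum.inr false) = M.up1 d (ι u)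
        rw [M.vert_false1, hd]
      · rfl

/-- adding a loop -/
theorem embH_loop {V H : Type} {α : Perm H} {f : H → V} (h : EmbH g α f) (u : V) :
    EmbH g (Perm.sumCongr α bnot) (Sum.elim f (fun _ => u)) := by
  obtain ⟨M, hM, ι, κ, hι, hκ, h1, h2⟩ := h
  obtain ⟨d, hd⟩ := M.exists_vert (ι u)
  refine ⟨M.addEdge d d, M.addEdge_genusLE hM (SameCycle.refl _ _),
    fun w => M.up2 d d (ι w),
    Sum.map κ id, ?_, ?_, ?_, ?_⟩
  · exact (M.up2_injective d d).comp hι
  · exact Sum.map_injective.2 ⟨hκ, injective_id⟩
  · rintro (h | b)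
    · show Sum.inl (κ (α h)) = M.α0 (Sum.inl (κ h))
      rw [h1]
      rfl
    · rfl
  · rintro (h | b)
    · show (M.addEdge d d).vert (Sum.inl (κ h)) = M.up2 d d (ι (f h))
      rw [← h2, CombMap.up2_vert]
    · cases b
      · show (M.addEdge d d).vert (Sum.inr false) = M.up2 d d (ι u)
        rw [M.vert_false2, hd]
      · show (M.addEdge d d).vert (Sum.inr true) = M.up2 d d (ι u)
        rw [M.vert_true2, hd]

/-- `H` is `K` together with two more half-edges -/
theorem exists_sum_equiv {K H : Type} (j : K → H) (hj : Injective j) {h1 h2 : H} (h12 : h1 ≠ h2)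
    (hr : ∀ h, (∃ k, j k = h) ↔ h ≠ h1 ∧ h ≠ h2) :
    ∃ e : K ⊕ Bool ≃ H, (∀ k, e (Sum.inl k) = j k) ∧ e (Sum.inr false) = h1 ∧
      e (Sum.inr true) = h2 := by
  have hb : Bijective (Sum.elim j (fun b : Bool => if b then h2 else h1)) := by
    constructor
    · rintro (a | a) (b | b) hab
      · exact congrArg _ (hj hab)
      · exfalso
        have := (hr (j a)).1 ⟨a, rfl⟩
        cases b
        · exact this.1 hab
        · exact this.2 hab
      · exfalso
        have := (hr (j b)).1 ⟨b, rfl⟩
        cases a
        · exact this.1 hab.symm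
        · exact this.2 hab.symm
      · cases a <;> cases b
        · rfl
        · exact absurd hab h12
        · exact absurd hab.symm h12
        · rfl
    · intro h
      by_cases h' : h = h1
      · exact ⟨Sum.inr false, h'.symm⟩
      by_cases h'' : h = h2
      · exact ⟨Sum.inr true, h''.symm⟩
      · obtain ⟨k, hk⟩ := (hr h).2 ⟨h', h''⟩
        exact ⟨Sum.inl k, hk⟩
  exact ⟨Equiv.ofBijective _ hb, fun k => rfl, rfl, rfl⟩

/-- removing a pendant vertex -/
theorem embH_pendant_iff {K H W : Type} {αK : Perm K} {fK : K → W} {α : Perm H}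
    {f : H → Option W} (hα : ∀ h, α (α h) = h) (hne : ∀ h, α h ≠ h)
    (j : K → H) (hj : Injective j) {h1 : H}
    (hr : ∀ h, (∃ k, j k = h) ↔ h ≠ h1 ∧ h ≠ α h1)
    (hc : ∀ k, j (αK k) = α (j k)) (hf : ∀ k, f (j k) = some (fK k)) (hf1 : f h1 = none)
    {u : W} (hu : f (α h1) = some u) :
    EmbH g αK fK ↔ EmbH g α f := by
  constructor
  · intro h
    obtain ⟨e, he1, he2, he3⟩ := exists_sum_equiv j hj (hne h1)
      (fun h => (hr h).trans and_comm)
    refine (embH_pendant h u).mono id injective_id e.symm e.symm.injective ?_ ?_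
    · intro x
      obtain ⟨y, rfl⟩ := e.surjective x
      rw [Equiv.symm_apply_apply, Equiv.symm_apply_eq]
      rcases y with y | y
      · rw [he1, ← hc]
        exact (he1 _).symm
      · cases y
        · rw [he2, hα]
          exact he3.symm
        · rw [he3]
          exact he2.symm
    · intro x
      obtain ⟨y, rfl⟩ := e.surjective x
      rw [Equiv.symm_apply_apply]
      rcases y with y | y
      · rw [he1, hf]
        rfl
      · cases y
        · rw [he2, hu]
          rfl
        · rw [he3, hf1]
          rfl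
  · intro h
    exact h.mono some (Option.some_injective _) j hj hc hf

/-- removing a vertex with a loop and no other edge -/
theorem embH_loop_iff {K H W : Type} {αK : Perm K} {fK : K → W} {α : Perm H}
    {f : H → Option W} (hα : ∀ h, α (α h) = h) (hne : ∀ h, α h ≠ h)
    (j : K → H) (hj : Injective j) {h1 : H}
    (hr : ∀ h, (∃ k, j k = h) ↔ h ≠ h1 ∧ h ≠ α h1)
    (hc : ∀ k, j (αK k) = α (j k)) (hf : ∀ k, f (j k) = some (fK k)) (hf1 : f h1 = none)
    (hf2 : f (α h1) = none) :
    EmbH g αK fK ↔ EmbH g α f := by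
  constructor
  · intro h
    obtain ⟨e, he1, he2, he3⟩ := exists_sum_equiv j hj (hne h1)
      (fun h => (hr h).trans and_comm)
    refine (embH_loop (embH_some_iff.2 h) none).mono id injective_id e.symm e.symm.injective ?_ ?_
    · intro x
      obtain ⟨y, rfl⟩ := e.surjective x
      rw [Equiv.symm_apply_apply, Equiv.symm_apply_eq]
      rcases y with y | y
      · rw [he1, ← hc]
        exact (he1 _).symm
      · cases y
        · rw [he2, hα]
          exact he3.symm
        · rw [he3]
          exact he2.symm
    · intro x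
      obtain ⟨y, rfl⟩ := e.surjective x
      rw [Equiv.symm_apply_apply]
      rcases y with y | y
      · rw [he1, hf]
        rfl
      · cases y
        · rw [he2, hf2]
          rfl
        · rw [he3, hf1]
          rfl
  · intro h
    exact h.mono some (Option.some_injective _) j hj hc hf

/-- suppressing a vertex of degree two -/
theorem embH_of_subdiv {K H W : Type} {αK : Perm K} {fK : K → W} {α : Perm H}
    {f : H → Option W} (hα : ∀ h, α (α h) = h) 
    (j : K → H) (hj : Injective j) {h1 h2 : H} (h12 : h1 ≠ h2)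
    (hr : ∀ h, (∃ k, j k = h) ↔ h ≠ h1 ∧ h ≠ h2) {k0 : K} (hK : αK (αK k0) = k0)
    (hk1 : j k0 = α h1) (hk2 : j (αK k0) = α h2)
    (hc : ∀ k, k ≠ k0 → k ≠ αK k0 → j (αK k) = α (j k))
    (hf : ∀ k, f (j k) = some (fK k)) (hf1 : f h1 = none) (hf2 : f h2 = none)
    (h : EmbH g α f) : EmbH g αK fK := by
  classical
  obtain ⟨M, hM, ι, κ, hι, hκ, e1, e2⟩ := h
  have hk0 : αK k0 ≠ k0 := by
    intro h
    rw [h, hk1] at hk2
    exact h12 (α.injective hk2)
  set e := κ (α h1) with he
  have hαe : M.α e = κ h1 := by rw [he, ← e1, hα]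
  have hve : M.vert e = ι (some (fK k0)) := by rw [he, e2, ← hk1, hf]
  have hvα : M.vert (M.α e) = ι none := by rw [hαe, e2, hf1]
  have hd : ¬ M.σ.SameCycle e (M.α e) := by
    rw [← M.vert_eq_iff, hve, hvα]
    intro h
    exact absurd (hι h) (by simp)
  refine ⟨M.contr e hd, M.contr_genusLE hM hd, fun w => M.upC e hd (ι (some w)),
    fun k => if k = k0 then κ h2 else κ (j k), ?_, ?_, ?_, ?_⟩
  · intro a b hab
    have hab' : M.upC e hd (ι (some a)) = M.upC e hd (ι (some b)) := hab
    rw [M.upC_eq_iff, hve, hvα] at hab'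
    simp only [hι.eq_iff, Option.some_inj, reduceCtorEq, or_false] at hab'
    rcases hab' with h | ⟨h, h'⟩
    · exact h
    · rw [h, h']
  · intro a b hab
    simp only at hab
    have hj2 : ∀ k, j k ≠ h2 := fun k => ((hr (j k)).1 ⟨k, rfl⟩).2
    split_ifs at hab with ha hb hb
    · rw [ha, hb]
    · exact absurd (hκ hab).symm (hj2 _)
    · exact absurd (hκ hab) (hj2 _)
    · exact hj (hκ hab)
  · intro k
    show (if αK k = k0 then κ h2 else κ (j (αK k))) = M.α (if k = k0 then κ h2 else κ (j k))
    by_cases hk : k = k0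
    · subst hk
      rw [if_neg hk0, if_pos rfl, hk2, e1]
    · rw [if_neg hk]
      by_cases hk' : k = αK k0
      · subst hk'
        rw [if_pos hK, hk2, e1, M.α_α]
      · have : αK k ≠ k0 := by
          intro h
          refine hk' (αK.injective ?_)
          rw [h, hK]
        rw [if_neg this, hc k hk hk', e1]
  · intro k
    show (M.contr e hd).vert (if k = k0 then κ h2 else κ (j k)) = M.upC e hd (ι (some (fK k)))
    by_cases hk : k = k0
    · subst hk
      rw [if_pos rfl, ← M.upC_vert e hd, e2, hf2, M.upC_eq_iff, hve, hvα]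
      exact Or.inr ⟨Or.inr rfl, Or.inl rfl⟩
    · rw [if_neg hk, ← M.upC_vert e hd, e2, hf]

/-- subdividing an edge -/
theorem embH_subdiv {K H W : Type} {αK : Perm K} {fK : K → W} {α : Perm H}
    {f : H → Option W} (hα : ∀ h, α (α h) = h)
    (j : K → H) (hj : Injective j) {h1 h2 : H} (h12 : h1 ≠ h2)
    (hr : ∀ h, (∃ k, j k = h) ↔ h ≠ h1 ∧ h ≠ h2) {k0 : K} (hK : αK (αK k0) = k0)
    (hk1 : j k0 = α h1) (hk2 : j (αK k0) = α h2)
    (hc : ∀ k, k ≠ k0 → k ≠ αK k0 → j (αK k) = α (j k))
    (hf : ∀ k, f (j k) = some (fK k)) (hf1 : f h1 = none) (hf2 : f h2 = none)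
    (h : EmbH g αK fK) : EmbH g α f := by
  classical
  obtain ⟨e, he1, he2, he3⟩ := exists_sum_equiv j hj h12 hr
  obtain ⟨M, hM, ι, κ, hι, hκ, e1, e2⟩ := h
  have hk0 : αK k0 ≠ k0 := by
    intro h
    rw [h, hk1] at hk2
    exact h12 (α.injective hk2)
  set d := κ k0 with hd
  set M1 := M.pendant d with hM1
  -- the corner after `inr true` and the corner before `α d` are in the same face of `M1`
  have hface : (M1.σ * M1.α).SameCycle (M1.α (Sum.inr true))
      (M1.α (Sum.inl (M.σ.symm (M.α d)))) :=
    (M.same_face_pendant (d := d) (d' := M.σ.symm (M.α d)) (M.same_face_parallel d)).symm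
  set M2 := M1.addEdge (Sum.inr true) (Sum.inl (M.σ.symm (M.α d))) with hM2
  have hg2 : M2.GenusLE g := M1.addEdge_genusLE (M.pendant_genusLE hM d) hface
  let up : M.Vertex → M2.Vertex := fun x =>
    M1.up2 (Sum.inr true) (Sum.inl (M.σ.symm (M.α d))) (M.up1 d x)
  have hup : Injective up := (M1.up2_injective _ _).comp (M.up1_injective d)
  let z : M2.Vertex :=
    M1.up2 (Sum.inr true) (Sum.inl (M.σ.symm (M.α d))) (M1.vert (Sum.inr true))
  have hz : ∀ x, up x ≠ z := by
    intro x hx
    exact M.up1_ne d x (M1.up2_injective _ _ hx)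
  let κ' : K ⊕ Bool → (M.D ⊕ Bool) ⊕ Bool := Sum.elim
    (fun k => if k = k0 then Sum.inl (Sum.inr false) else if k = αK k0 then Sum.inr true else
      Sum.inl (Sum.inl (κ k)))
    (fun b => if b then Sum.inr false else Sum.inl (Sum.inr true))
  have hκ' : Injective κ' := by
    rintro (a | a) (b | b) hab
    · simp only [κ', Sum.elim_inl] at hab
      split_ifs at hab with h1 h2 h3 h4 h5 h6 <;> simp_all [hκ.eq_iff]
    · exfalso
      simp only [κ', Sum.elim_inl, Sum.elim_inr] at hab
      cases b <;> split_ifs at hab <;> simp_all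
    · exfalso
      simp only [κ', Sum.elim_inl, Sum.elim_inr] at hab
      cases a <;> split_ifs at hab <;> simp_all
    · simp only [κ', Sum.elim_inr] at hab
      cases a <;> cases b <;> simp_all
  have hα2 : ∀ x : (M.D ⊕ Bool) ⊕ Bool, M2.α x = M1.α0 x := fun x => rfl
  refine ⟨M2, hg2, fun o => o.elim z (fun w => up (ι w)), fun h => κ' (e.symm h), ?_,
    hκ'.comp e.symm.injective, ?_, ?_⟩
  · intro a b hab
    cases a <;> cases b
    · rfl
    · exact absurd hab.symm (hz _)
    · exact absurd hab (hz _)
    · exact congrArg some (hι (hup hab))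
  · intro x
    obtain ⟨y, rfl⟩ := e.surjective x
    beta_reduce
    rw [Equiv.symm_apply_apply]
    rcases y with k | b
    · rw [he1]
      by_cases hk : k = k0
      · have : e.symm (α (j k)) = Sum.inr false := by
          rw [Equiv.symm_apply_eq, he2, hk, hk1, hα]
        rw [this]
        show κ' (Sum.inr false) = M1.α0 (κ' (Sum.inl k))
        simp only [κ', Sum.elim_inl, Sum.elim_inr, if_pos hk]
        rfl
      · by_cases hk' : k = αK k0
        · have : e.symm (α (j k)) = Sum.inr true := by
            rw [Equiv.symm_apply_eq, he3, hk', hk2, hα]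
          rw [this]
          show κ' (Sum.inr true) = M1.α0 (κ' (Sum.inl k))
          simp only [κ', Sum.elim_inl, Sum.elim_inr, if_neg hk, if_pos hk']
          rfl
        · have : e.symm (α (j k)) = Sum.inl (αK k) := by
            rw [Equiv.symm_apply_eq, he1, hc k hk hk']
          rw [this]
          show κ' (Sum.inl (αK k)) = M1.α0 (κ' (Sum.inl k))
          have h3 : αK k ≠ k0 := by
            intro h
            refine hk' (αK.injective ?_)
            rw [h, hK]
          have h4 : αK k ≠ αK k0 := fun h => hk (αK.injective h)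
          simp only [κ', Sum.elim_inl, if_neg hk, if_neg hk', if_neg h3, if_neg h4]
          rw [e1]
          rfl
    · cases b
      · have : e.symm (α (e (Sum.inr false))) = Sum.inl k0 := by
          rw [Equiv.symm_apply_eq, he1, he2, hk1]
        rw [this]
        show κ' (Sum.inl k0) = M1.α0 (κ' (Sum.inr false))
        simp only [κ', Sum.elim_inl, Sum.elim_inr, if_true]
        rfl
      · have : e.symm (α (e (Sum.inr true))) = Sum.inl (αK k0) := by
          rw [Equiv.symm_apply_eq, he1, he3, hk2]
        rw [this]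
        show κ' (Sum.inl (αK k0)) = M1.α0 (κ' (Sum.inr true))
        simp only [κ', Sum.elim_inl, Sum.elim_inr, if_neg hk0, if_true]
        rfl
  · intro x
    obtain ⟨y, rfl⟩ := e.surjective x
    beta_reduce
    rw [Equiv.symm_apply_apply]
    rcases y with k | b
    · rw [he1, hf]
      show M2.vert (κ' (Sum.inl k)) = up (ι (fK k))
      by_cases hk : k = k0
      · simp only [κ', Sum.elim_inl, if_pos hk]
        rw [hk, ← e2]
        show M2.vert (Sum.inl (Sum.inr false)) =
          M1.up2 (Sum.inr true) (Sum.inl (M.σ.symm (M.α d))) (M.up1 d (M.vert d))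
        rw [← M.vert_false1]
        rfl
      · by_cases hk' : k = αK k0
        · simp only [κ', Sum.elim_inl, if_neg hk, if_pos hk']
          rw [hk', ← e2, e1]
          show M2.vert (Sum.inr true) =
            M1.up2 (Sum.inr true) (Sum.inl (M.σ.symm (M.α d))) (M.up1 d (M.vert (M.α d)))
          rw [← M.vert_symm (M.α d)]
          exact M1.vert_true2 _ _
        · simp only [κ', Sum.elim_inl, if_neg hk, if_neg hk']
          rw [← e2]
          rfl
    · cases b
      · rw [he2, hf1]
        rfl
      · rw [he3, hf2]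
        exact M1.vert_false2 _ _

/-- adding a loop or an edge parallel to an old edge -/
theorem embedsOn_option {V E : Type} {ends : E → Sym2 V} (h : EmbedsOn g ends) {p : Sym2 V}
    (hp : p.IsDiag ∨ ∃ e, ends e = p) :
    EmbedsOn g (fun o : Option E => o.elim p ends) := by
  obtain ⟨M, hM, ι, κ, hι, hκ, hκ', he⟩ := h
  have key : ∃ d d' : M.D, (M.σ * M.α).SameCycle (M.α d) (M.α d') ∧
      s(M.vert d, M.vert d') = Sym2.map ι p := by
    rcases hp with hp | ⟨e, rfl⟩
    · induction p using Sym2.ind with | _ u w => ?_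
      have huw : u = w := by simpa using hp
      subst huw
      obtain ⟨d, hd⟩ := M.exists_vert (ι u)
      exact ⟨d, d, SameCycle.refl _ _, by rw [hd]; rfl⟩
    · refine ⟨κ e, M.σ.symm (M.α (κ e)), M.same_face_parallel _, ?_⟩
      rw [M.vert_symm]
      exact he e
  obtain ⟨d, d', hf, hd⟩ := key
  refine ⟨M.addEdge d d', M.addEdge_genusLE hM hf, fun w => M.up2 d d' (ι w),
    fun o => o.elim (Sum.inr false) (fun e => Sum.inl (κ e)), (M.up2_injective _ _).comp hι,
    ?_, ?_, ?_⟩
  · intro a b hab
    cases a with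
    | none => cases b with
      | none => rfl
      | some b => exact absurd hab Sum.inr_ne_inl
    | some a => cases b with
      | none => exact absurd hab Sum.inl_ne_inr
      | some b => exact congrArg some (hκ _ _ (Sum.inl_injective hab))
  · intro a b hab
    cases a with
    | none => cases b with
      | none =>
        have : false = true := Sum.inr_injective hab
        exact absurd this (by decide)
      | some b => exact absurd hab Sum.inr_ne_inl
    | some a => cases b with
      | none => exact absurd hab Sum.inl_ne_inr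
      | some b => exact hκ' _ _ (Sum.inl_injective hab)
  · intro o
    cases o with
    | none =>
      show s((M.addEdge d d').vert (Sum.inr false), (M.addEdge d d').vert (Sum.inr true)) =
        Sym2.map (fun w => M.up2 d d' (ι w)) p
      rw [M.vert_false2, M.vert_true2]
      have : Sym2.map (fun w => M.up2 d d' (ι w)) p = Sym2.map (M.up2 d d') (Sym2.map ι p) := by
        rw [Sym2.map_map]; rfl
      rw [this, ← hd]
      rfl
    | some e =>
      show s((M.addEdge d d').vert (Sum.inl (κ e)),
        (M.addEdge d d').vert (Sum.inl (M.α (κ e)))) =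
        Sym2.map (fun w => M.up2 d d' (ι w)) (ends e)
      have : Sym2.map (fun w => M.up2 d d' (ι w)) (ends e) =
          Sym2.map (M.up2 d d') (Sym2.map ι (ends e)) := by
        rw [Sym2.map_map]; rfl
      rw [this, ← he e]
      rfl

theorem EmbedsOn.comp {V E E' : Type} {ends : E → Sym2 V} (h : EmbedsOn g ends) (j : E' → E)
    (hj : Injective j) : EmbedsOn g (ends ∘ j) := by
  obtain ⟨M, hM, ι, κ, hι, hκ, hκ', he⟩ := h
  exact ⟨M, hM, ι, κ ∘ j, hι, fun a b hab => hj (hκ _ _ hab), fun a b => hκ' _ _,
    fun e => he (j e)⟩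

/-- embeddability depends on the underlying simple graph only -/
theorem EmbedsOn.of_subset {V E : Type} {ends : E → Sym2 V} (h : EmbedsOn g ends) :
    ∀ {E' : Type} [Finite E'] (ends' : E' → Sym2 V),
      (∀ e', (ends' e').IsDiag ∨ ∃ e, ends e = ends' e') → EmbedsOn g ends' := by
  have key : ∀ (E' : Type) [Finite E'] (ends' : E' → Sym2 V),
      (∀ e', (ends' e').IsDiag ∨ ∃ e, ends e = ends' e') →
      EmbedsOn g (Sum.elim ends ends') := by
    intro E' _
    refine Finite.induction_empty_option (P := fun E' => ∀ ends' : E' → Sym2 V,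
      (∀ e', (ends' e').IsDiag ∨ ∃ e, ends e = ends' e') →
      EmbedsOn g (Sum.elim ends ends')) ?_ ?_ ?_ E'
    · intro A B e ih ends' h'
      have := (ih (ends' ∘ e) (fun a => h' (e a))).comp
        (Sum.map id e.symm) (Sum.map_injective.2 ⟨injective_id, e.symm.injective⟩)
      convert this using 1
      funext x
      rcases x with x | x
      · rfl
      · simp
    · intro ends' _
      have := h.comp (E' := E ⊕ PEmpty) (Sum.elim id (fun x => x.elim)) (by
        rintro (a | a) (b | b) hab
        · exact congrArg _ hab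
        · exact b.elim
        · exact a.elim
        · exact b.elim)
      convert this using 1
      funext x
      rcases x with x | x
      · rfl
      · exact x.elim
    · intro A _ ih ends' h'
      have h1 := ih (fun a => ends' (some a)) (fun a => h' (some a))
      have h2 := embedsOn_option h1 (p := ends' none) (by
        rcases h' none with h3 | ⟨e, h3⟩
        · exact Or.inl h3
        · exact Or.inr ⟨Sum.inl e, h3⟩)
      have h3 := h2.comp (E' := E ⊕ Option A)
        (Sum.elim (fun x => some (Sum.inl x)) (fun o => o.elim none (fun a => some (Sum.inr a))))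
        (by
          rintro (a | a) (b | b) hab
          · simpa using hab
          · cases b <;> simp at hab
          · cases a <;> simp at hab
          · cases a <;> cases b <;> simp at hab ⊢
            exact hab)
      convert h3 using 1
      funext x
      rcases x with x | x
      · rfl
      · cases x <;> rfl
  intro E' _ ends' h'
  exact (key E' ends' h').comp Sum.inr Sum.inr_injective

/-- reversal of the half-edges of `E × Bool` -/
def flipE (E : Type) : Perm (E × Bool) := Equiv.prodCongr (Equiv.refl E) bnot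

@[simp] theorem flipE_apply {E : Type} (e : E) (b : Bool) : flipE E (e, b) = (e, !b) := rfl

theorem embH_flip_iff {V E : Type} (f : E × Bool → V) :
    EmbH g (flipE E) f ↔ EmbedsOn g (fun e => s(f (e, false), f (e, true))) := by
  classical
  constructor
  · rintro ⟨M, hM, ι, κ, hι, hκ, h1, h2⟩
    refine ⟨M, hM, ι, fun e => κ (e, false), hι, ?_, ?_, ?_⟩
    · intro e e' h
      simpa using hκ h
    · intro e e' h
      rw [← h1] at h
      simpa using hκ h
    · intro e
      rw [← h1, h2, h2]
      rfl
  · rintro ⟨M, hM, ι, κ, hι, hκ, hκ', he⟩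
    have hc : ∀ e, ∃ d : M.D, (d = κ e ∨ d = M.α (κ e)) ∧ M.vert d = ι (f (e, false)) ∧
        M.vert (M.α d) = ι (f (e, true)) := by
      intro e
      have h := he e
      rw [Sym2.map_mk, Sym2.eq_iff] at h
      rcases h with ⟨h1, h2⟩ | ⟨h1, h2⟩
      · exact ⟨κ e, Or.inl rfl, h1, h2⟩
      · exact ⟨M.α (κ e), Or.inr rfl, h2, by rw [M.α_α]; exact h1⟩
    choose c hc1 hc2 hc3 using hc
    have hcinj : ∀ e e', (c e = c e' ∨ c e = M.α (c e')) → e = e' := by
      intro e e' h
      rcases hc1 e with h1 | h1 <;> rcases hc1 e' with h2 | h2 <;> rw [h1, h2] at h <;>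
        try simp only [M.α_α, EmbeddingLike.apply_eq_iff_eq] at h
      · exact h.elim (hκ _ _) (fun h => absurd h (hκ' _ _))
      · exact h.elim (fun h => absurd h (hκ' _ _)) (hκ _ _)
      · rcases h with h | h
        · exact absurd h.symm (hκ' _ _)
        · exact hκ _ _ h
      · rcases h with h | h
        · exact hκ _ _ h
        · exact absurd h.symm (hκ' _ _)
    refine ⟨M, hM, ι, fun x => if x.2 then M.α (c x.1) else c x.1, hι, ?_, ?_, ?_⟩
    · rintro ⟨e, b⟩ ⟨e', b'⟩ h
      cases b <;> cases b' <;> simp at h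
      · rw [hcinj _ _ (Or.inl h)]
      · exfalso
        have := hcinj _ _ (Or.inr h)
        subst this
        exact M.α_ne _ h.symm
      · exfalso
        have := hcinj _ _ (Or.inr h.symm)
        subst this
        exact M.α_ne _ h
      · rw [hcinj _ _ (Or.inl h)]
    · rintro ⟨e, b⟩
      cases b
      · simp
      · simp [M.α_α]
    · rintro ⟨e, b⟩
      cases b
      · simpa using hc2 e
      · simpa using hc3 e

/-- for half-edges `E × Bool`, embeddability depends on the simple graph only -/
theorem embH_flip_iff_of {V E E' : Type} [Finite E] [Finite E'] (f : E × Bool → V)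
    (ends : E' → Sym2 V)
    (h : ∀ p : Sym2 V, ¬ p.IsDiag →
      ((∃ e, s(f (e, false), f (e, true)) = p) ↔ ∃ e', ends e' = p)) :
    EmbH g (flipE E) f ↔ EmbedsOn g ends := by
  rw [embH_flip_iff]
  constructor
  · intro h1
    refine h1.of_subset ends fun e' => ?_
    by_cases hd : (ends e').IsDiag
    · exact Or.inl hd
    · exact Or.inr ((h _ hd).2 ⟨e', rfl⟩)
  · intro h1
    refine h1.of_subset _ fun e' => ?_
    by_cases hd : (s(f (e', false), f (e', true))).IsDiag
    · exact Or.inl hd
    · exact Or.inr ((h _ hd).1 ⟨e', rfl⟩)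

end KernelCount
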