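import Mathlib
import Pool.Agent.Lib.MP_b69e89_co.EmbH

/-!
# MP_b69e89_co : counting with degree constraints, removal of one vertex
-/

namespace KernelCount

open Equiv Equiv.Perm Function

variable {g : ℕ}

/-- the degree of `v` -/
noncomputable def Deg {V H : Type} (f : H → V) (v : V) : ℕ := Nat.card {h // f h = v}

/-- the number of embeddable multigraphs with half-edges `(H, α)` and degree constraints `c` -/
noncomputable def X (g : ℕ) {V H : Type} (α : Perm H) (c : V → Set ℕ) : ℕ :=
  Nat.card {f : H → V // EmbH g α f ∧ ∀ v, Deg f v ∈ c v}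

theorem X_iso {V V' H H' : Type} {α : Perm H} {α' : Perm H'} {c : V → Set ℕ} {c' : V' → Set ℕ}
    (v : V ≃ V') (u : H ≃ H') (hα : ∀ h, u (α h) = α' (u h)) (hc : ∀ x, c' (v x) = c x) :
    X g α c = X g α' c' := by
  unfold X
  refine Nat.card_congr ((Equiv.arrowCongr u v).subtypeEquiv ?_)
  intro f
  have h1 : EmbH g α f ↔ EmbH g α' (Equiv.arrowCongr u v f) := by
    constructor
    · intro h
      refine h.mono v.symm v.symm.injective u.symm u.symm.injective ?_ ?_
      · intro h
        rw [Equiv.symm_apply_eq, hα, Equiv.apply_symm_apply]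
      · intro h
        simp [Equiv.arrowCongr]
    · intro h
      refine h.mono v v.injective u u.injective hα ?_
      intro h
      simp [Equiv.arrowCongr]
  have h2 : ∀ x, Deg (Equiv.arrowCongr u v f) (v x) = Deg f x := by
    intro x
    unfold Deg
    refine Nat.card_congr (u.symm.subtypeEquiv ?_)
    intro h
    simp [Equiv.arrowCongr]
  rw [h1]
  refine and_congr_right fun _ => ?_
  constructor
  · intro h y
    obtain ⟨x, rfl⟩ := v.surjective y
    rw [h2, hc]
    exact h x
  · intro h x
    rw [← hc, ← h2]
    exact h (v x)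

/-- every fixed point free involution is isomorphic to the standard one -/
theorem exists_flip_equiv {H : Type} [Finite H] (α : Perm H) (hα : ∀ h, α (α h) = h)
    (hne : ∀ h, α h ≠ h) {m : ℕ} (hm : Nat.card H = 2 * m) :
    ∃ e : H ≃ Fin m × Bool, ∀ h, e (α h) = flipE (Fin m) (e h) := by
  classical
  let s : Setoid H :=
    { r := fun a b => a = b ∨ a = α b
      iseqv := by
        refine ⟨fun a => Or.inl rfl, ?_, ?_⟩
        · rintro a b (h | h)
          · exact Or.inl h.symm
          · right; rw [h, hα]
        · rintro a b c (h | h) (h' | h')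
          · left; rw [h, h']
          · right; rw [h, h']
          · right; rw [h, h']
          · left; rw [h, h', hα] }
  have : Finite (Quotient s) := Quotient.finite _
  let φ : Quotient s × Bool → H := fun x => if x.2 then α x.1.out else x.1.out
  have hφ : Bijective φ := by
    constructor
    · rintro ⟨q, b⟩ ⟨q', b'⟩ h
      have hq : q = q' := by
        rw [← q.out_eq, ← q'.out_eq]
        refine Quotient.sound ?_
        show q.out = q'.out ∨ q.out = α q'.out
        cases b <;> cases b' <;> simp only [φ, if_true, if_false, Bool.false_eq_true] at h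
        · exact Or.inl h
        · exact Or.inr h
        · right; rw [← h, hα]
        · left; exact α.injective h
      subst hq
      cases b <;> cases b' <;> simp only [φ, if_true, if_false, Bool.false_eq_true] at h
      · rfl
      · exact absurd h.symm (hne _)
      · exact absurd h (hne _)
      · rfl
    · intro h
      have : (Quotient.mk s h).out = h ∨ (Quotient.mk s h).out = α h := Quotient.mk_out (s := s) h
      rcases this with h' | h'
      · exact ⟨(Quotient.mk s h, false), by simpa [φ] using h'⟩
      · exact ⟨(Quotient.mk s h, true), by simp [φ, h', hα]⟩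
  let e0 : Quotient s × Bool ≃ H := Equiv.ofBijective φ hφ
  have hcard : Nat.card (Quotient s) = m := by
    have h1 := Nat.card_congr e0
    rw [Nat.card_prod, hm] at h1
    have h2 : Nat.card Bool = 2 := by simp
    rw [h2] at h1
    omega
  have e1 : Quotient s ≃ Fin m := Finite.equivFinOfCardEq hcard
  refine ⟨e0.symm.trans (Equiv.prodCongr e1 (Equiv.refl _)), ?_⟩
  intro h
  obtain ⟨⟨q, b⟩, rfl⟩ := e0.surjective h
  have h1 : α (e0 (q, b)) = e0 (q, !b) := by
    show α (φ (q, b)) = φ (q, !b)
    cases b <;> simp [φ, hα]
  rw [h1]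
  simp

/-- the count on the standard half-edges -/
noncomputable def Xs (g m : ℕ) {V : Type} (c : V → Set ℕ) : ℕ := X g (flipE (Fin m)) c

theorem X_eq_Xs {V H : Type} [Finite H] {α : Perm H} (c : V → Set ℕ) (hα : ∀ h, α (α h) = h)
    (hne : ∀ h, α h ≠ h) {m : ℕ} (hm : Nat.card H = 2 * m) : X g α c = Xs g m c := by
  obtain ⟨e, he⟩ := exists_flip_equiv α hα hne hm
  exact X_iso (Equiv.refl V) e he (fun _ => rfl)

theorem Xs_iso {V V' : Type} {c : V → Set ℕ} {c' : V' → Set ℕ} (m : ℕ)
    (v : V ≃ V') (hc : ∀ x, c' (v x) = c x) : Xs g m c = Xs g m c' :=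
  X_iso v (Equiv.refl _) (fun _ => rfl) hc

theorem flipE_flipE {E : Type} (h : E × Bool) : flipE E (flipE E h) = h := by
  obtain ⟨e, b⟩ := h
  simp

theorem flipE_ne {E : Type} (h : E × Bool) : flipE E h ≠ h := by
  obtain ⟨e, b⟩ := h
  simp

theorem Deg_some_comp {W H : Type} (f : H → W) (w : W) :
    Deg (fun h => some (f h)) (some w) = Deg f w := by
  unfold Deg
  simp

/-- a vertex of degree zero -/
theorem X_zero {W H : Type} [Finite H] {α : Perm H} {c : Option W → Set ℕ} (hc : c none = {0}) :
    X g α c = X g α (fun w => c (some w)) := by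
  unfold X
  symm
  refine Nat.card_congr (Equiv.ofBijective
    (fun f => ⟨fun h => some (f.1 h), embH_some_iff.2 f.2.1, ?_⟩) ⟨?_, ?_⟩)
  · intro v
    cases v with
    | none =>
      rw [hc]
      show Deg _ none = 0
      unfold Deg
      simp
    | some w =>
      rw [Deg_some_comp]
      exact f.2.2 w
  · rintro ⟨f, hf⟩ ⟨f', hf'⟩ h
    simp only [Subtype.mk.injEq] at h
    refine Subtype.ext (funext fun x => ?_)
    exact Option.some_injective _ (congrFun h x)
  · rintro ⟨f, hf, hf'⟩
    have h0 : ∀ h, f h ≠ none := by
      intro h hh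
      have := hf' none
      rw [hc] at this
      have h1 : Deg f none = 0 := this
      unfold Deg at h1
      rw [Finite.card_eq_zero_iff] at h1
      exact h1.false ⟨h, hh⟩
    have h1 : ∀ h, ∃ w, some w = f h := fun h => Option.ne_none_iff_exists.1 (h0 h)
    choose f0 hf0 using h1
    have h2 : f = fun h => some (f0 h) := funext fun h => (hf0 h).symm
    subst h2
    refine ⟨⟨f0, embH_some_iff.1 hf, fun w => ?_⟩, rfl⟩
    have := hf' (some w)
    rwa [Deg_some_comp] at this

end KernelCount
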