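import Mathlib
import Pool.Agent.Lib.MP_b69e89_co.Count

/-!
# MP_b69e89_co : removal of a vertex of degree one or two
-/

namespace KernelCount

open Equiv Equiv.Perm Function

variable {g : ℕ}

section Fib

variable {H W : Type}

open Classical in
/-- functions to `Option W` with given fibre of `none` -/
noncomputable def fibEquiv (W : Type) (p : H → Prop) :
    {f : H → Option W // ∀ h, f h = none ↔ p h} ≃ ({h // ¬ p h} → W) where
  toFun f := fun h => (f.1 h.1).get (Option.isSome_iff_ne_none.2 (fun h' => h.2 ((f.2 h.1).1 h')))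
  invFun φ := ⟨fun h => if hp : p h then none else some (φ ⟨h, hp⟩), by
    intro h
    by_cases hp : p h <;> simp [hp]⟩
  left_inv := by
    rintro ⟨f, hf⟩
    refine Subtype.ext (funext fun h => ?_)
    by_cases hp : p h
    · simp [hp, (hf h).2 hp]
    · simp [hp]
  right_inv := by
    intro φ
    funext h
    simp [h.2]

theorem fibEquiv_apply {p : H → Prop} (f : {f : H → Option W // ∀ h, f h = none ↔ p h})
    (h : {h // ¬ p h}) : some (fibEquiv W p f h) = f.1 h.1 := by
  simp [fibEquiv]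

theorem Deg_fib {p : H → Prop} (f : {f : H → Option W // ∀ h, f h = none ↔ p h}) (w : W) :
    Deg (fibEquiv W p f) w = Deg f.1 (some w) := by
  unfold Deg
  refine Nat.card_congr ⟨fun x => ⟨x.1.1, ?_⟩, fun x => ⟨⟨x.1, ?_⟩, ?_⟩, ?_, ?_⟩
  · rw [← fibEquiv_apply, x.2]
  · intro hp
    have := (f.2 x.1).2 hp
    rw [x.2] at this
    simp at this
  · have := fibEquiv_apply f ⟨x.1, by
      intro hp
      have := (f.2 x.1).2 hp
      rw [x.2] at this
      simp at this⟩
    have h2 := x.2
    rw [← this] at h2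
    exact Option.some_injective _ h2
  · intro x; rfl
  · intro x; rfl

end Fib

/-- the involution on the half-edges in which `h1, h2` are paired (suppression) -/
noncomputable def supp {H : Type} [DecidableEq H] (α : Perm H) (h1 h2 : H) : Perm H :=
  swap (α h1) h2 * α * swap (α h1) h2

section supp

variable {H : Type} [DecidableEq H] {α : Perm H}

theorem supp_supp (hα : ∀ h, α (α h) = h) (h1 h2 x : H) :
    supp α h1 h2 (supp α h1 h2 x) = x := by
  simp [supp, hα]

theorem supp_ne (hne : ∀ h, α h ≠ h) (h1 h2 x : H) : supp α h1 h2 x ≠ x := by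
  intro h
  simp only [supp, Perm.mul_apply] at h
  have := congrArg (swap (α h1) h2) h
  rw [swap_apply_self] at this
  exact hne _ this

theorem supp_left (hne : ∀ h, α h ≠ h) {h1 h2 : H} (h12 : h1 ≠ h2) :
    supp α h1 h2 h1 = h2 := by
  simp only [supp, Perm.mul_apply]
  rw [swap_apply_of_ne_of_ne (hne h1).symm h12, swap_apply_left]

theorem supp_right (hα : ∀ h, α (α h) = h) (hne : ∀ h, α h ≠ h) {h1 h2 : H} (h12 : h1 ≠ h2) :
    supp α h1 h2 h2 = h1 := by
  have := supp_supp hα h1 h2 h1
  rwa [supp_left hne h12] at this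

theorem supp_loop {h1 h2 : H} (h : α h1 = h2) : supp α h1 h2 = α := by
  unfold supp
  rw [h, swap_self]
  exact (one_mul _).trans (mul_one _) |>.trans rfl

theorem supp_α1 (hne : ∀ h, α h ≠ h) {h1 h2 : H} (h12 : h1 ≠ h2) :
    supp α h1 h2 (α h1) = α h2 := by
  simp only [supp, Perm.mul_apply]
  rw [swap_apply_left, swap_apply_of_ne_of_ne (fun h => h12 (α.injective h).symm) (hne h2)]

theorem supp_other (hα : ∀ h, α (α h) = h) {h1 h2 x : H} (hx1 : x ≠ h1) (hx2 : x ≠ h2)
    (hx3 : x ≠ α h1) (hx4 : x ≠ α h2) : supp α h1 h2 x = α x := by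
  simp only [supp, Perm.mul_apply]
  rw [swap_apply_of_ne_of_ne hx3 hx2, swap_apply_of_ne_of_ne]
  · exact fun h => hx1 (α.injective h)
  · intro h
    apply hx4
    rw [← h, hα]

end supp

/-- restriction of a permutation to the complement of an invariant pair -/
theorem restr_iff {H : Type} {β : Perm H} (hβ : ∀ h, β (β h) = h) {h1 h2 : H} (h : β h1 = h2)
    (x : H) : ¬ (β x = h1 ∨ β x = h2) ↔ ¬ (x = h1 ∨ x = h2) := by
  have e1 : β x = h1 ↔ x = h2 := by
    constructor
    · intro h'; rw [← h, ← h', hβ]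
    · intro h'; rw [h', ← h, hβ]
  have e2 : β x = h2 ↔ x = h1 := by
    constructor
    · intro h'; rw [← h] at h'; exact β.injective h'
    · intro h'; rw [h', h]
  rw [e1, e2]
  tauto

/-- the effect of suppressing a vertex of degree two -/
theorem embH_fib_two {H W : Type} [Finite H] [DecidableEq H] {α : Perm H}
    (hα : ∀ h, α (α h) = h) (hne : ∀ h, α h ≠ h) {h1 h2 : H} (h12 : h1 ≠ h2)
    (αK : Perm {h // ¬ (h = h1 ∨ h = h2)}) (hαK : ∀ k, (αK k : H) = supp α h1 h2 k)
    (f : {f : H → Option W // ∀ h, f h = none ↔ (h = h1 ∨ h = h2)}) :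
    EmbH g αK (fibEquiv W _ f) ↔ EmbH g α f.1 := by
  have hr : ∀ h : H, (∃ k : {h // ¬ (h = h1 ∨ h = h2)}, (k : H) = h) ↔ h ≠ h1 ∧ h ≠ h2 := by
    intro h
    simp [not_or]
  have hf1 : f.1 h1 = none := (f.2 h1).2 (Or.inl rfl)
  have hf2 : f.1 h2 = none := (f.2 h2).2 (Or.inr rfl)
  have hf : ∀ k : {h // ¬ (h = h1 ∨ h = h2)}, f.1 (k : H) = some (fibEquiv W _ f k) :=
    fun k => (fibEquiv_apply f k).symm
  by_cases hl : α h1 = h2
  · have hc : ∀ k : {h // ¬ (h = h1 ∨ h = h2)}, ((αK k : _) : H) = α (k : H) := by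
      intro k
      rw [hαK, supp_loop hl]
    exact embH_loop_iff hα hne (fun k => (k : H)) Subtype.val_injective (h1 := h1)
      (by rw [hl]; exact hr) hc hf hf1 (by rw [hl]; exact hf2)
  · have hk1 : ¬ (α h1 = h1 ∨ α h1 = h2) := by
      rintro (h | h)
      · exact hne _ h
      · exact hl h
    have hl' : α h2 ≠ h1 := by
      intro h
      apply hl
      rw [← h, hα]
    have hk2 : ¬ (α h2 = h1 ∨ α h2 = h2) := by
      rintro (h | h)
      · exact hl' h
      · exact hne _ h
    let k0 : {h // ¬ (h = h1 ∨ h = h2)} := ⟨α h1, hk1⟩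
    have hk2' : ((αK k0 : _) : H) = α h2 := by
      rw [hαK]
      exact supp_α1 hne h12
    have hK : αK (αK k0) = k0 := by
      apply Subtype.ext
      rw [hαK, hαK, supp_supp hα]
    have hc : ∀ k : {h // ¬ (h = h1 ∨ h = h2)}, k ≠ k0 → k ≠ αK k0 →
        ((αK k : _) : H) = α (k : H) := by
      intro k h3 h4
      rw [hαK]
      refine supp_other hα (fun h => k.2 (Or.inl h)) (fun h => k.2 (Or.inr h)) ?_ ?_
      · exact fun h => h3 (Subtype.ext h)
      · intro h
        exact h4 (Subtype.ext (h.trans hk2'.symm))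
    exact ⟨embH_subdiv hα (fun k => (k : H)) Subtype.val_injective h12 hr hK rfl hk2' hc hf
      hf1 hf2, embH_of_subdiv hα (fun k => (k : H)) Subtype.val_injective h12 hr hK rfl hk2' hc hf
      hf1 hf2⟩

theorem card_compl_pair {H : Type} [Finite H] {h1 h2 : H} (h12 : h1 ≠ h2) :
    Nat.card {h // ¬ (h = h1 ∨ h = h2)} + 2 = Nat.card H := by
  classical
  have := Fintype.ofFinite H
  rw [Nat.card_eq_fintype_card, Nat.card_eq_fintype_card, Fintype.card_subtype_compl]
  have h1' : Fintype.card {h // h = h1 ∨ h = h2} = 2 := by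
    rw [Fintype.card_subtype]
    have : (Finset.univ.filter fun h => h = h1 ∨ h = h2) = {h1, h2} := by
      ext x; simp
    rw [this, Finset.card_pair h12]
  have h2' : Fintype.card {h // h = h1 ∨ h = h2} ≤ Fintype.card H := Fintype.card_subtype_le _
  omega

/-- the number of embeddable multigraphs in which `none` has exactly the half-edges `h1, h2` -/
theorem card_fib_two {H W : Type} [Finite H] {α : Perm H} (c : Option W → Set ℕ)
    (hα : ∀ h, α (α h) = h) (hne : ∀ h, α h ≠ h) {h1 h2 : H} (h12 : h1 ≠ h2) {m : ℕ}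
    (hm : Nat.card H = 2 * (m + 1)) :
    Nat.card {f : H → Option W // EmbH g α f ∧ (∀ h, f h = none ↔ (h = h1 ∨ h = h2)) ∧
      ∀ w, Deg f (some w) ∈ c (some w)} = Xs g m (fun w => c (some w)) := by
  classical
  have hβ := supp_supp hα h1 h2
  let αK : Perm {h // ¬ (h = h1 ∨ h = h2)} :=
    (supp α h1 h2).subtypePerm (restr_iff hβ (supp_left hne h12))
  have hαK : ∀ k, (αK k : H) = supp α h1 h2 k := fun k => rfl
  have hcard := card_compl_pair h12
  rw [← X_eq_Xs (α := αK) (fun w => c (some w)) (fun k => Subtype.ext (by rw [hαK, hαK, hβ]))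
    (fun k hk => supp_ne hne h1 h2 k (by rw [← hαK, hk])) (m := m) (by omega)]
  unfold X
  have e1 : {f : H → Option W // EmbH g α f ∧ (∀ h, f h = none ↔ (h = h1 ∨ h = h2)) ∧
      ∀ w, Deg f (some w) ∈ c (some w)} ≃
      {f : {f : H → Option W // ∀ h, f h = none ↔ (h = h1 ∨ h = h2)} //
        EmbH g α f.1 ∧ ∀ w, Deg f.1 (some w) ∈ c (some w)} :=
    ⟨fun f => ⟨⟨f.1, f.2.2.1⟩, f.2.1, f.2.2.2⟩, fun f => ⟨f.1.1, f.2.1, f.1.2, f.2.2⟩,
      fun f => rfl, fun f => rfl⟩
  refine Nat.card_congr (e1.trans ((fibEquiv W _).subtypeEquiv ?_))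
  intro f
  rw [embH_fib_two hα hne h12 αK hαK]
  simp only [Deg_fib]

theorem Deg_eq_card_filter {V H : Type} [Fintype H] [DecidableEq V] (f : H → V) (v : V) :
    Deg f v = (Finset.univ.filter fun h => f h = v).card := by
  unfold Deg
  rw [Nat.card_eq_fintype_card, Fintype.card_subtype]

/-- a vertex of degree two -/
theorem Xs_two {W : Type} [Finite W] {c : Option W → Set ℕ} (hc : c none = {2}) (m : ℕ) :
    Xs g (m + 1) c = (2 * (m + 1)).choose 2 * Xs g m (fun w => c (some w)) := by
  classical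
  have := Fintype.ofFinite W
  set H := Fin (m + 1) × Bool with hH
  have hm : Nat.card H = 2 * (m + 1) := by
    rw [hH, Nat.card_prod]
    simp
    ring
  let A : {S : Finset H // S.card = 2} → Type := fun S =>
    {f : H → Option W // EmbH g (flipE (Fin (m + 1))) f ∧ (∀ h, f h = none ↔ h ∈ S.1) ∧
      ∀ w, Deg f (some w) ∈ c (some w)}
  have hA : ∀ S, Nat.card (A S) = Xs g m (fun w => c (some w)) := by
    rintro ⟨S, hS⟩
    obtain ⟨h1, h2, h12, rfl⟩ := Finset.card_eq_two.1 hS
    rw [← card_fib_two (α := flipE (Fin (m + 1))) c flipE_flipE flipE_ne h12 hm]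
    refine Nat.card_congr (Equiv.subtypeEquivRight fun f => ?_)
    simp only [Finset.mem_insert, Finset.mem_singleton]
    exact Iff.rfl
  have hX : Xs g (m + 1) c = Nat.card (Σ S, A S) := by
    unfold Xs X
    refine (Nat.card_congr (Equiv.ofBijective
      (fun x : (Σ S, A S) => (⟨x.2.1, x.2.2.1, ?_⟩ :
        {f : H → Option W // EmbH g (flipE (Fin (m + 1))) f ∧ ∀ v, Deg f v ∈ c v}))
      ⟨?_, ?_⟩)).symm
    · intro v
      cases v with
      | none =>
        rw [hc, Deg_eq_card_filter]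
        have h1 : (Finset.univ.filter fun h => x.2.1 h = none) = x.1.1 := by
          ext h
          simp [x.2.2.2.1 h]
        show (Finset.univ.filter fun h => x.2.1 h = none).card = 2
        rw [h1]
        exact x.1.2
      | some w => exact x.2.2.2.2 w
    · rintro ⟨⟨S, hS⟩, f, hf, hf', hf''⟩ ⟨⟨S', hS'⟩, f', hg, hg', hg''⟩ h
      simp only [Subtype.mk.injEq] at h
      subst h
      have : S = S' := by
        ext x
        rw [← hf', ← hg']
      subst this
      rfl
    · rintro ⟨f, hf, hf'⟩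
      have h1 := hf' none
      rw [hc, Deg_eq_card_filter] at h1
      exact ⟨⟨⟨_, h1⟩, f, hf, fun h => by simp, fun w => hf' (some w)⟩, rfl⟩
  rw [hX, Nat.card_sigma]
  simp only [hA]
  rw [Finset.sum_const, smul_eq_mul, Finset.card_univ, Fintype.card_finset_len,
    ← Nat.card_eq_fintype_card, hm]

theorem Xs_two_zero {W : Type} {c : Option W → Set ℕ} (hc : c none = {2}) :
    Xs g 0 c = 0 := by
  unfold Xs X
  rw [Nat.card_eq_zero]
  left
  refine ⟨fun f => ?_⟩
  have := f.2.2 none
  rw [hc] at this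
  have h : Deg f.1 none = 0 := by
    unfold Deg
    simp
  rw [h] at this
  simp at this

end KernelCount
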