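import Mathlib
import Pool.Agent.Lib.MP_b69e89_co.Count2

/-!
# MP_b69e89_co : removal of a vertex of degree one
-/

namespace KernelCount

open Equiv Equiv.Perm Function

variable {g : ℕ}

theorem Deg_eq_sum {V H : Type} [Fintype H] [DecidableEq V] (f : H → V) (v : V) :
    Deg f v = ∑ h, if f h = v then 1 else 0 := by
  rw [Deg_eq_card_filter, Finset.card_filter]

/-- degrees are transported by an equivalence of the half-edges -/
theorem Deg_comp_equiv {V H H' : Type} (e : H' ≃ H) (f : H → V) (v : V) :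
    Deg (f ∘ e) v = Deg f v := by
  unfold Deg
  exact Nat.card_congr (e.subtypeEquiv fun h => Iff.rfl)

theorem Deg_sum {V K L : Type} [Finite K] [Finite L] (f : K → V) (f' : L → V) (v : V) :
    Deg (Sum.elim f f') v = Deg f v + Deg f' v := by
  classical
  have := Fintype.ofFinite K
  have := Fintype.ofFinite L
  rw [Deg_eq_sum, Deg_eq_sum, Deg_eq_sum, Fintype.sum_sum_type]
  rfl

/-- the constraint after removal of a vertex joined to `u` -/
def shift {W : Type} [DecidableEq W] (c : W → Set ℕ) (u : W) : W → Set ℕ :=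
  fun w => {k | k + (if u = w then 1 else 0) ∈ c w}

/-- the number of embeddable multigraphs in which `none` has exactly the half-edge `h1` -/
theorem card_fib_one {H W : Type} [Finite H] [Fintype W] [DecidableEq W] {α : Perm H}
    (c : Option W → Set ℕ)
    (hα : ∀ h, α (α h) = h) (hne : ∀ h, α h ≠ h) (h1 : H) {m : ℕ}
    (hm : Nat.card H = 2 * (m + 1)) :
    Nat.card {f : H → Option W // EmbH g α f ∧ (∀ h, f h = none ↔ h = h1) ∧
      ∀ w, Deg f (some w) ∈ c (some w)} =
      ∑ u : W, Xs g m (shift (fun w => c (some w)) u) := by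
  classical
  let αK : Perm {h // ¬ (h = α h1 ∨ h = h1)} :=
    α.subtypePerm (restr_iff hα (hα h1))
  have hαK : ∀ k, (αK k : H) = α k := fun k => rfl
  have hcard := card_compl_pair (hne h1)
  have hr : ∀ h : H, (∃ k : {h // ¬ (h = α h1 ∨ h = h1)}, (k : H) = h) ↔ h ≠ α h1 ∧ h ≠ h1 := by
    intro h
    simp [not_or]
  obtain ⟨e, he1, he2, he3⟩ := exists_sum_equiv
    (fun k : {h // ¬ (h = α h1 ∨ h = h1)} => (k : H)) Subtype.val_injective (hne h1) hr
  have hXs : ∀ u : W, Xs g m (shift (fun w => c (some w)) u) =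
      X g αK (shift (fun w => c (some w)) u) := fun u =>
    (X_eq_Xs (α := αK) _ (fun k => Subtype.ext (by rw [hαK, hαK, hα]))
      (fun k hk => hne k (by rw [← hαK, hk])) (m := m) (by omega)).symm
  simp only [hXs]
  unfold X
  rw [← Nat.card_sigma]
  let F : W → ({h // ¬ (h = α h1 ∨ h = h1)} → W) → H → Option W := fun u φ =>
    (Sum.elim (fun k => some (φ k)) (fun b : Bool => if b then none else some u)) ∘ e.symm
  have hF1 : ∀ u φ (k : {h // ¬ (h = α h1 ∨ h = h1)}), F u φ (k : H) = some (φ k) := by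
    intro u φ k
    have : e.symm (k : H) = Sum.inl k := by rw [Equiv.symm_apply_eq, he1]
    simp [F, this]
  have hF2 : ∀ u φ, F u φ (α h1) = some u := by
    intro u φ
    have : e.symm (α h1) = Sum.inr false := by rw [Equiv.symm_apply_eq, he2]
    simp [F, this]
  have hF3 : ∀ u φ, F u φ h1 = none := by
    intro u φ
    have : e.symm h1 = Sum.inr true := by rw [Equiv.symm_apply_eq, he3]
    simp [F, this]
  have hF4 : ∀ u φ h, F u φ h = none ↔ h = h1 := by
    intro u φ h
    constructor
    · intro h'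
      by_contra hh
      by_cases hh' : h = α h1
      · rw [hh', hF2] at h'; simp at h'
      · have := hF1 u φ ⟨h, by tauto⟩
        rw [h'] at this
        simp at this
    · rintro rfl
      exact hF3 u φ
  have hF5 : ∀ u φ, EmbH g αK φ ↔ EmbH g α (F u φ) := by
    intro u φ
    exact embH_pendant_iff hα hne (fun k => (k : H)) Subtype.val_injective (h1 := h1)
      (fun h => (hr h).trans and_comm) hαK (hF1 u φ) (hF3 u φ) (hF2 u φ)
  have hF6 : ∀ u φ w, Deg (F u φ) (some w) = Deg φ w + (if u = w then 1 else 0) := by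
    intro u φ w
    show Deg ((Sum.elim (fun k => some (φ k)) (fun b : Bool => if b then none else some u)) ∘
      e.symm) (some w) = _
    rw [Deg_comp_equiv, Deg_sum, Deg_some_comp]
    congr 1
    rw [Deg_eq_sum, Fintype.sum_bool]
    simp
  refine (Nat.card_congr (Equiv.ofBijective
    (fun x : (Σ u : W, {φ : {h // ¬ (h = α h1 ∨ h = h1)} → W // EmbH g αK φ ∧
        ∀ v, Deg φ v ∈ shift (fun w => c (some w)) u v}) =>
      (⟨F x.1 x.2.1, (hF5 _ _).1 x.2.2.1, hF4 _ _, ?_⟩ :
        {f : H → Option W // EmbH g α f ∧ (∀ h, f h = none ↔ h = h1) ∧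
          ∀ w, Deg f (some w) ∈ c (some w)}))
    ⟨?_, ?_⟩)).symm
  · intro w
    rw [hF6]
    exact x.2.2.2 w
  · rintro ⟨u, φ, h⟩ ⟨u', φ', h'⟩ heq
    simp only [Subtype.mk.injEq] at heq
    have h2 := congrFun heq (α h1)
    rw [hF2, hF2] at h2
    have h3 : u = u' := Option.some_injective _ h2
    subst h3
    have h4 : φ = φ' := by
      funext k
      have h5 := congrFun heq (k : H)
      rw [hF1, hF1] at h5
      exact Option.some_injective _ h5
    subst h4
    rfl
  · rintro ⟨f, hf1, hf2, hf3⟩
    have h2 : ∀ h, h ≠ h1 → ∃ w, some w = f h := by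
      intro h hh
      exact Option.ne_none_iff_exists.1 (fun h' => hh ((hf2 h).1 h'))
    obtain ⟨u, hu⟩ := h2 (α h1) (hne h1)
    have h3 : ∀ k : {h // ¬ (h = α h1 ∨ h = h1)}, ∃ w, some w = f k := fun k =>
      h2 k (fun h => k.2 (Or.inr h))
    choose φ hφ using h3
    have h4 : F u φ = f := by
      funext h
      by_cases hh : h = h1
      · rw [hh, hF3, (hf2 h1).2 rfl]
      · by_cases hh' : h = α h1
        · rw [hh', hF2, hu]
        · have := hF1 u φ ⟨h, by tauto⟩
          rw [this, hφ]
    subst h4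
    refine ⟨⟨u, φ, (hF5 _ _).2 hf1, fun w => ?_⟩, rfl⟩
    have := hf3 w
    rw [hF6] at this
    exact this

/-- a vertex of degree one -/
theorem Xs_one {W : Type} [Fintype W] [DecidableEq W] {c : Option W → Set ℕ}
    (hc : c none = {1}) (m : ℕ) :
    Xs g (m + 1) c = 2 * (m + 1) * ∑ u : W, Xs g m (shift (fun w => c (some w)) u) := by
  classical
  set H := Fin (m + 1) × Bool with hH
  have hm : Nat.card H = 2 * (m + 1) := by
    rw [hH, Nat.card_prod]
    simp
    ring
  let A : H → Type := fun h1 =>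
    {f : H → Option W // EmbH g (flipE (Fin (m + 1))) f ∧ (∀ h, f h = none ↔ h = h1) ∧
      ∀ w, Deg f (some w) ∈ c (some w)}
  have hA : ∀ h1, Nat.card (A h1) = ∑ u : W, Xs g m (shift (fun w => c (some w)) u) := by
    intro h1
    exact card_fib_one (α := flipE (Fin (m + 1))) c flipE_flipE flipE_ne h1 hm
  have hX : Xs g (m + 1) c = Nat.card (Σ h1, A h1) := by
    unfold Xs X
    refine (Nat.card_congr (Equiv.ofBijective
      (fun x : (Σ h1, A h1) => (⟨x.2.1, x.2.2.1, ?_⟩ :
        {f : H → Option W // EmbH g (flipE (Fin (m + 1))) f ∧ ∀ v, Deg f v ∈ c v}))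
      ⟨?_, ?_⟩)).symm
    · intro v
      cases v with
      | none =>
        rw [hc, Deg_eq_card_filter]
        have h1 : (Finset.univ.filter fun h => x.2.1 h = none) = {x.1} := by
          ext h
          simp [x.2.2.2.1 h]
        show (Finset.univ.filter fun h => x.2.1 h = none).card = 1
        rw [h1, Finset.card_singleton]
      | some w => exact x.2.2.2.2 w
    · rintro ⟨h1, f, hf, hf', hf''⟩ ⟨h1', f', hg, hg', hg''⟩ h
      simp only [Subtype.mk.injEq] at h
      subst h
      have : h1 = h1' := (hg' h1).1 ((hf' h1).2 rfl)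
      subst this
      rfl
    · rintro ⟨f, hf, hf'⟩
      have h1 := hf' none
      rw [hc, Deg_eq_card_filter] at h1
      obtain ⟨h0, h2⟩ := Finset.card_eq_one.1 h1
      refine ⟨⟨h0, f, hf, fun h => ?_, fun w => hf' (some w)⟩, rfl⟩
      have : h ∈ (Finset.univ.filter fun h => f h = none) ↔ h ∈ ({h0} : Finset H) := by rw [h2]
      simpa using this
  rw [hX, Nat.card_sigma]
  simp only [hA]
  rw [Finset.sum_const, smul_eq_mul, Finset.card_univ, ← Nat.card_eq_fintype_card, hm]

theorem Xs_one_zero {W : Type} {c : Option W → Set ℕ} (hc : c none = {1}) :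
    Xs g 0 c = 0 := by
  unfold Xs X
  rw [Nat.card_eq_zero]
  left
  refine ⟨fun f => ?_⟩
  have := f.2.2 none
  rw [hc] at this
  have h : Deg f.1 none = 0 := by
    unfold Deg
    simp
  rw [h] at this
  simp at this

/-- a vertex with two disjoint sets of allowed degrees -/
theorem Xs_split {V : Type} [Finite V] (m : ℕ) (v0 : V) {c c1 c2 : V → Set ℕ}
    (h : ∀ v, v ≠ v0 → c1 v = c v ∧ c2 v = c v) (h0 : c v0 = c1 v0 ∪ c2 v0)
    (hd : Disjoint (c1 v0) (c2 v0)) : Xs g m c = Xs g m c1 + Xs g m c2 := by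
  classical
  have := Fintype.ofFinite V
  unfold Xs X
  rw [Nat.card_eq_fintype_card, Nat.card_eq_fintype_card, Nat.card_eq_fintype_card,
    Fintype.card_subtype, Fintype.card_subtype, Fintype.card_subtype,
    ← Finset.card_union_of_disjoint]
  · congr 1
    ext f
    simp only [Finset.mem_filter, Finset.mem_univ, true_and, Finset.mem_union]
    constructor
    · rintro ⟨h1, h2⟩
      have h3 := h2 v0
      rw [h0] at h3
      rcases h3 with h3 | h3
      · left
        refine ⟨h1, fun v => ?_⟩
        by_cases hv : v = v0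
        · rw [hv]; exact h3
        · rw [(h v hv).1]; exact h2 v
      · right
        refine ⟨h1, fun v => ?_⟩
        by_cases hv : v = v0
        · rw [hv]; exact h3
        · rw [(h v hv).2]; exact h2 v
    · rintro (⟨h1, h2⟩ | ⟨h1, h2⟩)
      · refine ⟨h1, fun v => ?_⟩
        by_cases hv : v = v0
        · rw [hv, h0]; exact Or.inl (h2 v0)
        · rw [← (h v hv).1]; exact h2 v
      · refine ⟨h1, fun v => ?_⟩
        by_cases hv : v = v0
        · rw [hv, h0]; exact Or.inr (h2 v0)
        · rw [← (h v hv).2]; exact h2 v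
  · rw [Finset.disjoint_left]
    intro f h1 h2
    simp only [Finset.mem_filter, Finset.mem_univ, true_and] at h1 h2
    exact Set.disjoint_left.1 hd (h1.2 v0) (h2.2 v0)

end KernelCount
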