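import Mathlib
import Pool.Agent.Lib.MP_b69e89_co.Count3

/-!
# MP_b69e89_co : inclusion and exclusion over the vertices
-/

namespace KernelCount

open Equiv Equiv.Perm Function Finset

variable {g : ℕ}

open Classical in
/-- indicator -/
noncomputable def ind (p : Prop) : ℤ := if p then 1 else 0

theorem ind_of {p : Prop} (h : p) : ind p = 1 := if_pos h

theorem ind_of_not {p : Prop} (h : ¬ p) : ind p = 0 := if_neg h

theorem Xs_eq_sum {V : Type} [Fintype V] [DecidableEq V] (m : ℕ) (c : V → Set ℕ) :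
    (Xs g m c : ℤ) = ∑ f : Fin m × Bool → V, ind (EmbH g (flipE (Fin m)) f) *
      ∏ v, ind (Deg f v ∈ c v) := by
  classical
  unfold Xs X
  rw [Nat.card_eq_fintype_card, Fintype.card_subtype, Finset.card_filter]
  push_cast
  refine Finset.sum_congr rfl fun f _ => ?_
  by_cases h1 : EmbH g (flipE (Fin m)) f
  · by_cases h2 : ∀ v, Deg f v ∈ c v
    · rw [if_pos ⟨h1, h2⟩, ind_of h1, one_mul]
      symm
      exact Finset.prod_eq_one fun v _ => ind_of (h2 v)
    · rw [if_neg (fun h => h2 h.2)]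
      push Not at h2
      obtain ⟨v, hv⟩ := h2
      rw [Finset.prod_eq_zero (Finset.mem_univ v) (ind_of_not hv), mul_zero]
  · rw [if_neg (fun h => h1 h.1), ind_of_not h1, zero_mul]

theorem Xs_ie {V : Type} [Fintype V] [DecidableEq V] (m : ℕ) {a b : Set ℕ} (hab : b ⊆ a) :
    (Xs g m (fun _ : V => a \ b) : ℤ) =
      ∑ S ∈ (univ : Finset V).powerset,
        (-1) ^ S.card * (Xs g m (fun v => if v ∈ S then b else a) : ℤ) := by
  classical
  simp only [Xs_eq_sum, Finset.mul_sum]
  rw [Finset.sum_comm]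
  refine Finset.sum_congr rfl fun f _ => ?_
  have h1 : ∀ v : V, ind (Deg f v ∈ a \ b) = -ind (Deg f v ∈ b) + ind (Deg f v ∈ a) := by
    intro v
    by_cases h2 : Deg f v ∈ b
    · rw [ind_of h2, ind_of (hab h2), ind_of_not (fun h => h.2 h2)]
      norm_num
    · by_cases h3 : Deg f v ∈ a
      · rw [ind_of_not h2, ind_of h3, ind_of ⟨h3, h2⟩]
        norm_num
      · rw [ind_of_not h2, ind_of_not h3, ind_of_not (fun h => h3 h.1)]
        norm_num
  simp only [h1]
  rw [Finset.prod_add, Finset.mul_sum]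
  refine Finset.sum_congr rfl fun S _ => ?_
  have h2 : ∏ v : V, ind (Deg f v ∈ (if v ∈ S then b else a)) =
      (∏ v ∈ S, ind (Deg f v ∈ b)) * ∏ v ∈ univ \ S, ind (Deg f v ∈ a) := by
    rw [← Finset.prod_sdiff (Finset.subset_univ S), mul_comm]
    congr 1
    · refine Finset.prod_congr rfl fun v hv => ?_
      rw [if_pos hv]
    · refine Finset.prod_congr rfl fun v hv => ?_
      rw [if_neg (Finset.mem_sdiff.1 hv).2]
  rw [h2, Finset.prod_neg]
  ring

/-- `k` vertices with constraint `a` and `s` vertices with constraint `b` -/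
noncomputable def Y (g m k s : ℕ) (a b : Set ℕ) : ℕ :=
  Xs g m (Sum.elim (fun _ : Fin k => a) (fun _ : Fin s => b))

theorem Xs_ite_eq_Y (m n : ℕ) (a b : Set ℕ) (S : Finset (Fin n)) :
    Xs g m (fun v => if v ∈ S then b else a) = Y g m (n - S.card) S.card a b := by
  classical
  unfold Y
  have e1 : {v // v ∈ S} ≃ Fin S.card := S.equivFin
  have e2 : {v // ¬ v ∈ S} ≃ Fin (n - S.card) := by
    refine Fintype.equivFinOfCardEq ?_
    rw [Fintype.card_subtype_compl]
    simp
  have e : Fin n ≃ Fin (n - S.card) ⊕ Fin S.card :=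
    (Equiv.sumCompl (fun v => v ∈ S)).symm.trans
      ((Equiv.sumComm _ _).trans (Equiv.sumCongr e2 e1))
  let e' : Fin (n - S.card) ⊕ Fin S.card ≃ Fin n :=
    (Equiv.sumCongr e2.symm e1.symm).trans
      ((Equiv.sumComm _ _).trans (Equiv.sumCompl (fun v => v ∈ S)))
  symm
  refine Xs_iso m e' ?_
  rintro (x | x)
  · have : e' (Sum.inl x) = (e2.symm x : Fin n) := by simp [e']
    rw [this, if_neg (e2.symm x).2]
    rfl
  · have : e' (Sum.inr x) = (e1.symm x : Fin n) := by simp [e']
    rw [this, if_pos (e1.symm x).2]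
    rfl

theorem Xs_ie_fin (m n : ℕ) {a b : Set ℕ} (hab : b ⊆ a) :
    (Xs g m (fun _ : Fin n => a \ b) : ℤ) =
      ∑ s ∈ range (n + 1), (n.choose s : ℤ) * ((-1) ^ s * (Y g m (n - s) s a b : ℤ)) := by
  rw [Xs_ie m hab]
  have h : ∀ S ∈ (univ : Finset (Fin n)).powerset,
      (-1 : ℤ) ^ S.card * (Xs g m (fun v => if v ∈ S then b else a) : ℤ) =
        (fun s => (-1 : ℤ) ^ s * (Y g m (n - s) s a b : ℤ)) S.card := by
    intro S _
    rw [Xs_ite_eq_Y]
  rw [Finset.sum_congr rfl h]
  have h2 := Finset.sum_powerset_apply_card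
    (fun s => (-1 : ℤ) ^ s * (Y g m (n - s) s a b : ℤ)) (x := (univ : Finset (Fin n)))
  simp only [Finset.card_univ, Fintype.card_fin, nsmul_eq_mul] at h2
  exact h2

/-- `Fin (s + 1)` has one more element than `Fin s` -/
def optE (k s : ℕ) : Option (Fin k ⊕ Fin s) ≃ Fin k ⊕ Fin (s + 1) where
  toFun o := o.elim (Sum.inr (Fin.last s)) (Sum.map id Fin.castSucc)
  invFun x := Sum.elim (fun i => some (Sum.inl i))
    (fun i => if h : i = Fin.last s then none else some (Sum.inr (i.castPred h))) x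
  left_inv := by
    rintro (_ | x | x)
    · simp
    · simp
    · simp
  right_inv := by
    rintro (x | x)
    · simp
    · by_cases h : x = Fin.last s
      · subst h; simp
      · simp [h]

/-- removal of a vertex of degree two -/
theorem Y_two (m k s : ℕ) (a : Set ℕ) :
    Y g (m + 1) k (s + 1) a {2} = (2 * (m + 1)).choose 2 * Y g m k s a {2} := by
  have h := Xs_two (g := g) (W := Fin k ⊕ Fin s)
    (c := fun o => o.elim {2} (Sum.elim (fun _ => a) (fun _ => {2}))) rfl m
  unfold Y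
  rw [← Xs_iso (m + 1) (optE k s) (c := fun o => o.elim {2} (Sum.elim (fun _ => a) (fun _ => {2}))),
    h]
  · rfl
  · rintro (_ | x | x) <;> rfl

theorem Y_two_zero (k s : ℕ) (a : Set ℕ) : Y g 0 k (s + 1) a {2} = 0 := by
  unfold Y
  rw [← Xs_iso 0 (optE k s) (c := fun o => o.elim {2} (Sum.elim (fun _ => a) (fun _ => {2})))]
  · exact Xs_two_zero rfl
  · rintro (_ | x | x) <;> rfl

theorem Y_zero_right (m k : ℕ) (a b : Set ℕ) : Y g m k 0 a b = Xs g m (fun _ : Fin k => a) := by
  unfold Y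
  refine Xs_iso m (Equiv.sumEmpty _ _) ?_
  rintro (x | x)
  · rfl
  · exact x.elim0

end KernelCount
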