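import Mathlib
import Pool.Agent.Lib.MP_b69e89_co.IE

/-!
# MP_b69e89_co : all embeddable multigraphs in terms of simple graphs
-/

namespace KernelCount

open Equiv Equiv.Perm Function Finset

variable {g : ℕ}

/-- embeddability of a simple graph -/
def EmbG (g : ℕ) {V : Type} (G : SimpleGraph V) : Prop :=
  EmbedsOn g (fun e : G.edgeSet => (e : Sym2 V))

/-- the pair of end points of an edge -/
def prs {m : ℕ} {V : Type} (f : Fin m × Bool → V) (e : Fin m) : Sym2 V :=
  s(f (e, false), f (e, true))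

/-- the underlying simple graph -/
def gr {m : ℕ} {V : Type} (f : Fin m × Bool → V) : SimpleGraph V :=
  SimpleGraph.fromEdgeSet (Set.range (prs f))

theorem embH_iff_gr {m : ℕ} {V : Type} [Finite V] (f : Fin m × Bool → V) :
    EmbH g (flipE (Fin m)) f ↔ EmbG g (gr f) := by
  refine embH_flip_iff_of f _ ?_
  intro p hp
  constructor
  · rintro ⟨e, he⟩
    refine ⟨⟨p, ?_⟩, rfl⟩
    unfold gr
    rw [SimpleGraph.edgeSet_fromEdgeSet]
    exact ⟨⟨e, he⟩, hp⟩
  · rintro ⟨⟨q, hq⟩, rfl⟩
    have h : q ∈ (gr f).edgeSet := hq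
    unfold gr at h
    rw [SimpleGraph.edgeSet_fromEdgeSet] at h
    obtain ⟨⟨e, he⟩, _⟩ := h
    exact ⟨e, he⟩

theorem sum_ind_eq {V : Type} [Fintype V] [DecidableEq V] {p : Sym2 V} (hp : ¬ p.IsDiag) :
    ∑ x : V × V, ind (s(x.1, x.2) = p) = 2 := by
  classical
  induction p using Sym2.ind with | _ a b => ?_
  have hab : a ≠ b := by simpa using hp
  have h1 : ∀ x : V × V, ind (s(x.1, x.2) = s(a, b)) =
      (if x = (a, b) then 1 else 0) + (if x = (b, a) then 1 else 0) := by
    rintro ⟨x, y⟩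
    by_cases h : s(x, y) = s(a, b)
    · rw [ind_of h]
      rw [Sym2.eq_iff] at h
      rcases h with ⟨rfl, rfl⟩ | ⟨rfl, rfl⟩
      · have : ¬ (x = y) := hab
        simp [this]
      · have : ¬ (x = y) := fun h => hab h.symm
        simp [this]
    · rw [ind_of_not h]
      rw [Sym2.eq_iff, not_or] at h
      have h2 : ¬ ((x, y) = (a, b)) := fun h' => h.1 (by simpa using h')
      have h3 : ¬ ((x, y) = (b, a)) := fun h' => h.2 (by simpa using h')
      simp [h2, h3]
  simp only [h1]
  rw [Finset.sum_add_distrib]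
  simp

theorem sum_ind_diag {V : Type} [Fintype V] [DecidableEq V] :
    ∑ x : V × V, ind ((s(x.1, x.2)).IsDiag) = (Fintype.card V : ℤ) := by
  classical
  rw [Fintype.sum_prod_type]
  have h : ∀ x y : V, ind ((s(x, y)).IsDiag) = if x = y then 1 else 0 := by
    intro x y
    by_cases h : x = y
    · rw [if_pos h]; exact ind_of (by simpa using h)
    · rw [if_neg h]; exact ind_of_not (by simpa using h)
  simp only [h]
  simp

theorem sum_ind_pairs {V : Type} [Fintype V] [DecidableEq V] (T : Finset (Sym2 V))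
    (hT : ∀ p ∈ T, ¬ p.IsDiag) :
    ∑ x : V × V, ind ((s(x.1, x.2)).IsDiag ∨ s(x.1, x.2) ∈ T) =
      (Fintype.card V : ℤ) + 2 * T.card := by
  classical
  have h : ∀ x : V × V, ind ((s(x.1, x.2)).IsDiag ∨ s(x.1, x.2) ∈ T) =
      ind ((s(x.1, x.2)).IsDiag) + ∑ p ∈ T, ind (s(x.1, x.2) = p) := by
    intro x
    have hs : ∑ p ∈ T, ind (s(x.1, x.2) = p) = ind (s(x.1, x.2) ∈ T) := by
      by_cases hx : s(x.1, x.2) ∈ T
      · rw [ind_of hx, Finset.sum_eq_single_of_mem _ hx, ind_of rfl]
        intro p _ hp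
        exact ind_of_not (fun h => hp h.symm)
      · rw [ind_of_not hx]
        refine Finset.sum_eq_zero fun p hp => ind_of_not ?_
        rintro rfl
        exact hx hp
    rw [hs]
    by_cases h1 : (s(x.1, x.2)).IsDiag
    · have h2 : s(x.1, x.2) ∉ T := fun h => hT _ h h1
      rw [ind_of (Or.inl h1), ind_of h1, ind_of_not h2, add_zero]
    · rw [ind_of_not h1, zero_add]
      by_cases h2 : s(x.1, x.2) ∈ T
      · rw [ind_of (Or.inr h2), ind_of h2]
      · rw [ind_of_not h2, ind_of_not]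
        rintro (h | h)
        · exact h1 h
        · exact h2 h
  simp only [h]
  rw [Finset.sum_add_distrib, sum_ind_diag, Finset.sum_comm]
  rw [Finset.sum_congr rfl (fun p hp => sum_ind_eq (hT p hp))]
  rw [Finset.sum_const, nsmul_eq_mul]
  ring

/-- multigraphs as sequences of pairs -/
def seqE (m : ℕ) (V : Type) : (Fin m × Bool → V) ≃ (Fin m → V × V) :=
  (Equiv.curry (Fin m) Bool V).trans (Equiv.piCongrRight fun _ => Equiv.boolArrowEquivProd V)

theorem seqE_apply {m : ℕ} {V : Type} (f : Fin m × Bool → V) (e : Fin m) :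
    seqE m V f e = (f (e, false), f (e, true)) := rfl

theorem sum_prod_seq {m : ℕ} {V : Type} [Fintype V] [DecidableEq V] (w : Sym2 V → ℤ) :
    ∑ f : Fin m × Bool → V, ∏ e, w (prs f e) = (∑ x : V × V, w s(x.1, x.2)) ^ m := by
  rw [Fintype.sum_pow]
  refine Fintype.sum_equiv (seqE m V) _ _ fun f => ?_
  rfl

theorem ind_gr_eq {m : ℕ} {V : Type} [Fintype V] [DecidableEq V] (f : Fin m × Bool → V)
    (G : SimpleGraph V) (E : Finset (Sym2 V)) (hE : ∀ p, p ∈ E ↔ p ∈ G.edgeSet) :
    ind (gr f = G) = ∑ t ∈ E.powerset, (-1) ^ t.card *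
      ∏ e, ind ((prs f e).IsDiag ∨ prs f e ∈ E \ t) := by
  classical
  have hEd : ∀ p ∈ E, ¬ p.IsDiag := fun p hp => G.not_isDiag_of_mem_edgeSet ((hE p).1 hp)
  have hgr : ∀ p, p ∈ (gr f).edgeSet ↔ (∃ e, prs f e = p) ∧ ¬ p.IsDiag := by
    intro p
    unfold gr
    rw [SimpleGraph.edgeSet_fromEdgeSet]
    exact Iff.rfl
  have hiff : gr f = G ↔ ∀ p, p ∈ (gr f).edgeSet ↔ p ∈ G.edgeSet := by
    rw [← SimpleGraph.edgeSet_inj, Set.ext_iff]
  by_cases hA : ∀ e, (prs f e).IsDiag ∨ prs f e ∈ E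
  · have h1 : ∀ t ∈ E.powerset, ∏ e, ind ((prs f e).IsDiag ∨ prs f e ∈ E \ t) =
        if Disjoint t (univ.image (prs f)) then 1 else 0 := by
      intro t ht
      rw [Finset.mem_powerset] at ht
      by_cases hd : Disjoint t (univ.image (prs f))
      · rw [if_pos hd]
        refine Finset.prod_eq_one fun e _ => ind_of ?_
        rcases hA e with h | h
        · exact Or.inl h
        · right
          rw [Finset.mem_sdiff]
          refine ⟨h, fun h' => ?_⟩
          exact Finset.disjoint_left.1 hd h' (Finset.mem_image_of_mem _ (Finset.mem_univ e))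
      · rw [if_neg hd]
        rw [Finset.not_disjoint_iff] at hd
        obtain ⟨p, hp, hp'⟩ := hd
        obtain ⟨e, _, he⟩ := Finset.mem_image.1 hp'
        refine Finset.prod_eq_zero (Finset.mem_univ e) (ind_of_not ?_)
        rw [he]
        rintro (h | h)
        · exact hEd p (ht hp) h
        · exact (Finset.mem_sdiff.1 h).2 hp
    rw [Finset.sum_congr rfl (fun t ht => by rw [h1 t ht])]
    simp only [mul_ite, mul_one, mul_zero]
    rw [← Finset.sum_filter]
    have h2 : E.powerset.filter (fun t => Disjoint t (univ.image (prs f))) =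
        (E \ univ.image (prs f)).powerset := by
      ext t
      rw [Finset.mem_filter, Finset.mem_powerset, Finset.mem_powerset, Finset.subset_sdiff]
    rw [h2, Finset.sum_powerset_neg_one_pow_card]
    have h3 : (E \ univ.image (prs f) = ∅) ↔ gr f = G := by
      rw [hiff, Finset.sdiff_eq_empty_iff_subset]
      constructor
      · intro h p
        rw [hgr, ← hE]
        constructor
        · rintro ⟨⟨e, he⟩, hd⟩
          rcases hA e with h' | h'
          · rw [he] at h'; exact absurd h' hd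
          · rw [he] at h'; exact h'
        · intro hp
          obtain ⟨e, _, he⟩ := Finset.mem_image.1 (h hp)
          exact ⟨⟨e, he⟩, hEd p hp⟩
      · intro h p hp
        have := (h p).2 ((hE p).1 hp)
        rw [hgr] at this
        obtain ⟨⟨e, he⟩, _⟩ := this
        exact Finset.mem_image.2 ⟨e, Finset.mem_univ _, he⟩
    by_cases h4 : gr f = G
    · rw [ind_of h4, if_pos (h3.2 h4)]
    · rw [ind_of_not h4, if_neg (fun h => h4 (h3.1 h))]
  · push Not at hA
    obtain ⟨e, he1, he2⟩ := hA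
    have h5 : ¬ gr f = G := by
      rw [hiff]
      intro h
      exact he2 ((hE _).2 ((h (prs f e)).1 ((hgr _).2 ⟨⟨e, rfl⟩, he1⟩)))
    rw [ind_of_not h5]
    symm
    refine Finset.sum_eq_zero fun t _ => ?_
    have h6 : ¬ ((prs f e).IsDiag ∨ prs f e ∈ E \ t) := by
      rintro (h | h)
      · exact he1 h
      · exact he2 (Finset.mem_sdiff.1 h).1
    rw [Finset.prod_eq_zero (Finset.mem_univ e) (ind_of_not h6), mul_zero]

/-- the number of multigraphs (edges labelled and oriented) with a given simple graph with `i`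
edges -/
theorem sum_ind_gr {m : ℕ} {V : Type} [Fintype V] [DecidableEq V]
    (G : SimpleGraph V) {i : ℕ} (hi : Nat.card G.edgeSet = i) :
    ∑ f : Fin m × Bool → V, ind (gr f = G) =
      ∑ j ∈ range (i + 1), (i.choose j : ℤ) * ((-1) ^ j *
        ((Fintype.card V : ℤ) + 2 * ((i - j : ℕ) : ℤ)) ^ m) := by
  classical
  set E : Finset (Sym2 V) := G.edgeFinset with hEdef
  have hE : ∀ p, p ∈ E ↔ p ∈ G.edgeSet := fun p => by rw [hEdef, SimpleGraph.mem_edgeFinset]
  have hEd : ∀ p ∈ E, ¬ p.IsDiag := fun p hp => G.not_isDiag_of_mem_edgeSet ((hE p).1 hp)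
  have hcard : E.card = i := by
    rw [hEdef, SimpleGraph.edgeFinset_card, ← Nat.card_eq_fintype_card, hi]
  simp only [ind_gr_eq _ G E hE]
  rw [Finset.sum_comm]
  have h1 : ∀ t ∈ E.powerset, ∑ f : Fin m × Bool → V, (-1 : ℤ) ^ t.card *
      ∏ e, ind ((prs f e).IsDiag ∨ prs f e ∈ E \ t) =
      (fun j => (-1 : ℤ) ^ j * ((Fintype.card V : ℤ) + 2 * ((i - j : ℕ) : ℤ)) ^ m) t.card := by
    intro t ht
    rw [Finset.mem_powerset] at ht
    rw [← Finset.mul_sum, sum_prod_seq (fun p => ind (p.IsDiag ∨ p ∈ E \ t)), sum_ind_pairs]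
    · rw [Finset.card_sdiff_of_subset ht, hcard]
    · intro p hp
      exact hEd p (Finset.mem_sdiff.1 hp).1
  rw [Finset.sum_congr rfl h1]
  have h2 := Finset.sum_powerset_apply_card
    (fun j => (-1 : ℤ) ^ j * ((Fintype.card V : ℤ) + 2 * ((i - j : ℕ) : ℤ)) ^ m) (x := E)
  rw [hcard] at h2
  rw [h2]
  simp only [nsmul_eq_mul]

/-- stage A -/
theorem Xs_univ (m k : ℕ) :
    (Xs g m (fun _ : Fin k => (Set.univ : Set ℕ)) : ℤ) =
      ∑ i ∈ range (k.choose 2 + 1), (simpleCount g k i : ℤ) *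
        ∑ j ∈ range (i + 1), (i.choose j : ℤ) * ((-1) ^ j *
          ((k : ℤ) + 2 * ((i - j : ℕ) : ℤ)) ^ m) := by
  classical
  set F : ℕ → ℤ := fun i => ∑ j ∈ range (i + 1), (i.choose j : ℤ) * ((-1) ^ j *
          ((k : ℤ) + 2 * ((i - j : ℕ) : ℤ)) ^ m) with hF
  have h1 : (Xs g m (fun _ : Fin k => (Set.univ : Set ℕ)) : ℤ) =
      ∑ f : Fin m × Bool → Fin k, ind (EmbG g (gr f)) := by
    rw [Xs_eq_sum]
    refine Finset.sum_congr rfl fun f _ => ?_
    rw [Finset.prod_eq_one (fun v _ => ind_of (Set.mem_univ _)), mul_one]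
    by_cases h : EmbG g (gr f)
    · rw [ind_of h, ind_of (embH_iff_gr f |>.2 h)]
    · rw [ind_of_not h, ind_of_not (fun h' => h (embH_iff_gr f |>.1 h'))]
  have h2 : ∀ f : Fin m × Bool → Fin k, ind (EmbG g (gr f)) =
      ∑ G : SimpleGraph (Fin k), ind (EmbG g G) * ind (gr f = G) := by
    intro f
    rw [Finset.sum_eq_single (gr f)]
    · rw [ind_of (rfl : gr f = gr f), mul_one]
    · intro G _ hG
      have h0 : ind (gr f = G) = 0 := ind_of_not (fun h => hG h.symm)
      rw [h0, mul_zero]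
    · intro h
      exact absurd (Finset.mem_univ _) h
  rw [h1]
  simp only [h2]
  rw [Finset.sum_comm]
  simp only [← Finset.mul_sum]
  have h3 : ∀ G : SimpleGraph (Fin k), ∑ f : Fin m × Bool → Fin k, ind (gr f = G) =
      F (Nat.card G.edgeSet) := by
    intro G
    rw [sum_ind_gr G rfl, Fintype.card_fin]
  simp only [h3]
  have h4 : ∀ G ∈ (univ : Finset (SimpleGraph (Fin k))),
      Nat.card G.edgeSet ∈ range (k.choose 2 + 1) := by
    intro G _
    rw [Finset.mem_range, Nat.lt_succ_iff, Nat.card_eq_fintype_card,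
      ← SimpleGraph.edgeFinset_card]
    have := G.card_edgeFinset_le_card_choose_two
    rwa [Fintype.card_fin] at this
  rw [← Finset.sum_fiberwise_of_maps_to h4]
  refine Finset.sum_congr rfl fun i _ => ?_
  have h5 : ∀ G ∈ (univ : Finset (SimpleGraph (Fin k))).filter
      (fun G => Nat.card G.edgeSet = i), ind (EmbG g G) * F (Nat.card G.edgeSet) =
      ind (EmbG g G) * F i := by
    intro G hG
    rw [(Finset.mem_filter.1 hG).2]
  rw [Finset.sum_congr rfl h5, ← Finset.sum_mul]
  congr 1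
  unfold simpleCount
  rw [Nat.card_eq_fintype_card, Fintype.card_subtype]
  rw [← Finset.sum_filter_add_sum_filter_not _ (fun G => EmbG g G)]
  have h6 : ∑ G ∈ ((univ : Finset (SimpleGraph (Fin k))).filter
      (fun G => Nat.card G.edgeSet = i)).filter (fun G => ¬ EmbG g G), ind (EmbG g G) = 0 :=
    Finset.sum_eq_zero fun G hG => ind_of_not (Finset.mem_filter.1 hG).2
  have h7 : ∑ G ∈ ((univ : Finset (SimpleGraph (Fin k))).filter
      (fun G => Nat.card G.edgeSet = i)).filter (fun G => EmbG g G), ind (EmbG g G) =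
      ∑ G ∈ ((univ : Finset (SimpleGraph (Fin k))).filter
      (fun G => Nat.card G.edgeSet = i)).filter (fun G => EmbG g G), 1 :=
    Finset.sum_congr rfl fun G hG => ind_of (Finset.mem_filter.1 hG).2
  rw [h6, h7, add_zero, Finset.sum_const, Finset.filter_filter]
  simp only [nsmul_eq_mul, mul_one]
  rfl

end KernelCount
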