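import Mathlib
import Pool.Agent.Lib.MP_b69e89_co.Simple

/-!
# MP_b69e89_co : compensation factors and labelled oriented edges
-/

namespace KernelCount

open Equiv Equiv.Perm Function Finset

variable {g : ℕ}

/-- the number of sequences with a given multiset of values -/
theorem card_seq {β : Type} [Fintype β] [DecidableEq β] {m : ℕ} (M : Multiset β)
    (hM : M.card = m) :
    Nat.card {p : Fin m → β // Multiset.map p univ.val = M} * ∏ b, (M.count b).factorial =
      m.factorial := by
  classical
  -- one sequence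
  obtain ⟨p, hp⟩ : ∃ p : Fin m → β, Multiset.map p univ.val = M := by
    refine ⟨fun i => M.toList.get (i.cast (by simp [hM])), ?_⟩
    have h1 : Multiset.map (fun i : Fin m => M.toList.get (i.cast (by simp [hM])))
        (univ : Finset (Fin m)).val = (List.ofFn fun i : Fin m =>
          M.toList.get (i.cast (by simp [hM])) : Multiset β) := by
      rw [List.ofFn_eq_map]
      rfl
    rw [h1]
    conv_rhs => rw [← M.coe_toList]
    congr 1
    refine List.ext_get (by simp [hM]) ?_
    intro n h2 h3
    simp
  have hcount : ∀ q : Fin m → β, Multiset.map q univ.val = M →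
      ∀ b, Fintype.card {a // q a = b} = M.count b := by
    intro q hq b
    rw [← hq, Multiset.count_map, Fintype.card_subtype]
    show _ = Multiset.card (Multiset.filter _ _)
    rw [Finset.card_def, Finset.filter_val]
    congr 1
    refine Multiset.filter_congr fun a _ => ?_
    exact eq_comm
  have hτ : ∀ q : Fin m → β, Multiset.map q univ.val = M →
      ∃ τ : Perm (Fin m), p ∘ τ = q := by
    intro q hq
    have e : ∀ b, {a // q a = b} ≃ {a // p a = b} := fun b =>
      Fintype.equivOfCardEq (by rw [hcount q hq, hcount p hp])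
    refine ⟨Equiv.ofFiberEquiv e, ?_⟩
    funext a
    exact Equiv.ofFiberEquiv_map e a
  have h1 : Nat.card (Perm (Fin m)) =
      ∑ q : {p : Fin m → β // Multiset.map p univ.val = M},
        Nat.card {σ : Perm (Fin m) // p ∘ σ = q.1} := by
    rw [← Nat.card_sigma]
    refine Nat.card_congr ⟨fun σ => ⟨⟨p ∘ σ, ?_⟩, σ, rfl⟩, fun x => x.2.1, ?_, ?_⟩
    · rw [← Multiset.map_map, Multiset.map_univ_val_equiv, hp]
    · intro σ; rfl
    · rintro ⟨⟨q, hq⟩, σ, hσ⟩
      have hσ' : q = p ∘ σ := hσ.symm
      subst hσ'
      rfl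
  have h2 : ∀ q : {p : Fin m → β // Multiset.map p univ.val = M},
      Nat.card {σ : Perm (Fin m) // p ∘ σ = q.1} = ∏ b, (M.count b).factorial := by
    rintro ⟨q, hq⟩
    obtain ⟨τ, hτ⟩ := hτ q hq
    have h3 : Nat.card {σ : Perm (Fin m) // p ∘ σ = q} =
        Nat.card {σ : Perm (Fin m) // p ∘ σ = p} := by
      refine Nat.card_congr ((Equiv.mulRight τ⁻¹).subtypeEquiv ?_)
      intro σ
      show p ∘ σ = q ↔ p ∘ (σ * τ⁻¹) = p
      rw [← hτ]
      constructor
      · intro h
        funext x
        have := congrFun h (τ⁻¹ x)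
        simpa using this
      · intro h
        funext x
        have := congrFun h (τ x)
        simpa using this
    rw [h3, Nat.card_eq_fintype_card, DomMulAct.stabilizer_card]
    exact Finset.prod_congr rfl fun b _ => by rw [hcount p hp]
  rw [Nat.card_perm] at h1
  rw [Finset.sum_congr rfl (fun q _ => h2 q), Finset.sum_const, smul_eq_mul,
    Finset.card_univ, ← Nat.card_eq_fintype_card] at h1
  rw [← h1]
  simp

/-- the multigraph of a sequence of oriented edges -/
def mg {m : ℕ} {V : Type} (f : Fin m × Bool → V) : Sym (Sym2 V) m :=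
  ⟨Multiset.map (prs f) univ.val, by simp⟩

theorem deg_mg {m : ℕ} {V : Type} [DecidableEq V] (f : Fin m × Bool → V) (v : V) :
    deg (mg f) v = Deg f v := by
  classical
  unfold deg
  have h1 : ∀ p : Sym2 V → Prop, ∀ [DecidablePred p],
      Multiset.countP p ((mg f : Sym (Sym2 V) m) : Multiset (Sym2 V)) =
        ∑ e : Fin m, if p (prs f e) then 1 else 0 := by
    intro p _
    show Multiset.countP p (Multiset.map (prs f) univ.val) = _
    rw [Multiset.countP_map, ← Finset.filter_val, ← Finset.card_def, Finset.card_filter]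
  rw [h1, h1, Deg_eq_sum, Fintype.sum_prod_type, Finset.mul_sum, ← Finset.sum_add_distrib]
  refine Finset.sum_congr rfl fun e _ => ?_
  rw [Fintype.sum_bool]
  unfold prs
  by_cases h2 : f (e, false) = v <;> by_cases h3 : f (e, true) = v
  · simp [h2, h3]
  · have h4 : ¬ v = f (e, true) := fun h => h3 h.symm
    simp [h2, h3, h4]
  · have h4 : ¬ v = f (e, false) := fun h => h2 h.symm
    simp [h2, h3, h4]
  · have h4 : ¬ v = f (e, true) := fun h => h3 h.symm
    have h5 : ¬ v = f (e, false) := fun h => h2 h.symm
    simp [h2, h3, h4, h5]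

theorem isKernel_mg {m : ℕ} {V : Type} [Finite V] [DecidableEq V] (f : Fin m × Bool → V) :
    IsKernel g (mg f) ↔ EmbH g (flipE (Fin m)) f ∧ ∀ v, 3 ≤ Deg f v := by
  unfold IsKernel
  simp only [deg_mg]
  rw [and_comm]
  refine and_congr_left fun _ => ?_
  rw [embH_flip_iff]
  constructor
  · rintro ⟨ends, h1, h2⟩
    refine h2.of_subset _ fun e => Or.inr ?_
    have h3 : prs f e ∈ Multiset.map ends univ.val := by
      rw [h1]
      exact Multiset.mem_map.2 ⟨e, Finset.mem_univ_val e, rfl⟩
    obtain ⟨e', _, h4⟩ := Multiset.mem_map.1 h3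
    exact ⟨e', h4⟩
  · intro h
    exact ⟨prs f, rfl, h⟩

/-- the number of functions with a given multigraph is `2^m m!` times the compensation factor -/
theorem card_mg {m : ℕ} {V : Type} [Fintype V] [DecidableEq V] (M : Sym (Sym2 V) m) :
    (Nat.card {f : Fin m × Bool → V // mg f = M} : ℚ) = 2 ^ m * m.factorial * cf M := by
  classical
  have h1 := card_seq (M : Multiset (Sym2 V)) M.2
  -- the number of orientations
  have h2 : (Nat.card {f : Fin m × Bool → V // mg f = M} : ℤ) =
      ∑ p : Fin m → Sym2 V, ind (Multiset.map p univ.val = (M : Multiset (Sym2 V))) *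
        ∏ e, ∑ x : V × V, ind (s(x.1, x.2) = p e) := by
    have h3 : ∀ p : Fin m → Sym2 V, ∏ e, ∑ x : V × V, ind (s(x.1, x.2) = p e) =
        ∑ f : Fin m × Bool → V, ind (prs f = p) := by
      intro p
      rw [Finset.prod_univ_sum]
      simp only [Fintype.piFinset_univ]
      symm
      refine Fintype.sum_equiv (seqE m V) _ _ fun f => ?_
      by_cases h : prs f = p
      · rw [ind_of h]
        symm
        exact Finset.prod_eq_one fun e _ => ind_of (by rw [← h]; rfl)
      · rw [ind_of_not h]
        symm
        have : ∃ e, ¬ prs f e = p e := by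
          by_contra h'
          push Not at h'
          exact h (funext h')
        obtain ⟨e, he⟩ := this
        exact Finset.prod_eq_zero (Finset.mem_univ e) (ind_of_not he)
    simp only [h3, Finset.mul_sum]
    rw [Finset.sum_comm]
    have h4 : ∀ f : Fin m × Bool → V, ∑ p : Fin m → Sym2 V,
        ind (Multiset.map p univ.val = (M : Multiset (Sym2 V))) * ind (prs f = p) =
        ind (mg f = M) := by
      intro f
      rw [Finset.sum_eq_single (prs f)]
      · rw [ind_of (rfl : prs f = prs f), mul_one]
        by_cases h : mg f = M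
        · rw [ind_of h, ind_of]
          rw [← h]
          rfl
        · rw [ind_of_not h, ind_of_not]
          intro h'
          exact h (Subtype.ext h')
      · intro p _ hp
        have h0 : ind (prs f = p) = 0 := ind_of_not (fun h => hp h.symm)
        rw [h0, mul_zero]
      · intro h
        exact absurd (Finset.mem_univ _) h
    simp only [h4]
    rw [Nat.card_eq_fintype_card, Fintype.card_subtype, Finset.card_filter]
    push_cast
    refine Finset.sum_congr rfl fun f _ => ?_
    by_cases h : mg f = M
    · rw [ind_of h, if_pos h]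
    · rw [ind_of_not h, if_neg h]
  have h5 : ∀ q : Sym2 V, ∑ x : V × V, ind (s(x.1, x.2) = q) = if q.IsDiag then 1 else 2 := by
    intro q
    by_cases hq : q.IsDiag
    · rw [if_pos hq]
      induction q using Sym2.ind with | _ a b => ?_
      have hab : a = b := by simpa using hq
      subst hab
      rw [Finset.sum_eq_single (a, a)]
      · exact ind_of rfl
      · rintro ⟨x, y⟩ _ h
        refine ind_of_not fun h' => h ?_
        rw [Sym2.eq_iff] at h'
        rcases h' with ⟨h1, h2⟩ | ⟨h1, h2⟩ <;> exact Prod.ext h1 h2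
      · intro h
        exact absurd (Finset.mem_univ _) h
    · rw [if_neg hq, sum_ind_eq hq]
  set ℓ := (M : Multiset (Sym2 V)).countP (fun p => p.IsDiag) with hℓ
  have h6 : ∀ p : Fin m → Sym2 V, Multiset.map p univ.val = (M : Multiset (Sym2 V)) →
      ((∏ e, ∑ x : V × V, ind (s(x.1, x.2) = p e) : ℤ) : ℚ) = 2 ^ m * (1 / 2) ^ ℓ := by
    intro p hp
    simp only [h5]
    push_cast
    have h7 : ∀ e, (if (p e).IsDiag then (1 : ℚ) else 2) = 2 * (if (p e).IsDiag then 1 / 2 else 1) := by
      intro e
      split_ifs <;> norm_num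
    simp only [h7]
    rw [Finset.prod_mul_distrib, Finset.prod_const, Finset.card_univ, Fintype.card_fin]
    congr 1
    rw [← Finset.prod_filter, Finset.prod_const]
    congr 1
    rw [hℓ, ← hp, Multiset.countP_map, ← Finset.filter_val, ← Finset.card_def]
  have h8 : (Nat.card {f : Fin m × Bool → V // mg f = M} : ℚ) =
      (Nat.card {p : Fin m → Sym2 V // Multiset.map p univ.val = (M : Multiset (Sym2 V))} : ℚ) *
        (2 ^ m * (1 / 2) ^ ℓ) := by
    have h9 : (Nat.card {f : Fin m × Bool → V // mg f = M} : ℚ) =
        ((Nat.card {f : Fin m × Bool → V // mg f = M} : ℤ) : ℚ) := by push_cast; rfl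
    rw [h9, h2]
    push_cast
    rw [Nat.card_eq_fintype_card, Fintype.card_subtype, Finset.card_filter]
    push_cast
    rw [Finset.sum_mul]
    refine Finset.sum_congr rfl fun p _ => ?_
    by_cases h : Multiset.map p univ.val = (M : Multiset (Sym2 V))
    · rw [ind_of h, if_pos h, ← h6 p h]
      push_cast
      rfl
    · rw [ind_of_not h, if_neg h]
      push_cast
      ring
  have h10 : (Nat.card {p : Fin m → Sym2 V // Multiset.map p univ.val =
      (M : Multiset (Sym2 V))} : ℚ) =
      m.factorial * ∏ p : Sym2 V, (1 / ((M : Multiset (Sym2 V)).count p).factorial : ℚ) := by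
    rw [← h1]
    push_cast
    rw [mul_assoc, ← Finset.prod_mul_distrib, Finset.prod_eq_one, mul_one]
    intro p _
    have : ((((M : Multiset (Sym2 V)).count p).factorial : ℕ) : ℚ) ≠ 0 := by
      exact_mod_cast Nat.factorial_ne_zero _
    field_simp
  rw [h8, h10]
  unfold cf
  rw [← hℓ]
  ring

/-- weighted numbers of kernels by counting functions -/
theorem kernelCount_eq (n m : ℕ) :
    kernelCount g n m =
      (Xs g m (fun _ : Fin n => {k : ℕ | 3 ≤ k}) : ℚ) / (2 ^ m * m.factorial) := by
  classical
  have hpos : (2 ^ m * m.factorial : ℚ) ≠ 0 := by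
    have := Nat.factorial_ne_zero m
    positivity
  rw [eq_div_iff hpos]
  unfold kernelCount
  rw [Finset.sum_mul]
  have h1 : ∀ M : Sym (Sym2 (Fin n)) m,
      (if IsKernel g M then cf M else 0) * (2 ^ m * m.factorial : ℚ) =
        ((∑ f : Fin m × Bool → Fin n, ind (mg f = M) * ind (IsKernel g (mg f)) : ℤ) : ℚ) := by
    intro M
    have h2 : ∀ f : Fin m × Bool → Fin n, ind (mg f = M) * ind (IsKernel g (mg f)) =
        ind (mg f = M) * ind (IsKernel g M) := by
      intro f
      by_cases h : mg f = M
      · rw [h]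
      · rw [ind_of_not h, zero_mul, zero_mul]
    simp only [h2]
    rw [← Finset.sum_mul]
    have h3 : ((∑ f : Fin m × Bool → Fin n, ind (mg f = M) : ℤ) : ℚ) =
        (Nat.card {f : Fin m × Bool → Fin n // mg f = M} : ℚ) := by
      rw [Nat.card_eq_fintype_card, Fintype.card_subtype, Finset.card_filter]
      push_cast
      refine Finset.sum_congr rfl fun f _ => ?_
      by_cases h : mg f = M
      · rw [ind_of h, if_pos h]; norm_num
      · rw [ind_of_not h, if_neg h]; norm_num
    by_cases hK : IsKernel g M
    · rw [if_pos hK, ind_of hK]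
      push_cast
      rw [mul_one]
      have h4 := h3
      push_cast at h4
      rw [h4, card_mg]
      ring
    · rw [if_neg hK, ind_of_not hK]
      push_cast
      ring
  rw [Finset.sum_congr rfl (fun M _ => h1 M), ← Int.cast_sum, Finset.sum_comm]
  have h5 : ∀ f : Fin m × Bool → Fin n, ∑ M : Sym (Sym2 (Fin n)) m,
      ind (mg f = M) * ind (IsKernel g (mg f)) = ind (IsKernel g (mg f)) := by
    intro f
    rw [← Finset.sum_mul, Finset.sum_eq_single (mg f)]
    · rw [ind_of (rfl : mg f = mg f), one_mul]
    · intro M _ hM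
      exact ind_of_not (fun h => hM h.symm)
    · intro h
      exact absurd (Finset.mem_univ _) h
  simp only [h5]
  have h6 : (Xs g m (fun _ : Fin n => {k : ℕ | 3 ≤ k}) : ℚ) =
      ((Xs g m (fun _ : Fin n => {k : ℕ | 3 ≤ k}) : ℤ) : ℚ) := by push_cast; rfl
  rw [h6, Xs_eq_sum]
  congr 1
  refine Finset.sum_congr rfl fun f _ => ?_
  by_cases h : IsKernel g (mg f)
  · have h' := isKernel_mg f |>.1 h
    have h2 : ∏ v, ind (Deg f v ∈ {k : ℕ | 3 ≤ k}) = 1 :=
      Finset.prod_eq_one fun v _ => ind_of (h'.2 v)
    rw [ind_of h, ind_of h'.1, h2, mul_one]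
  · rw [ind_of_not h]
    symm
    by_cases h1 : EmbH g (flipE (Fin m)) f
    · have h2 : ∃ v, ¬ 3 ≤ Deg f v := by
        by_contra h3
        push Not at h3
        exact h (isKernel_mg f |>.2 ⟨h1, h3⟩)
      obtain ⟨v, hv⟩ := h2
      have h3 : ∏ v, ind (Deg f v ∈ {k : ℕ | 3 ≤ k}) = 0 :=
        Finset.prod_eq_zero (Finset.mem_univ v) (ind_of_not hv)
      rw [h3, mul_zero]
    · rw [ind_of_not h1, zero_mul]

end KernelCount
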