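import Mathlib
import Pool.Agent.Lib.MP_b69e89_co.IE

/-!
# MP_b69e89_co : vertices of degree at most one
-/

namespace KernelCount

open Equiv Equiv.Perm Function Finset

variable {g : ℕ}

/-- `Fin (s + 1)` is `Fin s` together with the element `i` -/
noncomputable def optEi (k s : ℕ) (i : Fin (s + 1)) : Option (Fin k ⊕ Fin s) ≃ Fin k ⊕ Fin (s + 1) :=
  Equiv.ofBijective (fun o => o.elim (Sum.inr i) (Sum.map id i.succAbove)) (by
    constructor
    · rintro (_ | a | a) (_ | b | b) h
      · rfl
      · simp at h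
      · simp at h
      · simp at h
      · simpa using h
      · simp at h
      · simp at h
      · simp at h
      · simpa using h
    · rintro (x | x)
      · exact ⟨some (Sum.inl x), rfl⟩
      · by_cases h : x = i
        · exact ⟨none, by rw [h]; rfl⟩
        · obtain ⟨y, hy⟩ := Fin.exists_succAbove_eq h
          exact ⟨some (Sum.inr y), by rw [← hy]; rfl⟩)

theorem shift_univ {k s m : ℕ} (i : Fin k) :
    Xs g m (shift (Sum.elim (fun _ : Fin k => (Set.univ : Set ℕ)) (fun _ : Fin s => {0, 1}))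
      (Sum.inl i)) = Y g m k s Set.univ {0, 1} := by
  unfold Y
  congr 1
  funext w
  rcases w with w | w
  · simp [shift]
  · ext j
    simp [shift]

theorem shift_low {k s m : ℕ} (i : Fin (s + 1)) :
    Xs g m (shift (Sum.elim (fun _ : Fin k => (Set.univ : Set ℕ)) (fun _ : Fin (s + 1) => {0, 1}))
      (Sum.inr i)) = Y g m k s Set.univ {0, 1} := by
  rw [← Xs_iso m (optEi k s i)
    (c := fun o => o.elim {0} (Sum.elim (fun _ => Set.univ) (fun _ => {0, 1})))]
  · unfold Xs
    rw [X_zero rfl]
    rfl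
  · rintro (_ | x | x)
    · have h1 : optEi k s i none = Sum.inr i := rfl
      rw [h1]
      ext j
      simp [shift]
    · simp [shift, optEi]
    · have : ¬ i = i.succAbove x := (Fin.succAbove_ne i x).symm
      ext j
      simp [shift, optEi, this]

theorem Y_low_zero (k s : ℕ) :
    Y g 0 k (s + 1) Set.univ {0, 1} = Y g 0 k s Set.univ {0, 1} := by
  have h1 : Y g 0 k (s + 1) Set.univ {0, 1} =
      Xs g 0 (fun o : Option (Fin k ⊕ Fin s) =>
        o.elim {0, 1} (Sum.elim (fun _ => Set.univ) (fun _ => {0, 1}))) := by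
    unfold Y
    rw [← Xs_iso 0 (optE k s)
      (c := fun o => o.elim {0, 1} (Sum.elim (fun _ => Set.univ) (fun _ => {0, 1})))]
    rintro (_ | x | x) <;> rfl
  rw [h1, Xs_split 0 none
    (c1 := fun o : Option (Fin k ⊕ Fin s) =>
      o.elim {0} (Sum.elim (fun _ => Set.univ) (fun _ => {0, 1})))
    (c2 := fun o : Option (Fin k ⊕ Fin s) =>
      o.elim {1} (Sum.elim (fun _ => Set.univ) (fun _ => {0, 1})))]
  · have h2 : Xs g 0 (fun o : Option (Fin k ⊕ Fin s) =>
        o.elim {1} (Sum.elim (fun _ => Set.univ) (fun _ => {0, 1}))) = 0 := Xs_one_zero rfl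
    rw [h2, add_zero]
    unfold Xs
    rw [X_zero rfl]
    rfl
  · rintro (_ | v) h
    · exact absurd rfl h
    · exact ⟨rfl, rfl⟩
  · show ({0, 1} : Set ℕ) = {0} ∪ {1}
    exact Set.insert_eq _ _
  · show Disjoint ({0} : Set ℕ) {1}
    simp

theorem Y_low_succ (m k s : ℕ) :
    Y g (m + 1) k (s + 1) Set.univ {0, 1} = Y g (m + 1) k s Set.univ {0, 1} +
      2 * (m + 1) * (k * Y g m k s Set.univ {0, 1} + s * Y g m k (s - 1) Set.univ {0, 1}) := by
  have h1 : Y g (m + 1) k (s + 1) Set.univ {0, 1} =
      Xs g (m + 1) (fun o : Option (Fin k ⊕ Fin s) =>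
        o.elim {0, 1} (Sum.elim (fun _ => Set.univ) (fun _ => {0, 1}))) := by
    unfold Y
    rw [← Xs_iso (m + 1) (optE k s)
      (c := fun o => o.elim {0, 1} (Sum.elim (fun _ => Set.univ) (fun _ => {0, 1})))]
    rintro (_ | x | x) <;> rfl
  rw [h1, Xs_split (m + 1) none
    (c1 := fun o : Option (Fin k ⊕ Fin s) =>
      o.elim {0} (Sum.elim (fun _ => Set.univ) (fun _ => {0, 1})))
    (c2 := fun o : Option (Fin k ⊕ Fin s) =>
      o.elim {1} (Sum.elim (fun _ => Set.univ) (fun _ => {0, 1})))]
  · congr 1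
    · unfold Xs
      rw [X_zero rfl]
      rfl
    · rw [Xs_one rfl, Fintype.sum_sum_type]
      congr 2
      · have : ∀ i : Fin k, Xs g m (shift (fun w : Fin k ⊕ Fin s => (some w).elim {1}
            (Sum.elim (fun _ => Set.univ) (fun _ => {0, 1}))) (Sum.inl i)) =
            Y g m k s Set.univ {0, 1} := fun i => shift_univ i
        rw [Finset.sum_congr rfl (fun i _ => this i)]
        simp
      · cases s with
        | zero => simp
        | succ s =>
          have : ∀ i : Fin (s + 1), Xs g m (shift (fun w : Fin k ⊕ Fin (s + 1) =>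
              (some w).elim {1}
              (Sum.elim (fun _ => Set.univ) (fun _ => {0, 1}))) (Sum.inr i)) =
              Y g m k s Set.univ {0, 1} := fun i => shift_low i
          rw [Finset.sum_congr rfl (fun i _ => this i)]
          simp
  · rintro (_ | v) h
    · exact absurd rfl h
    · exact ⟨rfl, rfl⟩
  · show ({0, 1} : Set ℕ) = {0} ∪ {1}
    exact Set.insert_eq _ _
  · show Disjoint ({0} : Set ℕ) {1}
    simp

end KernelCount
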