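import Mathlib
import Pool.Agent.Lib.MP_b69e89_co.Conv
import Pool.Agent.Lib.MP_b69e89_co.Low

/-!
# MP_b69e89_co : the three steps with weights
-/

namespace KernelCount

open Equiv Equiv.Perm Function Finset

variable {g : ℕ}

/-- weight of a count with `m` edges -/
noncomputable def wt (m : ℕ) (x : ℕ) : ℚ := (x : ℚ) / (2 ^ m * m.factorial)

theorem wt_denom_ne (m : ℕ) : (2 ^ m * m.factorial : ℚ) ≠ 0 := by
  have := Nat.factorial_ne_zero m
  positivity

/-- weighted number of embeddable multigraphs with minimum degree at least two -/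
noncomputable def Dw (g n m : ℕ) : ℚ := wt m (Xs g m (fun _ : Fin n => {k : ℕ | 2 ≤ k}))

/-- weighted number of embeddable multigraphs -/
noncomputable def Mw (g n m : ℕ) : ℚ := wt m (Xs g m (fun _ : Fin n => (Set.univ : Set ℕ)))

/-! ### vertices of degree two -/

theorem wt_Y_two (k : ℕ) (a : Set ℕ) : ∀ s m : ℕ, wt m (Y g m k s a {2}) =
    if s ≤ m then (∏ i ∈ range s, ((m : ℚ) - i - 1 / 2)) *
      wt (m - s) (Xs g (m - s) (fun _ : Fin k => a)) else 0 := by
  intro s
  induction s with
  | zero =>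
    intro m
    rw [Y_zero_right]
    simp
  | succ s ih =>
    intro m
    cases m with
    | zero =>
      rw [Y_two_zero]
      simp [wt]
    | succ m =>
      have h1 : wt (m + 1) (Y g (m + 1) k (s + 1) a {2}) =
          ((m + 1 : ℕ) - 1 / 2 : ℚ) * wt m (Y g m k s a {2}) := by
        rw [Y_two]
        unfold wt
        rw [Nat.factorial_succ, pow_succ]
        have h2 : (((2 * (m + 1)).choose 2 : ℕ) : ℚ) = (m + 1) * (2 * (m + 1) - 1) := by
          rw [Nat.cast_choose_two]
          push_cast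
          ring
        have h3 := wt_denom_ne m
        have h4 : (m.factorial : ℚ) ≠ 0 := by exact_mod_cast Nat.factorial_ne_zero m
        push_cast
        rw [h2]
        field_simp
      rw [h1, ih]
      by_cases h : s ≤ m
      · rw [if_pos h, if_pos (by omega), Finset.prod_range_succ']
        have e1 : m + 1 - (s + 1) = m - s := by omega
        rw [e1]
        have h5 : ∏ i ∈ range s, (((m + 1 : ℕ) : ℚ) - ((i + 1 : ℕ) : ℚ) - 1 / 2) =
            ∏ i ∈ range s, ((m : ℚ) - i - 1 / 2) := by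
          refine Finset.prod_congr rfl fun i _ => ?_
          push_cast
          ring
        rw [h5]
        push_cast
        ring
      · rw [if_neg h, if_neg (by omega), mul_zero]

theorem cast_wt_sum {ι : Type} (s : Finset ι) (m x : ℕ) (c : ι → ℤ) (y : ι → ℕ)
    (h : (x : ℤ) = ∑ i ∈ s, c i * (y i : ℤ)) :
    wt m x = ∑ i ∈ s, (c i : ℚ) * wt m (y i) := by
  unfold wt
  have h1 : (x : ℚ) = ∑ i ∈ s, (c i : ℚ) * (y i : ℚ) := by
    have := congrArg (fun z : ℤ => (z : ℚ)) h
    push_cast at this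
    exact this
  rw [h1, Finset.sum_div]
  refine Finset.sum_congr rfl fun i _ => ?_
  ring

/-- step C -/
theorem step_C (n m : ℕ) : kernelCount g n m =
    ∑ a ∈ range (n + 1), if a ≤ m then ((-1) ^ a * (n.choose a : ℚ) *
      ∏ i ∈ range a, ((m : ℚ) - i - 1 / 2)) * Dw g (n - a) (m - a) else 0 := by
  rw [kernelCount_eq]
  have hs : ({k : ℕ | 3 ≤ k} : Set ℕ) = {k : ℕ | 2 ≤ k} \ {2} := by
    ext k
    simp only [Set.mem_ofPred_eq, Set.mem_sdiff, Set.mem_singleton_iff]
    omega
  have h1 := Xs_ie_fin (g := g) m n (a := {k : ℕ | 2 ≤ k}) (b := {2}) (by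
    intro k hk
    rw [Set.mem_singleton_iff] at hk
    rw [hk]
    exact le_refl 2)
  rw [← hs] at h1
  have h2 := cast_wt_sum (range (n + 1)) m _ (fun s => (n.choose s : ℤ) * (-1) ^ s)
    (fun s => Y g m (n - s) s {k : ℕ | 2 ≤ k} {2}) (by
      rw [h1]
      exact Finset.sum_congr rfl fun s _ => by ring)
  unfold wt at h2
  rw [h2]
  refine Finset.sum_congr rfl fun a _ => ?_
  have h3 := wt_Y_two (g := g) (n - a) {k : ℕ | 2 ≤ k} a m
  unfold wt at h3
  rw [h3]
  by_cases h : a ≤ m
  · rw [if_pos h, if_pos h]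
    unfold Dw wt
    push_cast
    ring
  · rw [if_neg h, if_neg h, mul_zero]

/-! ### vertices of degree at most one -/

/-- `1 / n!`, zero for negative `n` -/
noncomputable def ifac (n : ℤ) : ℚ := if n < 0 then 0 else 1 / (n.toNat.factorial : ℚ)

theorem ifac_mul (n : ℤ) : (n : ℚ) * ifac n = ifac (n - 1) := by
  unfold ifac
  rcases lt_trichotomy n 0 with h | h | h
  · rw [if_pos h, if_pos (by omega), mul_zero]
  · subst h
    simp
  · rw [if_neg (by omega), if_neg (by omega)]
    obtain ⟨k, rfl⟩ : ∃ k : ℕ, n = k + 1 := ⟨(n - 1).toNat, by omega⟩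
    have e1 : ((k : ℤ) + 1).toNat = k + 1 := by omega
    have e2 : ((k : ℤ) + 1 - 1).toNat = k := by omega
    rw [e1, e2, Nat.factorial_succ]
    have h4 : (k.factorial : ℚ) ≠ 0 := by exact_mod_cast Nat.factorial_ne_zero k
    have h5 : (k : ℚ) + 1 ≠ 0 := by positivity
    push_cast
    field_simp

theorem ifac_natCast (n : ℕ) : ifac (n : ℤ) = 1 / (n.factorial : ℚ) := by
  unfold ifac
  rw [if_neg (by omega)]
  simp

theorem ifac_neg {n : ℤ} (h : n < 0) : ifac n = 0 := if_pos h

/-- the number of ways to have, on `s` labelled vertices of degree at most one, `q` edges between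
them and `r` edges to the `k` other vertices -/
noncomputable def uu (k s q r : ℕ) : ℚ :=
  s.factorial * (k : ℚ) ^ r / 2 ^ q * (ifac ((s : ℤ) - 2 * q - r) * ifac q * ifac r)

theorem uu_succ (k s q r : ℕ) : uu k (s + 1) q r =
    uu k s q r + (if r = 0 then 0 else k * uu k s q (r - 1)) +
      (if q = 0 then 0 else s * uu k (s - 1) (q - 1) r) := by
  have hp := ifac_mul ((s : ℤ) + 1 - 2 * q - r)
  have hq := ifac_mul (q : ℤ)
  have hr := ifac_mul (r : ℤ)
  have e1 : (s : ℤ) + 1 - 2 * q - r - 1 = (s : ℤ) - 2 * q - r := by ring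
  rw [e1] at hp
  have h1 : (if r = 0 then 0 else k * uu k s q (r - 1)) =
      s.factorial * (k : ℚ) ^ r / 2 ^ q *
        (ifac ((s : ℤ) + 1 - 2 * q - r) * ifac q * ((r : ℚ) * ifac r)) := by
    cases r with
    | zero => simp
    | succ r =>
      rw [if_neg (by omega)]
      have e2 : (((r + 1 : ℕ) : ℤ) : ℚ) * ifac ((r + 1 : ℕ) : ℤ) = ifac (r : ℤ) := by
        rw [ifac_mul]
        congr 1
        push_cast
        ring
      have e3 : (((r + 1 : ℕ) : ℤ) : ℚ) = ((r + 1 : ℕ) : ℚ) := by push_cast; rfl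
      rw [e3] at e2
      rw [e2]
      unfold uu
      have e4 : (s : ℤ) + 1 - 2 * q - ((r + 1 : ℕ) : ℤ) = (s : ℤ) - 2 * q - r := by
        push_cast
        ring
      rw [e4]
      simp only [Nat.add_sub_cancel]
      rw [pow_succ]
      ring
  have h2 : (if q = 0 then 0 else s * uu k (s - 1) (q - 1) r) =
      s.factorial * (k : ℚ) ^ r / 2 ^ q *
        (2 * (ifac ((s : ℤ) + 1 - 2 * q - r) * ((q : ℚ) * ifac q) * ifac r)) := by
    cases q with
    | zero => simp
    | succ q =>
      rw [if_neg (by omega)]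
      have e2 : (((q + 1 : ℕ) : ℤ) : ℚ) * ifac ((q + 1 : ℕ) : ℤ) = ifac (q : ℤ) := by
        rw [ifac_mul]
        congr 1
        push_cast
        ring
      have e3 : (((q + 1 : ℕ) : ℤ) : ℚ) = ((q + 1 : ℕ) : ℚ) := by push_cast; rfl
      rw [e3] at e2
      rw [e2]
      cases s with
      | zero =>
        have e4 : ifac (((0 : ℕ) : ℤ) + 1 - 2 * ((q + 1 : ℕ) : ℤ) - r) = 0 := by
          apply ifac_neg
          push_cast
          omega
        rw [e4]
        simp
      | succ s =>
        unfold uu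
        have e4 : ((s + 1 : ℕ) : ℤ) + 1 - 2 * ((q + 1 : ℕ) : ℤ) - r = (s : ℤ) - 2 * q - r := by
          push_cast
          ring
        rw [e4]
        simp only [Nat.add_sub_cancel]
        rw [Nat.factorial_succ, pow_succ]
        push_cast
        field_simp
  rw [h1, h2]
  unfold uu
  have e5 : ((s + 1 : ℕ) : ℤ) - 2 * q - r = (s : ℤ) + 1 - 2 * q - r := by push_cast; ring
  rw [e5, ← hp, Nat.factorial_succ]
  have e6 : ((((s : ℤ) + 1 - 2 * q - r : ℤ)) : ℚ) = (s : ℚ) + 1 - 2 * q - r := by push_cast; ring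
  rw [e6]
  push_cast
  ring

/-- `tau k s j`: the number of forests of the following kind: `j` edges joining `s` labelled
vertices of degree at most one among each other or to `k` other vertices -/
noncomputable def tau (k s j : ℕ) : ℚ := ∑ x ∈ antidiagonal j, uu k s x.1 x.2

theorem tau_zero_right (k s : ℕ) : tau k s 0 = 1 := by
  unfold tau uu
  have h4 : (s.factorial : ℚ) ≠ 0 := by exact_mod_cast Nat.factorial_ne_zero s
  simp only [Finset.Nat.antidiagonal_zero, Finset.sum_singleton, Nat.cast_zero, mul_zero, sub_zero,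
    pow_zero, mul_one, div_one]
  rw [ifac_natCast]
  have : ifac 0 = 1 := by
    have := ifac_natCast 0
    simpa using this
  rw [this]
  field_simp

theorem tau_eq_zero {k s j : ℕ} (h : s < j) : tau k s j = 0 := by
  unfold tau
  refine Finset.sum_eq_zero fun x hx => ?_
  have hx' : x.1 + x.2 = j := Finset.HasAntidiagonal.mem_antidiagonal.1 hx
  unfold uu
  rw [ifac_neg (by omega)]
  ring

theorem tau_succ (k s j : ℕ) : tau k (s + 1) (j + 1) =
    tau k s (j + 1) + k * tau k s j + s * tau k (s - 1) j := by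
  unfold tau
  have h1 : ∑ x ∈ antidiagonal (j + 1), uu k (s + 1) x.1 x.2 =
      ∑ x ∈ antidiagonal (j + 1), uu k s x.1 x.2 +
      ∑ x ∈ antidiagonal (j + 1), (if x.2 = 0 then 0 else k * uu k s x.1 (x.2 - 1)) +
      ∑ x ∈ antidiagonal (j + 1), (if x.1 = 0 then 0 else s * uu k (s - 1) (x.1 - 1) x.2) := by
    rw [← Finset.sum_add_distrib, ← Finset.sum_add_distrib]
    exact Finset.sum_congr rfl fun x _ => uu_succ _ _ _ _
  rw [h1]
  congr 1
  · congr 1
    rw [Finset.Nat.sum_antidiagonal_succ', Finset.mul_sum]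
    simp
  · rw [Finset.Nat.sum_antidiagonal_succ, Finset.mul_sum]
    simp

theorem wt_Y_low_succ (m k s : ℕ) :
    wt (m + 1) (Y g (m + 1) k (s + 1) Set.univ {0, 1}) =
      wt (m + 1) (Y g (m + 1) k s Set.univ {0, 1}) +
        k * wt m (Y g m k s Set.univ {0, 1}) + s * wt m (Y g m k (s - 1) Set.univ {0, 1}) := by
  rw [Y_low_succ]
  unfold wt
  rw [Nat.factorial_succ, pow_succ]
  have h4 : (m.factorial : ℚ) ≠ 0 := by exact_mod_cast Nat.factorial_ne_zero m
  have h5 : (m : ℚ) + 1 ≠ 0 := by positivity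
  push_cast
  field_simp
  ring

theorem wt_Y_low (k : ℕ) : ∀ s m : ℕ, wt m (Y g m k s Set.univ {0, 1}) =
    ∑ j ∈ range (m + 1), tau k s j * Mw g k (m - j) := by
  intro s
  induction s using Nat.strong_induction_on with
  | _ s ih =>
    intro m
    cases s with
    | zero =>
      rw [Y_zero_right]
      rw [Finset.sum_range_succ', Finset.sum_eq_zero, zero_add, tau_zero_right, one_mul]
      · rfl
      · intro j _
        rw [tau_eq_zero (by omega), zero_mul]
    | succ s =>
      cases m with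
      | zero =>
        rw [Y_low_zero, ih s (by omega)]
        simp [tau_zero_right]
      | succ m =>
        rw [wt_Y_low_succ, ih s (by omega), ih s (by omega), ih (s - 1) (by omega)]
        rw [Finset.sum_range_succ' (fun j => tau k (s + 1) j * Mw g k (m + 1 - j))]
        rw [Finset.sum_range_succ' (fun j => tau k s j * Mw g k (m + 1 - j))]
        rw [tau_zero_right, tau_zero_right]
        have h1 : ∀ j ∈ range (m + 1), tau k (s + 1) (j + 1) * Mw g k (m + 1 - (j + 1)) =
            tau k s (j + 1) * Mw g k (m + 1 - (j + 1)) + k * (tau k s j * Mw g k (m - j)) +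
              s * (tau k (s - 1) j * Mw g k (m - j)) := by
          intro j _
          rw [tau_succ]
          have e : m + 1 - (j + 1) = m - j := by omega
          rw [e]
          ring
        rw [Finset.sum_congr rfl h1, Finset.sum_add_distrib, Finset.sum_add_distrib,
          ← Finset.mul_sum, ← Finset.mul_sum]
        ring

/-- step B -/
theorem step_B (n m : ℕ) : Dw g n m =
    ∑ s ∈ range (n + 1), ((-1) ^ s * (n.choose s : ℚ)) *
      ∑ j ∈ range (m + 1), tau (n - s) s j * Mw g (n - s) (m - j) := by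
  unfold Dw
  have hs : ({k : ℕ | 2 ≤ k} : Set ℕ) = Set.univ \ {0, 1} := by
    ext k
    simp only [Set.mem_ofPred_eq, Set.mem_sdiff, Set.mem_insert_iff, Set.mem_singleton_iff,
      Set.mem_univ, true_and]
    omega
  have h1 := Xs_ie_fin (g := g) m n (a := Set.univ) (b := {0, 1}) (Set.subset_univ _)
  rw [← hs] at h1
  have h2 := cast_wt_sum (range (n + 1)) m _ (fun s => (n.choose s : ℤ) * (-1) ^ s)
    (fun s => Y g m (n - s) s Set.univ {0, 1}) (by
      rw [h1]
      exact Finset.sum_congr rfl fun s _ => by ring)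
  rw [h2]
  refine Finset.sum_congr rfl fun s _ => ?_
  rw [wt_Y_low]
  push_cast
  ring

/-- step A -/
theorem step_A (k m : ℕ) : Mw g k m =
    ∑ i ∈ range (k.choose 2 + 1), (simpleCount g k i : ℚ) *
      ((∑ b ∈ range (i + 1), (-1) ^ b * (i.choose b : ℚ) * ((k : ℚ) / 2 + ((i - b : ℕ) : ℚ)) ^ m) /
        m.factorial) := by
  unfold Mw wt
  have h1 := congrArg (fun z : ℤ => (z : ℚ)) (Xs_univ (g := g) m k)
  push_cast at h1
  rw [h1, Finset.sum_div]
  refine Finset.sum_congr rfl fun i _ => ?_
  rw [mul_div_assoc]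
  congr 1
  rw [Finset.sum_div, Finset.sum_div]
  refine Finset.sum_congr rfl fun b _ => ?_
  have h2 : ((k : ℚ) + 2 * ((i - b : ℕ) : ℚ)) ^ m =
      2 ^ m * ((k : ℚ) / 2 + ((i - b : ℕ) : ℚ)) ^ m := by
    rw [← mul_pow]
    congr 1
    ring
  rw [h2]
  have h4 : (m.factorial : ℚ) ≠ 0 := by exact_mod_cast Nat.factorial_ne_zero m
  field_simp

end KernelCount
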