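import Mathlib
import Pool.Agent.Lib.MP_b69e89_co.Main1

/-!
# MP_b69e89_co : the explicit transformation
-/

namespace KernelCount

open Finset

variable {g : ℕ}

theorem τ_eq_tau (k s j : ℕ) : τ k s j = tau k s j := by
  unfold τ tau
  refine Finset.sum_congr rfl fun x _ => ?_
  unfold uu
  by_cases h : 2 * x.1 + x.2 ≤ s
  · rw [if_pos h]
    have e : (s : ℤ) - 2 * x.1 - x.2 = ((s - 2 * x.1 - x.2 : ℕ) : ℤ) := by omega
    rw [e, ifac_natCast, ifac_natCast, ifac_natCast]
    have h1 : ((s - 2 * x.1 - x.2).factorial : ℚ) ≠ 0 := by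
      exact_mod_cast Nat.factorial_ne_zero _
    have h2 : (x.1.factorial : ℚ) ≠ 0 := by exact_mod_cast Nat.factorial_ne_zero _
    have h3 : (x.2.factorial : ℚ) ≠ 0 := by exact_mod_cast Nat.factorial_ne_zero _
    field_simp
  · rw [if_neg h, ifac_neg (by omega)]
    ring

theorem Mw_eq (k m : ℕ) : Mw g k m =
    ∑ i ∈ range (k.choose 2 + 1), (simpleCount g k i : ℚ) * P k i m := step_A k m

/-- the linear transformation from simple graphs to kernels -/
theorem kernelCount_eq_T (n m : ℕ) : kernelCount g n m =
    ∑ k ∈ range (n + 1), ∑ i ∈ range (k.choose 2 + 1), T n m k i * (simpleCount g k i : ℚ) := by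
  -- write everything as a sum over `a, s, k` with `a + s + k = n`
  let F : ℕ → ℕ → ℚ := fun a k => if a ≤ m then
    (-1) ^ (n - k) * (n.factorial / (a.factorial * (n - k - a).factorial * k.factorial) : ℚ) *
      (∏ x ∈ range a, ((m : ℚ) - x - 1 / 2)) *
      ∑ j ∈ range (m - a + 1), τ k (n - k - a) j * Mw g k (m - a - j) else 0
  have h1 : kernelCount g n m = ∑ a ∈ range (n + 1), ∑ k ∈ range (n - a + 1), F a k := by
    rw [step_C]
    refine Finset.sum_congr rfl fun a ha => ?_
    have ha' : a ≤ n := Nat.lt_succ_iff.1 (Finset.mem_range.1 ha)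
    by_cases h : a ≤ m
    · rw [if_pos h, step_B, ← Finset.sum_range_reflect, Finset.mul_sum]
      refine Finset.sum_congr rfl fun k hk => ?_
      have hk' : k ≤ n - a := Nat.lt_succ_iff.1 (Finset.mem_range.1 hk)
      have e1 : n - a + 1 - 1 - k = n - a - k := by omega
      have e2 : n - a - (n - a - k) = k := by omega
      have e3 : n - a - k = n - k - a := by omega
      rw [e1, e2]
      simp only [F]
      rw [if_pos h]
      rw [e3]
      have h2 : ((n.choose a : ℕ) : ℚ) * ((n - a).choose (n - k - a) : ℕ) =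
          n.factorial / (a.factorial * (n - k - a).factorial * k.factorial) := by
        have h3 := Nat.choose_mul_factorial_mul_factorial ha'
        have h4 : n - k - a ≤ n - a := by omega
        have h5 := Nat.choose_mul_factorial_mul_factorial h4
        have e4 : n - a - (n - k - a) = k := by omega
        rw [e4] at h5
        have h6 : (a.factorial : ℚ) ≠ 0 := by exact_mod_cast Nat.factorial_ne_zero _
        have h7 : ((n - k - a).factorial : ℚ) ≠ 0 := by exact_mod_cast Nat.factorial_ne_zero _
        have h8 : (k.factorial : ℚ) ≠ 0 := by exact_mod_cast Nat.factorial_ne_zero _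
        rw [eq_div_iff (by positivity), ← h3, ← h5]
        push_cast
        ring
      rw [← h2]
      have h9 : ((-1 : ℚ)) ^ (n - k) = (-1) ^ a * (-1) ^ (n - k - a) := by
        rw [← pow_add]
        congr 1
        omega
      rw [h9]
      have h10 : ∑ j ∈ range (m - a + 1), tau k (n - k - a) j * Mw g k (m - a - j) =
          ∑ j ∈ range (m - a + 1), τ k (n - k - a) j * Mw g k (m - a - j) :=
        Finset.sum_congr rfl fun j _ => by rw [τ_eq_tau]
      rw [h10]
      ring
    · rw [if_neg h]
      symm
      refine Finset.sum_eq_zero fun k _ => ?_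
      simp only [F]
      rw [if_neg h]
  have h2 : ∑ a ∈ range (n + 1), ∑ k ∈ range (n - a + 1), F a k =
      ∑ k ∈ range (n + 1), ∑ a ∈ range (n - k + 1), F a k := by
    refine Finset.sum_comm' ?_
    intro a k
    simp only [Finset.mem_range]
    omega
  rw [h1, h2]
  refine Finset.sum_congr rfl fun k _ => ?_
  have h3 : ∀ a, F a k = ∑ i ∈ range (k.choose 2 + 1), (if a ≤ m then
      (-1) ^ (n - k) * (n.factorial / (a.factorial * (n - k - a).factorial * k.factorial) : ℚ) *
      (∏ x ∈ range a, ((m : ℚ) - x - 1 / 2)) *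
      ∑ j ∈ range (m - a + 1), τ k (n - k - a) j * P k i (m - a - j) else 0) *
        (simpleCount g k i : ℚ) := by
    intro a
    simp only [F]
    by_cases h : a ≤ m
    · simp only [if_pos h]
      have h4 : ∑ j ∈ range (m - a + 1), τ k (n - k - a) j * Mw g k (m - a - j) =
          ∑ i ∈ range (k.choose 2 + 1), (∑ j ∈ range (m - a + 1),
            τ k (n - k - a) j * P k i (m - a - j)) * (simpleCount g k i : ℚ) := by
        simp only [Finset.sum_mul]
        rw [Finset.sum_comm]
        refine Finset.sum_congr rfl fun j _ => ?_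
        rw [Mw_eq, Finset.mul_sum]
        refine Finset.sum_congr rfl fun i _ => ?_
        ring
      rw [h4, Finset.mul_sum]
      refine Finset.sum_congr rfl fun i _ => ?_
      ring
    · simp only [if_neg h]
      simp
  rw [Finset.sum_congr rfl (fun a _ => h3 a), Finset.sum_comm]
  refine Finset.sum_congr rfl fun i _ => ?_
  unfold T
  rw [Finset.mul_sum, Finset.sum_mul]
  refine Finset.sum_congr rfl fun a _ => ?_
  by_cases h : a ≤ m
  · simp only [if_pos h]
    ring
  · simp only [if_neg h]
    ring

/-- on the diagonal `k = n` the transformation is `P` -/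
theorem T_self (n m i : ℕ) : T n m n i = P n i m := by
  unfold T
  rw [Nat.sub_self, pow_zero, one_mul, Finset.sum_range_one, if_pos (Nat.zero_le _)]
  have h1 : (n.factorial : ℚ) ≠ 0 := by exact_mod_cast Nat.factorial_ne_zero _
  have h2 : ∑ j ∈ range (m - 0 + 1), τ n (0 - 0) j * P n i (m - 0 - j) = P n i m := by
    rw [Finset.sum_eq_single 0]
    · rw [τ_eq_tau, tau_zero_right]
      simp
    · intro j _ hj
      rw [τ_eq_tau, tau_eq_zero (by omega), zero_mul]
    · intro h
      exact absurd (Finset.mem_range.2 (Nat.succ_pos _)) h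
  rw [h2]
  simp [h1]

theorem P_eq_fwdDiff (k i j : ℕ) :
    P k i j = ((fwdDiff (1 : ℚ))^[i] (fun r : ℚ => r ^ j)) ((k : ℚ) / 2) / j.factorial := by
  unfold P
  rw [fwdDiff_iter_eq_sum_shift, ← Finset.sum_range_reflect]
  congr 1
  refine Finset.sum_congr rfl fun b hb => ?_
  have hb' : b ≤ i := Nat.lt_succ_iff.1 (Finset.mem_range.1 hb)
  have e1 : i + 1 - 1 - b = i - b := by omega
  have e2 : i - (i - b) = b := by omega
  rw [e1, e2, Nat.choose_symm hb']
  simp only [zsmul_eq_mul, nsmul_eq_mul, mul_one]
  push_cast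
  ring

theorem P_eq_zero {k i j : ℕ} (h : j < i) : P k i j = 0 := by
  rw [P_eq_fwdDiff, fwdDiff_iter_pow_eq_zero_of_lt h]
  simp

theorem P_self (k i : ℕ) : P k i i = 1 := by
  rw [P_eq_fwdDiff, fwdDiff_iter_eq_factorial]
  have h1 : (i.factorial : ℚ) ≠ 0 := by exact_mod_cast Nat.factorial_ne_zero _
  simp [h1]

end KernelCount
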