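import Mathlib
import Pool.Agent.Lib.MP_b69e89_co.Trans

/-!
# MP_b69e89_co : the closed form when all multigraphs embed
-/

namespace KernelCount

open Finset Function

variable {g : ℕ}

/-- sums over all functions of a product over the degrees -/
theorem sum_prod_deg {n h : ℕ} (w : ℕ → ℚ) :
    ∑ f : Fin h → Fin n, ∏ v, w (Deg f v) =
      h.factorial * PowerSeries.coeff h ((PowerSeries.mk fun d => w d / d.factorial) ^ n) := by
  classical
  -- the multiset of values
  let ms : (Fin h → Fin n) → Sym (Fin n) h := fun f => ⟨Multiset.map f univ.val, by simp⟩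
  have hdeg : ∀ f : Fin h → Fin n, ∀ v, Deg f v = (ms f : Multiset (Fin n)).count v := by
    intro f v
    rw [Deg_eq_card_filter]
    show _ = Multiset.count v (Multiset.map f univ.val)
    rw [Multiset.count_map, Finset.card_def, Finset.filter_val]
    congr 1
    refine Multiset.filter_congr fun a _ => ?_
    exact eq_comm
  have h1 : ∑ f : Fin h → Fin n, ∏ v, w (Deg f v) =
      ∑ M : Sym (Fin n) h, ∑ f : Fin h → Fin n, if ms f = M then
        ∏ v, w ((M : Multiset (Fin n)).count v) else 0 := by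
    rw [Finset.sum_comm]
    refine Finset.sum_congr rfl fun f _ => ?_
    rw [Finset.sum_ite_eq]
    rw [if_pos (Finset.mem_univ _)]
    exact Finset.prod_congr rfl fun v _ => by rw [hdeg]
  have h2 : ∀ M : Sym (Fin n) h, ∑ f : Fin h → Fin n, (if ms f = M then
        ∏ v, w ((M : Multiset (Fin n)).count v) else 0) =
      h.factorial * ∏ v, (w ((M : Multiset (Fin n)).count v) /
        ((M : Multiset (Fin n)).count v).factorial) := by
    intro M
    rw [← Finset.sum_filter, Finset.sum_const, nsmul_eq_mul]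
    have h3 := card_seq (M : Multiset (Fin n)) M.2
    have h4 : Nat.card {p : Fin h → Fin n // Multiset.map p univ.val = (M : Multiset (Fin n))} =
        (univ.filter fun f : Fin h → Fin n => ms f = M).card := by
      rw [Nat.card_eq_fintype_card, Fintype.card_subtype]
      congr 1
      ext f
      simp only [Finset.mem_filter, Finset.mem_univ, true_and]
      exact ⟨fun h => Subtype.ext h, fun h => congrArg Subtype.val h⟩
    rw [h4] at h3
    rw [Finset.prod_div_distrib, ← h3]
    have h5 : (∏ v, (((M : Multiset (Fin n)).count v).factorial : ℚ)) ≠ 0 := by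
      refine Finset.prod_ne_zero_iff.2 fun v _ => ?_
      exact_mod_cast Nat.factorial_ne_zero _
    push_cast
    field_simp
  rw [h1, Finset.sum_congr rfl (fun M _ => h2 M), ← Finset.mul_sum]
  congr 1
  have h6 : (PowerSeries.mk fun d => w d / d.factorial) ^ n =
      ∏ _v : Fin n, (PowerSeries.mk fun d => w d / (d.factorial : ℚ)) := by
    rw [Finset.prod_const, Finset.card_univ, Fintype.card_fin]
  rw [h6, PowerSeries.coeff_prod]
  simp only [PowerSeries.coeff_mk]
  refine Finset.sum_bij' (fun M _ => Multiset.toFinsupp (M : Multiset (Fin n)))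
    (fun l hl => ⟨Finsupp.toMultiset l, ?_⟩) ?_ ?_ ?_ ?_ ?_
  · rw [Finset.mem_finsuppAntidiag] at hl
    rw [Finsupp.card_toMultiset, Finsupp.sum_fintype _ _ (fun _ => rfl)]
    exact hl.1
  · intro M _
    rw [Finset.mem_finsuppAntidiag]
    refine ⟨?_, Finset.subset_univ _⟩
    simp only [Multiset.toFinsupp_apply]
    rw [Multiset.sum_count_eq_card (fun a _ => Finset.mem_univ a)]
    exact M.2
  · intro l _
    exact Finset.mem_univ _
  · intro M _
    apply Subtype.ext
    simp
  · intro l _
    simp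
  · intro M _
    rfl

theorem sum_ind_deg (n m : ℕ) :
    ((∑ f : Fin m × Bool → Fin n, ∏ v, ind (3 ≤ Deg f v) : ℤ) : ℚ) =
      (2 * m).factorial * PowerSeries.coeff (2 * m) (E3 ^ n) := by
  classical
  have hE : E3 = PowerSeries.mk fun d => (if 3 ≤ d then (1 : ℚ) else 0) / d.factorial := by
    unfold E3
    congr 1
    funext d
    by_cases h : 3 ≤ d <;> simp [h]
  rw [hE, ← sum_prod_deg]
  push_cast
  have e : Fin m × Bool ≃ Fin (2 * m) := Fintype.equivFinOfCardEq (by simp [mul_comm])
  refine Fintype.sum_equiv (Equiv.arrowCongr e (Equiv.refl _)) _ _ fun f => ?_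
  refine Finset.prod_congr rfl fun v _ => ?_
  have h1 : Deg ((Equiv.arrowCongr e (Equiv.refl (Fin n))) f) v = Deg f v := by
    have h2 : (Equiv.arrowCongr e (Equiv.refl (Fin n))) f = f ∘ e.symm := rfl
    rw [h2, Deg_comp_equiv]
  rw [h1]
  by_cases h : 3 ≤ Deg f v
  · rw [ind_of h, if_pos h]; norm_num
  · rw [ind_of_not h, if_neg h]; norm_num

/-- the closed form -/
theorem kernelCount_of_all {n m : ℕ}
    (h : ∀ f : Fin m × Bool → Fin n, (∀ v, 3 ≤ Deg f v) → EmbH g (flipE (Fin m)) f) :
    kernelCount g n m = closed n m := by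
  rw [kernelCount_eq]
  have h1 : ((Xs g m (fun _ : Fin n => {k : ℕ | 3 ≤ k}) : ℤ) : ℚ) =
      ((∑ f : Fin m × Bool → Fin n, ∏ v, ind (3 ≤ Deg f v) : ℤ) : ℚ) := by
    rw [Xs_eq_sum]
    congr 1
    refine Finset.sum_congr rfl fun f _ => ?_
    have h3 : ∏ v, ind (Deg f v ∈ {k : ℕ | 3 ≤ k}) = ∏ v, ind (3 ≤ Deg f v) := rfl
    rw [h3]
    by_cases h2 : ∀ v, 3 ≤ Deg f v
    · rw [ind_of (h f h2), one_mul]
    · push Not at h2
      obtain ⟨v, hv⟩ := h2
      have h4 : ∏ v, ind (3 ≤ Deg f v) = 0 :=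
        Finset.prod_eq_zero (Finset.mem_univ v) (ind_of_not (by omega))
      rw [h4, mul_zero]
  rw [sum_ind_deg] at h1
  unfold closed
  have h5 : (Xs g m (fun _ : Fin n => {k : ℕ | 3 ≤ k}) : ℚ) =
      ((Xs g m (fun _ : Fin n => {k : ℕ | 3 ≤ k}) : ℤ) : ℚ) := by push_cast; rfl
  rw [h5, h1]
  ring

/-- if the complete graph embeds, all multigraphs do -/
theorem embH_of_complete {n m : ℕ} {ends : {p : Sym2 (Fin n) // ¬ p.IsDiag} → Sym2 (Fin n)}
    (hends : ∀ p, ends p = p.1) (h : EmbedsOn g ends) (f : Fin m × Bool → Fin n) :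
    EmbH g (flipE (Fin m)) f := by
  rw [embH_flip_iff]
  refine h.of_subset _ fun e => ?_
  by_cases hd : (s(f (e, false), f (e, true))).IsDiag
  · exact Or.inl hd
  · exact Or.inr ⟨⟨_, hd⟩, hends _⟩

end KernelCount
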