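import Mathlib
import Pool.Agent.Lib.MP_b69e89_co.Closed

/-!
# MP_b69e89_co : `K_4` embeds on the sphere, `K_7` on the torus
-/

namespace KernelCount

open Equiv Equiv.Perm Function Empire

theorem cyc_flipE (m : ℕ) : cyc (flipE (Fin m)) = m := by
  have h : ∀ x y : Fin m × Bool, (flipE (Fin m)).SameCycle x y ↔ x.1 = y.1 := by
    intro x y
    constructor
    · intro hs
      exact eq_of_sameCycle (f := fun x : Fin m × Bool => x.1) (fun _ => rfl) hs
    · intro he
      obtain ⟨a, b⟩ := x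
      obtain ⟨a', b'⟩ := y
      have he' : a = a' := he
      subst he'
      by_cases hb : b = b'
      · subst hb; exact SameCycle.refl _ _
      · refine ⟨1, ?_⟩
        rw [zpow_one, flipE_apply]
        cases b <;> cases b' <;> simp_all
  unfold cyc
  have h2 : Nat.card (Quotient (SameCycle.setoid (flipE (Fin m)))) = Nat.card (Fin m) := by
    refine Nat.card_eq_of_bijective (Quotient.lift (fun x : Fin m × Bool => x.1)
      (fun x y hxy => (h x y).1 hxy)) ⟨?_, ?_⟩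
    · intro a b
      induction a using Quotient.inductionOn with | _ a => ?_
      induction b using Quotient.inductionOn with | _ b => ?_
      intro hab
      exact Quotient.sound ((h a b).2 hab)
    · intro i
      exact ⟨Quotient.mk _ (i, false), rfl⟩
  rw [h2]
  simp

theorem two_mul_cyc {H : Type} [Finite H] {α : Perm H} (hα : ∀ h, α (α h) = h)
    (hne : ∀ h, α h ≠ h) : 2 * cyc α = Nat.card H := by
  classical
  have := Fintype.ofFinite H
  obtain ⟨m, hm⟩ : ∃ m, Nat.card H = 2 * m := by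
    have h1 : 2 ∣ α.support.card := Equiv.Perm.two_dvd_card_support (by
      ext h
      simp [pow_two, hα])
    have h2 : α.support = Finset.univ := by
      ext h
      simp [hne h]
    rw [h2, Finset.card_univ, ← Nat.card_eq_fintype_card] at h1
    exact h1
  obtain ⟨e, he⟩ := exists_flip_equiv α hα hne hm
  rw [cyc_conj e α (flipE (Fin m)) he, cyc_flipE, hm]

/-- criterion for embedding the graph of a map -/
theorem embedsOn_of_map {g : ℕ} {V E : Type} (M : CombMap) (hM : M.GenusLE g) (src : M.D → V)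
    (h1 : ∀ d, src (M.σ d) = src d) (h2 : ∀ d e, src d = src e → M.σ.SameCycle d e)
    (hs : Surjective src) (ends : E → Sym2 V) (hinj : Injective ends)
    (hκ : ∀ e, ∃ d, s(src d, src (M.α d)) = ends e) : EmbedsOn g ends := by
  choose κ hκ using hκ
  choose r hr using hs
  refine ⟨M, hM, fun v => M.vert (r v), κ, ?_, ?_, ?_, ?_⟩
  · intro v w hvw
    have h3 := (M.vert_eq_iff _ _).1 hvw
    have h4 := eq_of_sameCycle h1 h3
    rw [hr, hr] at h4
    exact h4
  · intro e e' h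
    apply hinj
    rw [← hκ, ← hκ, h]
  · intro e e' h
    have h3 : e = e' := by
      apply hinj
      rw [← hκ, ← hκ, h, M.α_α]
      exact Sym2.eq_swap
    subst h3
    exact M.α_ne _ h.symm
  · intro e
    rw [← hκ e]
    have h3 : ∀ d, M.vert d = M.vert (r (src d)) := fun d =>
      (M.vert_eq_iff _ _).2 (h2 _ _ (hr _).symm)
    show s(M.vert (κ e), M.vert (M.α (κ e))) =
      s(M.vert (r (src (κ e))), M.vert (r (src (M.α (κ e)))))
    rw [← h3, ← h3]

/-! ### `K_4` -/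

def s4 : Fin 12 → Fin 12 := ![1, 2, 0, 4, 5, 3, 7, 8, 6, 10, 11, 9]
def a4 : Fin 12 → Fin 12 := ![3, 6, 9, 0, 11, 7, 1, 5, 10, 2, 8, 4]
def src4 : Fin 12 → Fin 4 := ![0, 0, 0, 1, 1, 1, 2, 2, 2, 3, 3, 3]

def f4 : Fin 12 → Fin 4 := ![0, 1, 2, 1, 0, 3, 2, 1, 3, 0, 2, 3]

def M4 : CombMap where
  D := Fin 12
  finite_D := inferInstance
  nonempty_D := inferInstance
  σ := ⟨s4, fun x => s4 (s4 x), by decide, by decide⟩
  α := ⟨a4, a4, by decide, by decide⟩
  α_ne := by decide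
  α_α := by decide
  conn := by
    intro S hσ hα d e h
    let rk : Fin 12 → ℕ := ![0, 2, 1, 1, 3, 2, 3, 3, 4, 2, 4, 3]
    have key : ∀ n : ℕ, ∀ x : Fin 12, rk x ≤ n → (S x ↔ S (0 : Fin 12)) := by
      intro n
      induction n with
      | zero =>
        intro x hx
        have : ∀ x : Fin 12, rk x ≤ 0 → x = 0 := by decide
        rw [this x hx]
      | succ n ih =>
        intro x hx
        have h3 : ∀ x : Fin 12, x = 0 ∨ rk (s4 x) < rk x ∨ rk (a4 x) < rk x := by decide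
        rcases h3 x with h4 | h4 | h4
        · rw [h4]
        · exact (hσ x).symm.trans (ih (s4 x) (by omega))
        · exact (hα x).symm.trans (ih (a4 x) (by omega))
    exact (key _ e le_rfl).2 ((key _ d le_rfl).1 h)

theorem M4_genusLE (g : ℕ) : M4.GenusLE g := by
  have h1 : 4 ≤ cyc M4.σ := le_cyc_of_label (k := 4) src4
    (by show ∀ x : Fin 12, src4 (s4 x) = src4 x; decide)
    (by show ∀ y : Fin 4, ∃ x : Fin 12, src4 x = y; decide)
  have h2 : 2 * cyc M4.α = 12 := by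
    rw [two_mul_cyc M4.α_α M4.α_ne]
    show Nat.card (Fin 12) = 12
    simp
  have h3 : 4 ≤ cyc (M4.σ * M4.α) :=
    le_cyc_of_label (k := 4) f4 
      (by show ∀ x : Fin 12, f4 (s4 (a4 x)) = f4 x; decide)
      (by show ∀ y : Fin 4, ∃ x : Fin 12, f4 x = y; decide)
  unfold CombMap.GenusLE
  have h1' : (4 : ℤ) ≤ cyc M4.σ := by exact_mod_cast h1
  have h2' : (2 : ℤ) * cyc M4.α = 12 := by exact_mod_cast h2
  have h3' : (4 : ℤ) ≤ cyc (M4.σ * M4.α) := by exact_mod_cast h3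
  omega

theorem K4_embeds (g : ℕ) :
    EmbedsOn g (fun p : {p : Sym2 (Fin 4) // ¬ p.IsDiag} => (p : Sym2 (Fin 4))) := by
  refine embedsOn_of_map M4 (M4_genusLE g) src4
    (by show ∀ x : Fin 12, src4 (s4 x) = src4 x; decide) ?_
    (by show ∀ y : Fin 4, ∃ x : Fin 12, src4 x = y; decide) _
    Subtype.val_injective ?_
  · intro d e h
    have h2 : ∀ d e : Fin 12, src4 d = src4 e → e = d ∨ e = s4 d ∨ e = s4 (s4 d) := by decide
    rcases h2 d e h with h3 | h3 | h3
    · exact ⟨0, h3.symm⟩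
    · exact ⟨1, h3.symm⟩
    · exact ⟨2, h3.symm⟩
  · rintro ⟨p, hp⟩
    induction p using Sym2.ind with | _ u v => ?_
    have huv : u ≠ v := by simpa using hp
    have h2 : ∀ u v : Fin 4, u ≠ v → ∃ d : Fin 12, src4 d = u ∧ src4 (a4 d) = v := by decide
    obtain ⟨d, hd1, hd2⟩ := h2 u v huv
    refine ⟨d, ?_⟩
    show s(src4 d, src4 (a4 d)) = s(u, v)
    rw [hd1, hd2]

/-! ### `K_7` -/

def s7 : Fin 7 × Fin 6 → Fin 7 × Fin 6 := fun x => (x.1, x.2 + 1)
def s7' : Fin 7 × Fin 6 → Fin 7 × Fin 6 := fun x => (x.1, x.2 - 1)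
def a7 : Fin 7 × Fin 6 → Fin 7 × Fin 6 := fun x =>
  (x.1 + (![1, 3, 2, 6, 4, 5] : Fin 6 → Fin 7) x.2, x.2 + 3)

/-- labels of the faces -/
def f7 : Fin 7 × Fin 6 → Fin 14 := fun x =>
  (![![0, 1, 2, 3, 4, 5], ![6, 7, 8, 1, 0, 9], ![2, 10, 11, 7, 6, 3], ![8, 12, 13, 10, 2, 1],
    ![11, 5, 4, 12, 8, 7], ![13, 9, 0, 5, 11, 10], ![4, 3, 6, 9, 13, 12]] :
    Fin 7 → Fin 6 → Fin 14) x.1 x.2

def M7 : CombMap where
  D := Fin 7 × Fin 6
  finite_D := inferInstance
  nonempty_D := inferInstance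
  σ := ⟨s7, s7', by decide, by decide⟩
  α := ⟨a7, a7, by decide, by decide⟩
  α_ne := by decide
  α_α := by decide
  conn := by
    intro S hσ hα d e h
    have hs : ∀ (v : Fin 7) (i : Fin 6), S (v, i + 1) ↔ S (v, i) := fun v i => hσ (v, i)
    have h2 : ∀ (v : Fin 7) (i : Fin 6), S (v, i) ↔ S (v, (0 : Fin 6)) := by
      intro v i
      have e1 : S (v, (1 : Fin 6)) ↔ S (v, (0 : Fin 6)) := hs v 0
      have e2 : S (v, (2 : Fin 6)) ↔ S (v, (1 : Fin 6)) := hs v 1
      have e3 : S (v, (3 : Fin 6)) ↔ S (v, (2 : Fin 6)) := hs v 2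
      have e4 : S (v, (4 : Fin 6)) ↔ S (v, (3 : Fin 6)) := hs v 3
      have e5 : S (v, (5 : Fin 6)) ↔ S (v, (4 : Fin 6)) := hs v 4
      fin_cases i
      · exact Iff.rfl
      · exact e1
      · exact e2.trans e1
      · exact e3.trans (e2.trans e1)
      · exact e4.trans (e3.trans (e2.trans e1))
      · exact e5.trans (e4.trans (e3.trans (e2.trans e1)))
    have h3 : ∀ v : Fin 7, S (v + 1, (0 : Fin 6)) ↔ S (v, (0 : Fin 6)) := by
      intro v
      have h4 := hα (v, (0 : Fin 6))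
      have h5 : S (v + 1, (3 : Fin 6)) ↔ S (v, (0 : Fin 6)) := h4
      exact (h2 _ _).symm.trans h5
    have h4 : ∀ x : Fin 7 × Fin 6, S x ↔ S ((0 : Fin 7), (0 : Fin 6)) := by
      rintro ⟨v, i⟩
      rw [h2 v i]
      have e1 : S ((1 : Fin 7), (0 : Fin 6)) ↔ S ((0 : Fin 7), (0 : Fin 6)) := h3 0
      have e2 : S ((2 : Fin 7), (0 : Fin 6)) ↔ S ((1 : Fin 7), (0 : Fin 6)) := h3 1
      have e3 : S ((3 : Fin 7), (0 : Fin 6)) ↔ S ((2 : Fin 7), (0 : Fin 6)) := h3 2
      have e4 : S ((4 : Fin 7), (0 : Fin 6)) ↔ S ((3 : Fin 7), (0 : Fin 6)) := h3 3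
      have e5 : S ((5 : Fin 7), (0 : Fin 6)) ↔ S ((4 : Fin 7), (0 : Fin 6)) := h3 4
      have e6 : S ((6 : Fin 7), (0 : Fin 6)) ↔ S ((5 : Fin 7), (0 : Fin 6)) := h3 5
      fin_cases v
      · exact Iff.rfl
      · exact e1
      · exact e2.trans e1
      · exact e3.trans (e2.trans e1)
      · exact e4.trans (e3.trans (e2.trans e1))
      · exact e5.trans (e4.trans (e3.trans (e2.trans e1)))
      · exact e6.trans (e5.trans (e4.trans (e3.trans (e2.trans e1))))
    exact (h4 e).2 ((h4 d).1 h)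

theorem M7_genusLE {g : ℕ} (hg : 1 ≤ g) : M7.GenusLE g := by
  have h1 : 7 ≤ cyc M7.σ := le_cyc_of_label (k := 7) (fun x : Fin 7 × Fin 6 => x.1)
    (by intro x; rfl) (fun i => ⟨(i, 0), rfl⟩)
  have h2 : 2 * cyc M7.α = 42 := by
    rw [two_mul_cyc M7.α_α M7.α_ne]
    show Nat.card (Fin 7 × Fin 6) = 42
    simp
  have h3 : 14 ≤ cyc (M7.σ * M7.α) := by
    refine le_cyc_of_label (k := 14) f7 ?_ ?_
    · show ∀ x : Fin 7 × Fin 6, f7 (s7 (a7 x)) = f7 x
      decide
    · show ∀ y : Fin 14, ∃ x : Fin 7 × Fin 6, f7 x = y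
      decide
  unfold CombMap.GenusLE
  have h1' : (7 : ℤ) ≤ cyc M7.σ := by exact_mod_cast h1
  have h2' : (2 : ℤ) * cyc M7.α = 42 := by exact_mod_cast h2
  have h3' : (14 : ℤ) ≤ cyc (M7.σ * M7.α) := by exact_mod_cast h3
  have hg' : (1 : ℤ) ≤ g := by exact_mod_cast hg
  omega

theorem K7_embeds {g : ℕ} (hg : 1 ≤ g) :
    EmbedsOn g (fun p : {p : Sym2 (Fin 7) // ¬ p.IsDiag} => (p : Sym2 (Fin 7))) := by
  refine embedsOn_of_map M7 (M7_genusLE hg) (fun x : Fin 7 × Fin 6 => x.1) (by intro x; rfl) ?_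
    (fun i => ⟨(i, 0), rfl⟩) _ Subtype.val_injective ?_
  · rintro ⟨v, i⟩ ⟨w, j⟩ h
    have h' : v = w := h
    subst h'
    have hs : ∀ i : Fin 6, M7.σ.SameCycle (v, i) (v, i + 1) := fun i => ⟨1, by rw [zpow_one]; rfl⟩
    have h2 : ∀ i : Fin 6, M7.σ.SameCycle (v, (0 : Fin 6)) (v, i) := by
      intro i
      have e1 : M7.σ.SameCycle (v, (0 : Fin 6)) (v, (1 : Fin 6)) := hs 0
      have e2 : M7.σ.SameCycle (v, (0 : Fin 6)) (v, (2 : Fin 6)) := e1.trans (hs 1)
      have e3 : M7.σ.SameCycle (v, (0 : Fin 6)) (v, (3 : Fin 6)) := e2.trans (hs 2)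
      have e4 : M7.σ.SameCycle (v, (0 : Fin 6)) (v, (4 : Fin 6)) := e3.trans (hs 3)
      have e5 : M7.σ.SameCycle (v, (0 : Fin 6)) (v, (5 : Fin 6)) := e4.trans (hs 4)
      fin_cases i
      · exact SameCycle.refl _ _
      · exact e1
      · exact e2
      · exact e3
      · exact e4
      · exact e5
    exact (h2 i).symm.trans (h2 j)
  · rintro ⟨p, hp⟩
    induction p using Sym2.ind with | _ u v => ?_
    have huv : u ≠ v := by simpa using hp
    have h2 : ∀ u v : Fin 7, u ≠ v → ∃ i : Fin 6, (a7 (u, i)).1 = v := by decide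
    obtain ⟨i, hi⟩ := h2 u v huv
    refine ⟨((u, i) : Fin 7 × Fin 6), ?_⟩
    show s(u, (a7 (u, i)).1) = s(u, v)
    rw [hi]

/-- embedding of smaller complete graphs -/
theorem complete_mono {g n N : ℕ} (hn : n ≤ N)
    (h : EmbedsOn g (fun p : {p : Sym2 (Fin N) // ¬ p.IsDiag} => (p : Sym2 (Fin N)))) :
    EmbedsOn g (fun p : {p : Sym2 (Fin n) // ¬ p.IsDiag} => (p : Sym2 (Fin n))) := by
  obtain ⟨M, hM, ι, κ, hι, hκ, hκ', he⟩ := h
  have hc : Injective (Fin.castLE hn) := Fin.castLE_injective hn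
  let φ : {p : Sym2 (Fin n) // ¬ p.IsDiag} → {p : Sym2 (Fin N) // ¬ p.IsDiag} := fun p =>
    ⟨Sym2.map (Fin.castLE hn) p.1, by
      obtain ⟨p, hp⟩ := p
      induction p using Sym2.ind with | _ u v => ?_
      have huv : u ≠ v := by simpa using hp
      simpa using huv⟩
  have hφ : Injective φ := by
    intro a b hab
    have := congrArg Subtype.val hab
    exact Subtype.ext (Sym2.map.injective hc this)
  refine ⟨M, hM, ι ∘ Fin.castLE hn, κ ∘ φ, hι.comp hc, fun a b hab => hφ (hκ _ _ hab),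
    fun a b => hκ' _ _, fun p => ?_⟩
  rw [Function.comp_apply, he]
  show Sym2.map ι (Sym2.map (Fin.castLE hn) p.1) = _
  rw [Sym2.map_map]

/-- the closed form when the complete graph embeds -/
theorem kernelCount_of_complete {g n N : ℕ} (hn : n ≤ N)
    (h : EmbedsOn g (fun p : {p : Sym2 (Fin N) // ¬ p.IsDiag} => (p : Sym2 (Fin N)))) (m : ℕ) :
    kernelCount g n m = closed n m :=
  kernelCount_of_all fun f _ => embH_of_complete (fun _ => rfl) (complete_mono hn h) f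

end KernelCount
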