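import Mathlib
import Pool.Agent.Lib.MP_b69e89_co.K47

/-!
# MP_b69e89_co : rotation systems with many faces
-/

namespace KernelCount

open Equiv Equiv.Perm Function Empire

/-- a cycle on a finite set with one prescribed value -/
theorem exists_cycleOn_apply {H : Type} [Finite H] (s : Set H) {a b : H} (ha : a ∈ s)
    (hb : b ∈ s) (hab : a ≠ b) : ∃ ρ : Perm H, ρ.IsCycleOn s ∧ ρ a = b := by
  classical
  obtain ⟨ρ, hρ, _⟩ := (Set.to_countable s).exists_cycleOn
  have hnt : s.Nontrivial := ⟨a, ha, b, hb, hab⟩
  have hne : ρ a ≠ a := hρ.apply_ne hnt ha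
  set c := ρ a with hc
  have hcs : c ∈ s := hρ.1.mapsTo ha
  refine ⟨swap c b * ρ * (swap c b)⁻¹, ?_, ?_⟩
  · have h1 := hρ.conj (g := swap c b)
    have h2 : (swap c b : Perm H) '' s = s := by
      ext x
      constructor
      · rintro ⟨y, hy, rfl⟩
        rcases swap_apply_def c b y with h
        rw [h]
        split_ifs
        · exact hb
        · exact hcs
        · exact hy
      · intro hx
        refine ⟨swap c b x, ?_, swap_apply_self _ _ _⟩
        rw [swap_apply_def]
        split_ifs
        · exact hb
        · exact hcs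
        · exact hx
    rwa [h2] at h1
  · rw [swap_inv, Perm.mul_apply, Perm.mul_apply, swap_apply_of_ne_of_ne hne.symm hab, ← hc,
      swap_apply_left]

theorem exists_cycleOn' {H : Type} [Finite H] (s : Set H) : ∃ ρ : Perm H, ρ.IsCycleOn s := by
  obtain ⟨ρ, hρ, _⟩ := (Set.to_countable s).exists_cycleOn
  exact ⟨ρ, hρ⟩

/-- assembling cyclic orders at the vertices -/
theorem exists_sigma {H V : Type} [Finite H] (f : H → V) (ρ : V → Perm H)
    (hρ : ∀ v, (ρ v).IsCycleOn {h | f h = v}) :
    ∃ σ : Perm H, (∀ h, σ h = ρ (f h) h) ∧ ∀ h h', σ.SameCycle h h' ↔ f h = f h' := by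
  have hf : ∀ h, f (ρ (f h) h) = f h := fun h => (hρ (f h)).1.mapsTo (x := h) rfl
  have hinj : Injective (fun h => ρ (f h) h) := by
    intro h h' heq
    have heq' : ρ (f h) h = ρ (f h') h' := heq
    have h1 : f h = f h' := by rw [← hf h, heq', hf]
    rw [h1] at heq'
    exact (ρ (f h')).injective heq'
  refine ⟨Equiv.ofBijective _ (Finite.injective_iff_bijective.1 hinj), fun h => rfl, ?_⟩
  set σ := Equiv.ofBijective _ (Finite.injective_iff_bijective.1 hinj) with hσ
  have hσa : ∀ h, σ h = ρ (f h) h := fun h => rfl
  intro h h'
  constructor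
  · intro hs
    exact eq_of_sameCycle (f := f) (fun x => by rw [hσa, hf]) hs
  · intro he
    have h1 : (ρ (f h)).SameCycle h h' := (hρ (f h)).2 (x := h) rfl (y := h') he.symm
    obtain ⟨n, _, hn⟩ := h1.exists_pow_eq'
    have h2 : ∀ n : ℕ, (σ ^ n) h = ((ρ (f h)) ^ n) h ∧ f ((σ ^ n) h) = f h := by
      intro n
      induction n with
      | zero => exact ⟨rfl, rfl⟩
      | succ n ih =>
        rw [pow_succ', pow_succ', Perm.mul_apply, Perm.mul_apply, hσa, hf]
        rw [ih.2, ih.1]
        exact ⟨rfl, rfl⟩
    exact ⟨n, by rw [zpow_natCast, (h2 n).1, hn]⟩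

/-- a labelling describing the cycles of a permutation, after multiplication with a swap -/
theorem lab_mul_swap {D L : Type} [Finite D] [DecidableEq D] [DecidableEq L] {p : Perm D}
    {ℓ : D → L} (h : ∀ x y, p.SameCycle x y ↔ ℓ x = ℓ y) {a b : D} (hab : ℓ a ≠ ℓ b) (x y : D) :
    (p * swap a b).SameCycle x y ↔
      (if ℓ x = ℓ b then ℓ a else ℓ x) = (if ℓ y = ℓ b then ℓ a else ℓ y) := by
  rw [sameCycle_mul_swap_iff (fun h' => hab ((h _ _).1 h'))]
  simp only [h]
  by_cases h1 : ℓ x = ℓ b <;> by_cases h2 : ℓ y = ℓ b
  · simp [h1, h2]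
  · rw [if_pos h1, if_neg h2]
    constructor
    · rintro (h3 | ⟨_, h3 | h3⟩)
      · exact absurd (h3.symm.trans h1) h2
      · exact h3.symm
      · exact absurd h3 h2
    · intro h3
      exact Or.inr ⟨Or.inr h1, Or.inl h3.symm⟩
  · rw [if_neg h1, if_pos h2]
    constructor
    · rintro (h3 | ⟨h3 | h3, _⟩)
      · exact absurd (h3.trans h2) h1
      · exact h3
      · exact absurd h3 h1
    · intro h3
      exact Or.inr ⟨Or.inl h3, Or.inr h2⟩
  · rw [if_neg h1, if_neg h2]
    constructor
    · rintro (h3 | ⟨h3 | h3, h4 | h4⟩)
      · exact h3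
      · rw [h3, h4]
      · exact absurd h4 h2
      · exact absurd h3 h1
      · exact absurd h3 h1
    · exact Or.inl

/-- a possibly disconnected map can be made connected -/
theorem embH_of_premap {g : ℕ} (c : ℕ) : ∀ {D V : Type} [Finite D] [Nonempty D] (σ α : Perm D)
    (_ : ∀ d, α (α d) = d) (_ : ∀ d, α d ≠ d) (comp : D → ℕ) (_ : ∀ d, comp d ≤ c)
    (_ : ∀ S : D → Prop, (∀ d, S (σ d) ↔ S d) → (∀ d, S (α d) ↔ S d) →
      ∀ d e, comp d = comp e → S d → S e)
    (f : D → V) (_ : ∀ d e, σ.SameCycle d e ↔ f d = f e) (_ : Surjective f)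
    (_ : (2 : ℤ) - 2 * g ≤ (cyc σ : ℤ) - cyc α + cyc (σ * α) - 2 * c), EmbH g α f := by
  classical
  induction c with
  | zero =>
    intro D V _ _ σ α hα hne comp hc hconn f hf hs hle
    let M : CombMap :=
      { D := D
        finite_D := inferInstance
        nonempty_D := inferInstance
        σ := σ
        α := α
        α_ne := hne
        α_α := hα
        conn := fun S h1 h2 d e => hconn S h1 h2 d e (by
          have h3 := hc d
          have h4 := hc e
          omega) }
    choose r hr using hs
    refine ⟨M, ?_, fun v => M.vert (r v), id, ?_, injective_id, fun _ => rfl, ?_⟩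
    · unfold CombMap.GenusLE
      have : (2 : ℤ) - 2 * g ≤ (cyc σ : ℤ) - cyc α + cyc (σ * α) := by
        push_cast at hle
        linarith
      exact this
    · intro v w h
      have h1 := (hf _ _).1 ((M.vert_eq_iff _ _).1 h)
      rwa [hr, hr] at h1
    · intro d
      exact (M.vert_eq_iff _ _).2 ((hf _ _).2 (hr _).symm)
  | succ c ih =>
    intro D V _ _ σ α hα hne comp hc hconn f hf hs hle
    by_cases h1 : ∃ d, comp d = c + 1
    · obtain ⟨d, hd⟩ := h1
      by_cases h2 : ∃ d', comp d' ≠ c + 1
      · obtain ⟨d', hd'⟩ := h2
        -- add an edge between `d` and `d'`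
        set q0 : Perm (D ⊕ Bool) := Perm.sumCongr σ 1 with hq0
        set α' : Perm (D ⊕ Bool) := Perm.sumCongr α bnot with hα'
        set q1 := q0 * swap (Sum.inl d) (Sum.inr false) with hq1
        set q2 := q1 * swap (Sum.inl d') (Sum.inr true) with hq2
        let ℓ0 : D ⊕ Bool → V ⊕ Bool := Sum.map f id
        have hl0 : ∀ x y, q0.SameCycle x y ↔ ℓ0 x = ℓ0 y := by
          rintro (x | x) (y | y)
          · rw [hq0, sameCycle_sumCongr_inl, hf]
            simp [ℓ0]
          · simp [hq0, not_sameCycle_sumCongr, ℓ0]
          · have : ¬ q0.SameCycle (Sum.inr x) (Sum.inl y) := fun h =>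
              not_sameCycle_sumCongr _ _ _ _ h.symm
            simp [this, ℓ0]
          · rw [hq0, sameCycle_sumCongr_inr]
            simp [ℓ0]
        have hl1 := lab_mul_swap hl0 (a := Sum.inl d) (b := Sum.inr false) (by simp [ℓ0])
        let ℓ1 : D ⊕ Bool → V ⊕ Bool := fun x =>
          if ℓ0 x = ℓ0 (Sum.inr false) then ℓ0 (Sum.inl d) else ℓ0 x
        have e1 : ℓ1 (Sum.inl d') = Sum.inl (f d') := by simp [ℓ1, ℓ0]
        have e2 : ℓ1 (Sum.inr true) = Sum.inr true := by simp [ℓ1, ℓ0]
        have hl2 := lab_mul_swap (ℓ := ℓ1) hl1 (a := Sum.inl d') (b := Sum.inr true) (by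
          rw [e1, e2]; simp)
        let f' : D ⊕ Bool → V := Sum.elim f (fun b => if b then f d' else f d)
        have hf' : ∀ x y, q2.SameCycle x y ↔ f' x = f' y := by
          intro x y
          rw [hq2, hq1, hl2]
          have h3 : ∀ x, (if ℓ1 x = ℓ1 (Sum.inr true) then ℓ1 (Sum.inl d') else ℓ1 x) =
              Sum.inl (f' x) := by
            rintro (x | x)
            · simp [ℓ1, ℓ0, f']
            · cases x
              · simp [ℓ1, ℓ0, f']
              · simp [ℓ1, ℓ0, f']
          rw [h3, h3]
          simp
        have hα2 : ∀ x, α' (α' x) = x := by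
          rintro (x | x)
          · simp [hα', hα]
          · simp [hα']
        have hne2 : ∀ x, α' x ≠ x := by
          rintro (x | x)
          · simp [hα', hne]
          · simp [hα']
        let comp' : D ⊕ Bool → ℕ :=
          Sum.elim (fun x => if comp x = c + 1 then comp d' else comp x) (fun _ => comp d')
        have hd'' : comp d' ≤ c := by
          have := hc d'
          omega
        have hembed : EmbH g α' f' := by
          refine ih q2 α' hα2 hne2 comp' ?_ ?_ f' hf' ?_ ?_
          · rintro (x | x)
            · show (if comp x = c + 1 then comp d' else comp x) ≤ c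
              split_ifs with h
              · exact hd''
              · have := hc x
                omega
            · exact hd''
          · intro S hσ hα3
            have hS : ∀ {x y}, f' x = f' y → (S x ↔ S y) := by
              intro x y hxy
              have := eq_of_sameCycle (f := S) (fun x => propext (hσ x)) ((hf' x y).2 hxy)
              rw [this]
            have hS0 : ∀ x y, comp x = comp y → (S (Sum.inl x) ↔ S (Sum.inl y)) := by
              have h5 := hconn (fun x => S (Sum.inl x)) (by
                intro x
                refine hS ?_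
                have := (hf (σ x) x).1 (sameCycle_apply_left.2 (SameCycle.refl _ _))
                exact this) (fun x => hα3 (Sum.inl x))
              exact fun x y hxy => ⟨h5 x y hxy, h5 y x hxy.symm⟩
            have h6 : S (Sum.inr false) ↔ S (Sum.inl d) := hS rfl
            have h7 : S (Sum.inr true) ↔ S (Sum.inl d') := hS rfl
            have h8 : S (Sum.inr true) ↔ S (Sum.inr false) := hα3 (Sum.inr false)
            have h9 : ∀ x, ∃ z : D, (S x ↔ S (Sum.inl z)) ∧ comp z = comp' x := by
              rintro (x | x)
              · by_cases h : comp x = c + 1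
                · refine ⟨d', ?_, ?_⟩
                  · rw [hS0 x d (h.trans hd.symm), ← h6, ← h8, h7]
                  · show comp d' = if comp x = c + 1 then comp d' else comp x
                    rw [if_pos h]
                · refine ⟨x, Iff.rfl, ?_⟩
                  show comp x = if comp x = c + 1 then comp d' else comp x
                  rw [if_neg h]
              · refine ⟨d', ?_, rfl⟩
                cases x
                · rw [← h8, h7]
                · exact h7
            intro x y hxy hx
            obtain ⟨z, hz, hz'⟩ := h9 x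
            obtain ⟨w, hw, hw'⟩ := h9 y
            exact hw.2 ((hS0 z w (by rw [hz', hw', hxy])).1 (hz.1 hx))
          · intro v
            obtain ⟨x, hx⟩ := hs v
            exact ⟨Sum.inl x, hx⟩
          · have c1 : cyc q0 = cyc σ + 2 := by
              rw [hq0, cyc_sumCongr, Empire.cyc_one]
              simp
            have c2 : cyc α' = cyc α + 1 := by
              rw [hα', cyc_sumCongr, cyc_bnot]
            have c3 : cyc (q0 * α') = cyc (σ * α) + 1 := by
              have : q0 * α' = Perm.sumCongr (σ * α) bnot := by
                ext x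
                rcases x with x | x <;> rfl
              rw [this, cyc_sumCongr, cyc_bnot]
            have c4 : cyc q2 ≥ cyc σ := by
              have h5 := cyc_mul_swap_ge q0 (Sum.inl d) (Sum.inr false)
              have h6 := cyc_mul_swap_ge q1 (Sum.inl d') (Sum.inr true)
              rw [← hq1] at h5
              rw [← hq2] at h6
              omega
            have c5 : cyc (q2 * α') + 1 ≥ cyc (σ * α) := by
              have e3 : ∀ x y : D ⊕ Bool, swap x y * α' = α' * swap (α' x) (α' y) := by
                intro x y
                rw [Equiv.mul_swap_eq_swap_mul, hα2, hα2]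
              have e4 : q2 * α' = q0 * α' * swap (α' (Sum.inl d)) (α' (Sum.inr false)) *
                  swap (α' (Sum.inl d')) (α' (Sum.inr true)) := by
                rw [hq2, hq1, mul_assoc, e3, ← mul_assoc, mul_assoc q0, e3, ← mul_assoc]
              rw [e4]
              have h5 := cyc_mul_swap_ge (q0 * α') (α' (Sum.inl d)) (α' (Sum.inr false))
              have h6 := cyc_mul_swap_ge (q0 * α' * swap (α' (Sum.inl d)) (α' (Sum.inr false)))
                (α' (Sum.inl d')) (α' (Sum.inr true))
              omega
            push_cast at hle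
            have c4' : (cyc q2 : ℤ) ≥ cyc σ := by exact_mod_cast c4
            have c5' : (cyc (q2 * α') : ℤ) + 1 ≥ cyc (σ * α) := by exact_mod_cast c5
            have c2' : (cyc α' : ℤ) = cyc α + 1 := by exact_mod_cast c2
            linarith
        exact hembed.mono id injective_id Sum.inl Sum.inl_injective (fun _ => rfl) (fun _ => rfl)
      · push Not at h2
        refine ih σ α hα hne (fun _ => 0) (fun _ => Nat.zero_le _) ?_ f hf hs ?_
        · intro S h3 h4 x y _
          exact hconn S h3 h4 x y (by rw [h2, h2])
        · push_cast at hle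
          linarith
    · push Not at h1
      refine ih σ α hα hne comp (fun x => ?_) hconn f hf hs ?_
      · have h3 := hc x
        have h4 := h1 x
        omega
      · push_cast at hle
        linarith

end KernelCount
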