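import Mathlib
import Pool.Agent.Lib.MP_b69e89_co.Rot
import Pool.Agent.Lib.MP_800721_co.Bridge

/-!
# MP_b69e89_co : multigraphs with minimum degree two and small excess embed
-/

namespace KernelCount

open Equiv Equiv.Perm Function Empire

/-- a cycle in the component of `h0` -/
theorem exists_cycle {H V : Type} [Finite H] (f : H → V) (α : Perm H) (hα : ∀ h, α (α h) = h)
    (hne : ∀ h, α h ≠ h) (T : H → H) (hT1 : ∀ h, f (T h) = f (α h)) (hT2 : ∀ h, T h ≠ α h)
    (R : V → V → Prop) (hR : Equivalence R) (hRα : ∀ h, R (f h) (f (α h))) (h0 : H) :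
    ∃ (S : Set H) (nxt : H → H), S.Nonempty ∧
      (∀ h ∈ S, nxt h ∈ S ∧ f (nxt h) = f (α h) ∧ nxt h ≠ α h) ∧
      (∀ h ∈ S, ∀ h' ∈ S, f h = f h' → h = h') ∧
      (∀ h ∈ S, ∀ h' ∈ S, nxt h = nxt h' → h = h') ∧ ∀ h ∈ S, R (f h0) (f h) := by
  classical
  let hs : ℕ → H := fun k => T^[k] h0
  have hs_succ : ∀ k, hs (k + 1) = T (hs k) := fun k => Function.iterate_succ_apply' T k h0
  let v : ℕ → V := fun k => f (hs k)
  have hex : ∃ j, ∃ i < j, v i = v j := by
    obtain ⟨a, b, hab, he⟩ := Finite.exists_ne_map_eq_of_infinite hs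
    rcases lt_or_gt_of_ne hab with h | h
    · exact ⟨b, a, h, congrArg f he⟩
    · exact ⟨a, b, h, congrArg f he.symm⟩
  set j := Nat.find hex with hj
  obtain ⟨i, hij, hvij⟩ := Nat.find_spec hex
  have hinj : ∀ a b, a < j → b < j → v a = v b → a = b := by
    intro a b ha hb hab
    by_contra hne'
    rcases lt_or_gt_of_ne hne' with h | h
    · exact Nat.find_min hex hb ⟨a, h, hab⟩
    · exact Nat.find_min hex ha ⟨b, h, hab.symm⟩
  have hinj' : ∀ a b, a < j → b < j → hs a = hs b → a = b := fun a b ha hb hab =>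
    hinj a b ha hb (congrArg f hab)
  have hlast : hs i ≠ α (hs (j - 1)) := by
    intro h
    have h1 : α (hs i) = hs (j - 1) := by rw [h, hα]
    have h2 : f (hs (i + 1)) = f (hs (j - 1)) := by
      rw [hs_succ, hT1, h1]
    by_cases h3 : i + 1 < j
    · have h4 : i + 1 = j - 1 := hinj _ _ h3 (by omega) h2
      have h5 : hs (i + 1) = α (hs i) := by rw [h4, h1]
      rw [hs_succ] at h5
      exact hT2 _ h5
    · have h4 : j - 1 = i := by omega
      rw [h4] at h1
      exact hne _ h1
  refine ⟨{h | ∃ k, i ≤ k ∧ k < j ∧ hs k = h},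
    fun h => if h = hs (j - 1) then hs i else T h, ⟨hs i, i, le_rfl, hij, rfl⟩, ?_, ?_, ?_, ?_⟩
  · rintro h ⟨k, hk1, hk2, rfl⟩
    beta_reduce
    by_cases h1 : hs k = hs (j - 1)
    · rw [if_pos h1]
      have h2 : k = j - 1 := hinj' _ _ hk2 (by omega) h1
      refine ⟨⟨i, le_rfl, hij, rfl⟩, ?_, ?_⟩
      · show v i = _
        rw [hvij, ← hj]
        show f (hs j) = _
        have h3 : hs j = T (hs k) := by
          rw [← hs_succ]
          congr 1
          omega
        rw [h3, hT1]
      · rw [h1]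
        exact hlast
    · rw [if_neg h1]
      have h2 : k + 1 < j := by
        rcases Nat.lt_or_ge (k + 1) j with h | h
        · exact h
        · exfalso
          apply h1
          congr 1
          omega
      exact ⟨⟨k + 1, by omega, h2, hs_succ k⟩, hT1 _, hT2 _⟩
  · rintro h ⟨k, hk1, hk2, rfl⟩ h' ⟨k', hk1', hk2', rfl⟩ he
    rw [hinj _ _ hk2 hk2' he]
  · rintro h ⟨k, hk1, hk2, rfl⟩ h' ⟨k', hk1', hk2', rfl⟩ he
    have hlt : ∀ k, k < j → hs k ≠ hs (j - 1) → k + 1 < j := by
      intro k hk h1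
      rcases Nat.lt_or_ge (k + 1) j with h | h
      · exact h
      · exfalso
        apply h1
        congr 1
        omega
    simp only at he
    split_ifs at he with h1 h2 h2
    · rw [h1, h2]
    · exfalso
      rw [← hs_succ] at he
      have := hinj' _ _ hij (hlt _ hk2' h2) he
      omega
    · exfalso
      rw [← hs_succ] at he
      have := hinj' _ _ (hlt _ hk2 h1) hij he
      omega
    · rw [← hs_succ, ← hs_succ] at he
      have := hinj' _ _ (hlt _ hk2 h1) (hlt _ hk2' h2) he
      have h3 : k = k' := by omega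
      rw [h3]
  · rintro h ⟨k, hk1, hk2, rfl⟩
    have h1 : ∀ k, R (f h0) (f (hs k)) := by
      intro k
      induction k with
      | zero => exact hR.refl _
      | succ k ih =>
        rw [hs_succ, hT1]
        exact hR.trans ih (hRα _)
    exact h1 k

/-- a rotation system in which every component has at least two faces -/
theorem exists_rotation {H V C : Type} [Finite H] [Finite C] (f : H → V) (α : Perm H)
    (hα : ∀ h, α (α h) = h)
    (hne : ∀ h, α h ≠ h) (hdeg : ∀ h, ∃ h', f h' = f h ∧ h' ≠ h)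
    (mk : V → C) (hmk : ∀ h, mk (f h) = mk (f (α h))) (hsurj : ∀ q, ∃ h, mk (f h) = q) :
    ∃ σ : Perm H, (∀ h h', σ.SameCycle h h' ↔ f h = f h') ∧
      2 * Nat.card C ≤ cyc (σ * α) := by
  classical
  choose T0 hT0 using hdeg
  let T : H → H := fun h => T0 (α h)
  have hT1 : ∀ h, f (T h) = f (α h) := fun h => (hT0 (α h)).1
  have hT2 : ∀ h, T h ≠ α h := fun h => (hT0 (α h)).2
  choose r hr using hsurj
  have hcyc := fun q : C => exists_cycle f α hα hne T hT1 hT2 (fun a b => mk a = mk b)
    ⟨fun _ => rfl, fun h => h.symm, fun h h' => h.trans h'⟩ hmk (r q)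
  choose Sq nq hS0 hS1 hS2 hS3 hS4 using hcyc
  have hSq : ∀ q h, h ∈ Sq q → mk (f h) = q := by
    intro q h hh
    rw [← hS4 q h hh, hr]
  let S : Set H := {h | h ∈ Sq (mk (f h))}
  let nxt : H → H := fun h => nq (mk (f h)) h
  have h1 : ∀ h ∈ S, nxt h ∈ S ∧ f (nxt h) = f (α h) ∧ nxt h ≠ α h := by
    intro h hh
    obtain ⟨h3, h4, h5⟩ := hS1 _ h hh
    refine ⟨?_, h4, h5⟩
    show nxt h ∈ Sq (mk (f (nxt h)))
    have : mk (f (nxt h)) = mk (f h) := hSq _ _ h3
    rw [this]
    exact h3
  have h2 : ∀ h ∈ S, ∀ h' ∈ S, f h = f h' → h = h' := by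
    intro h hh h' hh' he
    have hh'' : h' ∈ Sq (mk (f h)) := by
      rw [he]
      exact hh'
    exact hS2 _ h hh h' hh'' he
  have h3 : ∀ h ∈ S, ∀ h' ∈ S, nxt h = nxt h' → h = h' := by
    intro h hh h' hh' he
    have e1 : mk (f h) = mk (f h') := by
      rw [hmk h, hmk h', ← (h1 h hh).2.1, ← (h1 h' hh').2.1, he]
    have hh'' : h' ∈ Sq (mk (f h)) := by
      rw [e1]
      exact hh'
    refine hS3 _ h hh h' hh'' ?_
    show nxt h = nq (mk (f h)) h'
    rw [he, e1]
  have hρ : ∀ v, ∃ ρ : Perm H, ρ.IsCycleOn {h | f h = v} ∧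
      ∀ h ∈ S, f (α h) = v → ρ (α h) = nxt h := by
    intro v
    by_cases h4 : ∃ h ∈ S, f (α h) = v
    · obtain ⟨h, hh, hv⟩ := h4
      obtain ⟨ρ, hρ1, hρ2⟩ := exists_cycleOn_apply {x | f x = v} (a := α h) (b := nxt h) hv
        ((h1 h hh).2.1.trans hv) (h1 h hh).2.2.symm
      refine ⟨ρ, hρ1, fun h' hh' hv' => ?_⟩
      have : h' = h := by
        refine h3 _ hh' _ hh (h2 _ (h1 h' hh').1 _ (h1 h hh).1 ?_)
        rw [(h1 h' hh').2.1, (h1 h hh).2.1, hv, hv']
      rw [this]
      exact hρ2
    · obtain ⟨ρ, hρ⟩ := exists_cycleOn' {x | f x = v}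
      exact ⟨ρ, hρ, fun h hh hv => absurd ⟨h, hh, hv⟩ h4⟩
  choose ρ hρ1 hρ2 using hρ
  obtain ⟨σ, hσ1, hσ2⟩ := exists_sigma f ρ hρ1
  have hφ : ∀ h ∈ S, (σ * α) h = nxt h := by
    intro h hh
    rw [Perm.mul_apply, hσ1]
    exact hρ2 _ h hh rfl
  refine ⟨σ, hσ2, ?_⟩
  -- the set `S` is invariant
  have hSinv : ∀ h, (σ * α) h ∈ S ↔ h ∈ S := by
    have hmaps : ∀ h ∈ S, (σ * α) h ∈ S := by
      intro h hh
      rw [hφ h hh]
      exact (h1 h hh).1
    have hpow : ∀ n : ℕ, ∀ h ∈ S, ((σ * α) ^ n) h ∈ S := by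
      intro n
      induction n with
      | zero => intro h hh; exact hh
      | succ n ih =>
        intro h hh
        rw [pow_succ', Perm.mul_apply]
        exact hmaps _ (ih h hh)
    intro h
    constructor
    · intro hh
      have hpos := (isOfFinOrder_of_finite (σ * α)).orderOf_pos
      have h4 := hpow (orderOf (σ * α) - 1) _ hh
      rw [← Perm.mul_apply, ← pow_succ, Nat.sub_add_cancel hpos, pow_orderOf_eq_one,
        Perm.one_apply] at h4
      exact h4
    · exact hmaps h
  have hcomp : ∀ h, mk (f ((σ * α) h)) = mk (f h) := by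
    intro h
    have : f (σ (α h)) = f (α h) :=
      (hσ2 _ _).1 (sameCycle_apply_left.2 (SameCycle.refl _ _))
    rw [Perm.mul_apply, this, ← hmk]
  have e : C × Bool ≃ Fin (2 * Nat.card C) := by
    have h4 : Nat.card (C × Bool) = 2 * Nat.card C := by
      rw [Nat.card_prod]
      simp
      ring
    exact Finite.equivFinOfCardEq h4
  refine le_cyc_of_label (fun h => e (mk (f h), decide (h ∈ S))) ?_ ?_
  · intro h
    exact congrArg e (Prod.ext (hcomp h) (decide_eq_decide.2 (hSinv h)))
  · intro y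
    obtain ⟨⟨q, b⟩, rfl⟩ := e.surjective y
    obtain ⟨h, hh⟩ := hS0 q
    have hh' : h ∈ S := by
      show h ∈ Sq (mk (f h))
      rw [hSq q h hh]
      exact hh
    cases b
    · refine ⟨α h, ?_⟩
      have h4 : α h ∉ S := by
        intro h5
        exact (h1 h hh').2.2 (h2 _ (h1 h hh').1 _ h5 (h1 h hh').2.1)
      have h5 : mk (f (α h)) = q := by rw [← hmk, hSq q h hh]
      simp [h4, h5]
    · exact ⟨h, by simp [hh', hSq q h hh]⟩

/-- parity of the Euler characteristic -/
theorem euler_parity {H : Type} [Finite H] (σ α : Perm H) (hα : ∀ h, α (α h) = h)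
    (hne : ∀ h, α h ≠ h) : Even ((cyc σ : ℤ) - cyc α + cyc (σ * α)) := by
  classical
  have := Fintype.ofFinite H
  have h1 := cyc_parity σ
  have h2 := cyc_parity α
  have h3 := cyc_parity (σ * α)
  have h4 : (-1 : ℤˣ) ^ (Nat.card H) = 1 := by
    rw [← two_mul_cyc hα hne, pow_mul]
    simp
  rw [h4, one_mul] at h1 h2 h3
  rw [Equiv.Perm.sign_mul, ← h1, ← h2, ← pow_add] at h3
  have h5 : Even (cyc σ + cyc α + cyc (σ * α)) := by
    rw [← neg_one_pow_eq_one_iff_even (R := ℤˣ) (by decide), pow_add, ← h3, ← mul_pow]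
    simp
  obtain ⟨k, hk⟩ := h5
  refine ⟨k - cyc α, ?_⟩
  have hk' : (cyc σ : ℤ) + cyc α + cyc (σ * α) = k + k := by exact_mod_cast hk
  linarith

/-- every multigraph with minimum degree at least two and excess at most `2 g + 1` embeds -/
theorem embH_of_excess {g n m : ℕ} (f : Fin m × Bool → Fin n) (hdeg : ∀ v, 2 ≤ Deg f v)
    (hl : m ≤ n + 2 * g + 1) : EmbH g (flipE (Fin m)) f := by
  classical
  rcases Nat.eq_zero_or_pos m with hm | hm
  · -- no edges, hence no vertices
    subst hm
    have hn : IsEmpty (Fin n) := by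
      refine ⟨fun v => ?_⟩
      have h1 := hdeg v
      have h2 : Deg f v = 0 := by
        unfold Deg
        simp
      omega
    refine ⟨sphereMap, sphereMap_genusLE g, fun v => hn.elim v, fun h => h.1.elim0, ?_, ?_, ?_, ?_⟩
    · intro v
      exact hn.elim v
    · rintro ⟨a, _⟩
      exact a.elim0
    · rintro ⟨a, _⟩
      exact a.elim0
    · rintro ⟨a, _⟩
      exact a.elim0
  · have hα := flipE_flipE (E := Fin m)
    have hne := flipE_ne (E := Fin m)
    -- components
    let s : Setoid (Fin n) := Relation.EqvGen.setoid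
      (fun a b => ∃ h, f h = a ∧ f (flipE (Fin m) h) = b)
    let C := Quotient s
    have : Finite C := Quotient.finite _
    let mk : Fin n → C := fun v => Quotient.mk s v
    have hmk : ∀ h, mk (f h) = mk (f (flipE (Fin m) h)) := fun h =>
      Quotient.sound (Relation.EqvGen.rel _ _ ⟨h, rfl, rfl⟩)
    have hsurj : Surjective f := by
      intro v
      have h1 := hdeg v
      by_contra h2
      push Not at h2
      have h3 : Deg f v = 0 := by
        unfold Deg
        rw [Nat.card_eq_zero]
        exact Or.inl ⟨fun x => h2 x.1 x.2⟩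
      omega
    have hdeg' : ∀ h, ∃ h', f h' = f h ∧ h' ≠ h := by
      intro h
      have h1 := hdeg (f h)
      rw [Deg_eq_card_filter] at h1
      obtain ⟨h', hh', hne'⟩ := Finset.exists_mem_ne (by omega : 1 < (Finset.univ.filter
        fun x => f x = f h).card) h
      exact ⟨h', (Finset.mem_filter.1 hh').2, hne'⟩
    obtain ⟨σ, hσ, hF⟩ := exists_rotation f (flipE (Fin m)) hα hne hdeg' mk hmk (by
      intro q
      obtain ⟨v, rfl⟩ := Quotient.exists_rep q
      obtain ⟨h, rfl⟩ := hsurj v
      exact ⟨h, rfl⟩)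
    have hC : 0 < Nat.card C := by
      have : Nonempty C := ⟨mk (f (⟨0, hm⟩, false))⟩
      exact Nat.card_pos
    have ec : C ≃ Fin (Nat.card C) := Finite.equivFin C
    have hne2 : Nonempty (Fin m × Bool) := ⟨(⟨0, hm⟩, false)⟩
    -- the number of vertices of the rotation system
    have hV : cyc σ = n := by
      unfold cyc
      have h2 : Nat.card (Quotient (SameCycle.setoid σ)) = Nat.card (Fin n) := by
        refine Nat.card_eq_of_bijective (Quotient.lift f
          (fun x y hxy => (hσ x y).1 hxy)) ⟨?_, ?_⟩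
        · intro a b
          induction a using Quotient.inductionOn with | _ a => ?_
          induction b using Quotient.inductionOn with | _ b => ?_
          intro hab
          exact Quotient.sound ((hσ a b).2 hab)
        · intro v
          obtain ⟨h, hh⟩ := hsurj v
          exact ⟨Quotient.mk _ h, hh⟩
      rw [h2]
      simp
    have hE : cyc (flipE (Fin m)) = m := cyc_flipE m
    have hpar := euler_parity σ (flipE (Fin m)) hα hne
    refine embH_of_premap (Nat.card C - 1) σ (flipE (Fin m)) hα hne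
      (fun h => (ec (mk (f h))).val) (fun h => by
        have := (ec (mk (f h))).isLt
        omega) ?_ f hσ hsurj ?_
    · intro S h1 h2 x y hxy hx
      have hS : ∀ {x y}, f x = f y → (S x ↔ S y) := by
        intro x y hxy
        have := eq_of_sameCycle (f := S) (fun x => propext (h1 x)) ((hσ x y).2 hxy)
        rw [this]
      have hq : mk (f x) = mk (f y) := ec.injective (Fin.ext hxy)
      have hrel : Relation.EqvGen (fun a b => ∃ h, f h = a ∧ f (flipE (Fin m) h) = b)
          (f x) (f y) := Quotient.exact hq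
      -- the value of `S` at a vertex
      have key : ∀ a b, Relation.EqvGen (fun a b => ∃ h, f h = a ∧ f (flipE (Fin m) h) = b) a b →
          ∀ x y, f x = a → f y = b → (S x ↔ S y) := by
        intro a b hab
        induction hab with
        | rel a b h =>
          obtain ⟨h, ha, hb⟩ := h
          intro x y hx hy
          rw [hS (hx.trans ha.symm), hS (hy.trans hb.symm)]
          exact (h2 h).symm
        | refl a =>
          intro x y hx hy
          exact hS (hx.trans hy.symm)
        | symm a b _ ih =>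
          intro x y hx hy
          exact (ih y x hy hx).symm
        | trans a b c _ _ ih1 ih2 =>
          intro x y hx hy
          obtain ⟨z, hz⟩ := hsurj b
          exact (ih1 x z hx hz).trans (ih2 z y hz hy)
      exact (key _ _ hrel x y rfl rfl).1 hx
    · rw [hV, hE] at hpar ⊢
      obtain ⟨k, hk⟩ := hpar
      have hF' : (2 : ℤ) * Nat.card C ≤ cyc (σ * flipE (Fin m)) := by exact_mod_cast hF
      have hl' : (m : ℤ) ≤ n + 2 * g + 1 := by exact_mod_cast hl
      have hC' : ((Nat.card C - 1 : ℕ) : ℤ) = Nat.card C - 1 := by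
        rw [Nat.cast_sub hC]
        simp
      rw [hC']
      omega

/-- closed form for excess at most `2 g + 1` -/
theorem kernelCount_of_excess {g n m : ℕ} (hl : m ≤ n + 2 * g + 1) :
    kernelCount g n m = closed n m :=
  kernelCount_of_all fun f hf => embH_of_excess f (fun v => le_trans (by norm_num) (hf v)) hl

end KernelCount
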