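import Mathlib
import Pool.Agent.Lib.MP_b69e89_co.Excess

/-!
# MP_b69e89_co : complete graphs of small excess
-/

namespace KernelCount

open Equiv Equiv.Perm Function Empire

/-- `K_n` embeds on `S_g` if `n (n - 3) / 2 ≤ 2 g + 1` -/
theorem complete_of_choose {g n : ℕ} (h : n.choose 2 ≤ n + 2 * g + 1) :
    EmbedsOn g (fun p : {p : Sym2 (Fin n) // ¬ p.IsDiag} => (p : Sym2 (Fin n))) := by
  classical
  by_cases hn : n ≤ 4
  · exact complete_mono hn (K4_embeds g)
  have hcard : Nat.card {p : Sym2 (Fin n) // ¬ p.IsDiag} = n.choose 2 := by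
    rw [Nat.card_eq_fintype_card, Sym2.card_subtype_not_diag, Fintype.card_fin]
  have e : {p : Sym2 (Fin n) // ¬ p.IsDiag} ≃ Fin (n.choose 2) := Finite.equivFinOfCardEq hcard
  let f : Fin (n.choose 2) × Bool → Fin n := fun x =>
    if x.2 then (e.symm x.1).1.out.2 else (e.symm x.1).1.out.1
  have hf : ∀ i, s(f (i, false), f (i, true)) = (e.symm i : Sym2 (Fin n)) := by
    intro i
    show s((e.symm i).1.out.1, (e.symm i).1.out.2) = _
    exact Quot.out_eq _
  have hdeg : ∀ v, 2 ≤ Deg f v := by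
    intro v
    obtain ⟨w1, hw1⟩ : ∃ w : Fin n, w ≠ v := by
      by_cases h0 : v = ⟨0, by omega⟩
      · exact ⟨⟨1, by omega⟩, by rw [h0]; simp⟩
      · exact ⟨⟨0, by omega⟩, fun h => h0 h.symm⟩
    obtain ⟨w2, hw2⟩ : ∃ w : Fin n, w ∉ ({v, w1} : Finset (Fin n)) := by
      by_contra hcon
      push Not at hcon
      have h1 : (Finset.univ : Finset (Fin n)) ⊆ {v, w1} := fun x _ => hcon x
      have h2 := Finset.card_le_card h1
      have h3 := Finset.card_le_two (a := v) (b := w1)
      rw [Finset.card_univ, Fintype.card_fin] at h2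
      omega
    simp only [Finset.mem_insert, Finset.mem_singleton, not_or] at hw2
    have key : ∀ (w : Fin n) (hw : w ≠ v),
        ∃ b, f (e ⟨s(v, w), by simpa using fun h => hw h.symm⟩, b) = v := by
      intro w hw
      have h1 := hf (e ⟨s(v, w), by simpa using fun h => hw h.symm⟩)
      rw [Equiv.symm_apply_apply] at h1
      have h2 : v ∈ s(f (e ⟨s(v, w), by simpa using fun h => hw h.symm⟩, false),
          f (e ⟨s(v, w), by simpa using fun h => hw h.symm⟩, true)) := by
        rw [h1]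
        exact Sym2.mem_mk_left v w
      rcases Sym2.mem_iff.1 h2 with h3 | h3
      · exact ⟨false, h3.symm⟩
      · exact ⟨true, h3.symm⟩
    obtain ⟨b1, hb1⟩ := key w1 hw1
    obtain ⟨b2, hb2⟩ := key w2 hw2.1
    rw [Deg_eq_card_filter]
    have hne : ((e ⟨s(v, w1), by simpa using fun h => hw1 h.symm⟩, b1) :
        Fin (n.choose 2) × Bool) ≠ (e ⟨s(v, w2), by simpa using fun h => hw2.1 h.symm⟩, b2) := by
      intro h
      have h1 := congrArg Prod.fst h
      have h2 := congrArg Subtype.val (e.injective h1)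
      have h3 : s(v, w1) = s(v, w2) := h2
      rw [Sym2.eq_iff] at h3
      rcases h3 with ⟨_, h4⟩ | ⟨h4, _⟩
      · exact hw2.2 h4.symm
      · exact hw2.1 h4.symm
    refine (Finset.card_pair hne).symm.le.trans (Finset.card_le_card ?_)
    intro x hx
    rw [Finset.mem_insert, Finset.mem_singleton] at hx
    rw [Finset.mem_filter]
    rcases hx with hx | hx
    · rw [hx]; exact ⟨Finset.mem_univ _, hb1⟩
    · rw [hx]; exact ⟨Finset.mem_univ _, hb2⟩
  have h1 := embH_of_excess f hdeg h
  rw [embH_flip_iff] at h1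
  refine h1.of_subset _ fun p => Or.inr ⟨e p, ?_⟩
  rw [hf, Equiv.symm_apply_apply]

end KernelCount
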